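import Pool.Agent.H13RP.Seq3

set_option autoImplicit false

/-! # Escape for some parameter in the disc of radius `R₂ / n` -/

namespace Pool.Agent.H13RP

open Polynomial Metric Filter Topology Complex.HadamardThreeLines

theorem three_circles {Q : ℂ → ℂ} (hQ : Differentiable ℂ Q) {R₁ R₂ a b : ℝ} (h1 : 0 < R₁)
    (h12 : R₁ < R₂) (ha : ∀ τ : ℂ, ‖τ‖ = R₁ → ‖Q τ‖ ≤ a) (hb : ∀ τ : ℂ, ‖τ‖ = R₂ → ‖Q τ‖ ≤ b)
    {z : ℂ} (hz1 : Real.log R₁ ≤ z.re) (hz2 : z.re ≤ Real.log R₂) :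
    ‖Q (Complex.exp z)‖ ≤ a ^ (1 - (z.re - Real.log R₁) / (Real.log R₂ - Real.log R₁)) *
      b ^ ((z.re - Real.log R₁) / (Real.log R₂ - Real.log R₁)) := by
  have h2 : 0 < R₂ := h1.trans h12
  have hdiff : Differentiable ℂ fun z => Q (Complex.exp z) := hQ.comp Complex.differentiable_exp
  refine norm_le_interp_of_mem_verticalClosedStrip' (f := fun z => Q (Complex.exp z))
    (Real.log_lt_log h1 h12) ⟨hz1, hz2⟩ hdiff.diffContOnCl ?_ ?_ ?_
  · obtain ⟨C, hC⟩ := (isCompact_closedBall (0 : ℂ) R₂).exists_bound_of_continuousOn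
      (f := Q) hQ.continuous.continuousOn
    refine ⟨C, ?_⟩
    rintro _ ⟨w, hw, rfl⟩
    refine hC _ ?_
    rw [mem_closedBall_zero_iff, Complex.norm_exp, ← Real.exp_log h2]
    exact Real.exp_le_exp.2 hw.2
  · intro w hw
    refine ha _ ?_
    have : w.re = Real.log R₁ := hw
    rw [Complex.norm_exp, this, Real.exp_log h1]
  · intro w hw
    refine hb _ ?_
    have : w.re = Real.log R₂ := hw
    rw [Complex.norm_exp, this, Real.exp_log h2]

section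

variable {Ψ : ℂ[X]} {lam κ : ℂ} {N : ℕ} {δ K : ℝ}

theorem escape {d : ℕ} (hd : 2 ≤ d) {a : ℂ} (ha : ‖a‖ ≤ 1)
    (L : IsLoc (Gp d a) Ψ κ N δ K) (h : IsNF (Gp d a) Ψ lam κ N) (hG0 : (Gp d a).coeff 0 = 0)
    (hG1 : (Gp d a).coeff 1 = lam) {R₂ : ℝ} (hR2 : 2 * Real.pi < R₂) (B : ℝ) :
    ∃ n₀ : ℕ, 1 ≤ n₀ ∧ ∀ n : ℕ, n₀ ≤ n → ∃ t : ℂ, n * ‖t‖ ≤ R₂ ∧
      B < ‖W d a (Complex.exp (t / N)) n‖ := by
  have hpi := Real.pi_pos
  have hpi3 := Real.pi_gt_three
  have hN0 : (0 : ℝ) < N := by exact_mod_cast h.pos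
  have hN1 : (1 : ℝ) ≤ N := by exact_mod_cast h.pos
  obtain ⟨p, hp⟩ : ∃ p, p = 1 / ((N : ℝ) + 1) := ⟨_, rfl⟩
  have hp0 : 0 < p := by rw [hp]; positivity
  have hp1 : p ≤ 1 / 2 := by
    rw [hp]
    exact one_div_le_one_div_of_le (by norm_num) (by linarith)
  obtain ⟨Λ, hΛ⟩ : ∃ Λ, Λ = Real.log (R₂ / (2 * Real.pi)) := ⟨_, rfl⟩
  have hΛ0 : 0 < Λ := by
    rw [hΛ]
    apply Real.log_pos
    rw [lt_div_iff₀ (by positivity)]
    linarith
  obtain ⟨x, hx⟩ : ∃ x, x = Λ * p / 4 := ⟨_, rfl⟩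
  have hx0 : 0 < x := by rw [hx]; positivity
  obtain ⟨R₁, hR₁⟩ : ∃ R₁, R₁ = 2 * Real.pi * Real.exp (-x) := ⟨_, rfl⟩
  have hR₁0 : 0 < R₁ := by rw [hR₁]; positivity
  have hR₁1 : R₁ < 2 * Real.pi := by
    rw [hR₁]
    have : Real.exp (-x) < 1 := by rw [Real.exp_lt_one_iff]; linarith
    nlinarith
  have hR₂0 : 0 < R₂ := by linarith
  have hlog1 : Real.log R₁ = Real.log (2 * Real.pi) - x := by
    rw [hR₁, Real.log_mul (by positivity) (Real.exp_ne_zero _), Real.log_exp]; ring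
  have hlog2 : Real.log R₂ = Real.log (2 * Real.pi) + Λ := by
    rw [hΛ, Real.log_div hR₂0.ne' (by positivity)]; ring
  obtain ⟨m, hm0, hm1, hm⟩ := exists_m hR₁1
  obtain ⟨C₂, n₁, hC₂0, hn₁1, hn₁⟩ := seq_final hd ha L h hG0 hG1 hR₁0 hR₁1
  obtain ⟨cB, hcB1, hcB⟩ := poly_bdd Ψ B
  obtain ⟨E, hE⟩ : ∃ E, E = Real.exp R₁ := ⟨_, rfl⟩
  have hE0 : 0 < E := by rw [hE]; exact Real.exp_pos _
  obtain ⟨A₁, hA₁⟩ : ∃ A₁, A₁ = 4 / m * E * C₂ := ⟨_, rfl⟩
  have hA₁0 : 0 < A₁ := by rw [hA₁]; positivity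
  obtain ⟨A₂, hA₂⟩ : ∃ A₂, A₂ = ‖κ‖ * cB ^ N * (1 + Real.exp R₂) + 2 * R₂ := ⟨_, rfl⟩
  have hA₂0 : 0 < A₂ := by rw [hA₂]; positivity
  obtain ⟨s, hs⟩ : ∃ s, s = x / (Λ + x) := ⟨_, rfl⟩
  have hs0 : 0 < s := by rw [hs]; positivity
  have hs1 : s ≤ p / 4 := by
    rw [hs, div_le_iff₀ (by positivity), hx]
    nlinarith [mul_pos (mul_pos hp0 hΛ0) hp0]
  obtain ⟨e, he⟩ : ∃ e, e = p * (1 - s) - s := ⟨_, rfl⟩
  have he0 : 0 < e := by
    rw [he]
    nlinarith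
  -- the choice of the threshold
  have hlim : Tendsto (fun n : ℕ => A₁ ^ (1 - s) * A₂ ^ s * (n : ℝ) ^ (-e)) atTop (𝓝 0) := by
    have h1 : Tendsto (fun n : ℕ => (n : ℝ) ^ (-e)) atTop (𝓝 0) :=
      (tendsto_rpow_neg_atTop he0).comp tendsto_natCast_atTop_atTop
    have h2 := h1.const_mul (A₁ ^ (1 - s) * A₂ ^ s)
    rwa [mul_zero] at h2
  have hlim2 : Tendsto (fun n : ℕ => C₂ * (n : ℝ) ^ (-p)) atTop (𝓝 0) := by
    have h1 : Tendsto (fun n : ℕ => (n : ℝ) ^ (-p)) atTop (𝓝 0) :=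
      (tendsto_rpow_neg_atTop hp0).comp tendsto_natCast_atTop_atTop
    have h2 := h1.const_mul C₂
    rwa [mul_zero] at h2
  have ev1 := hlim.eventually_lt_const (show (0 : ℝ) < 3 by norm_num)
  have ev2 := hlim2.eventually_le_const (show (0 : ℝ) < m / (2 * Real.exp R₁) * R₁ by positivity)
  have ev3 : ∀ᶠ n : ℕ in atTop, 4 * R₂ ≤ (n : ℝ) :=
    tendsto_natCast_atTop_atTop.eventually_ge_atTop _
  obtain ⟨n₂, hn₂⟩ := eventually_atTop.1 (ev1.and (ev2.and (ev3.and (eventually_ge_atTop n₁))))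
  refine ⟨max n₂ 1, le_max_right _ _, fun n hn => ?_⟩
  obtain ⟨g1, g2, g3, g4⟩ := hn₂ n ((le_max_left _ _).trans hn)
  have hnp : (0 : ℝ) < n := by linarith
  have hn1 : 1 ≤ n := (le_max_right _ _).trans hn
  have hn1' : (1 : ℝ) ≤ n := by exact_mod_cast hn1
  have hnc : (n : ℂ) ≠ 0 := Nat.cast_ne_zero.2 (by omega)
  by_contra hcon
  push Not at hcon
  obtain ⟨Q, hQ⟩ : ∃ Q : ℂ → ℂ, Q = fun τ => n * PF Ψ κ N (W d a (Complex.exp (τ / n / N)) n) *
    (1 - Complex.exp (-τ)) - n * (Complex.exp (τ / n) - 1) := ⟨_, rfl⟩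
  have hWd : Differentiable ℂ fun τ : ℂ => W d a (Complex.exp (τ / n / N)) n := by
    have h1 : Differentiable ℂ fun τ : ℂ => Complex.exp (τ / n / N) := by fun_prop
    exact (W_diff d a n).comp h1
  have hQd : Differentiable ℂ Q := by
    have h1 : Differentiable ℂ fun τ : ℂ => PF Ψ κ N (W d a (Complex.exp (τ / n / N)) n) := by
      unfold PF
      exact ((Ψ.differentiable.comp hWd).pow N).const_mul κ
    rw [hQ]
    fun_prop
  have hin : ∀ τ : ℂ, ‖τ‖ = R₁ → ‖Q τ‖ ≤ A₁ * (n : ℝ) ^ (-p) := by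
    intro τ hτ
    obtain ⟨t, ht⟩ : ∃ t, t = τ / n := ⟨_, rfl⟩
    have hτt : τ = n * t := by rw [ht]; field_simp
    have hnt : n * ‖t‖ = R₁ := by rw [← hτ, hτt, norm_mul, Complex.norm_natCast]
    have htn : ‖t‖ = R₁ / n := by rw [eq_div_iff hnp.ne']; linarith
    have ht0 : t ≠ 0 := by
      rw [← norm_pos_iff, htn]; positivity
    have ht2 : ‖t‖ ≤ 1 / 2 := by
      rw [htn, div_le_iff₀ hnp]; linarith
    obtain ⟨r1, r2, r3⟩ := hn₁ n g4 t hnt
    rw [← hp] at r3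
    have hb := F_bounds hm0 hm1 hm ht0 ht2 hnt.le (by rw [hnt]; exact r3.trans g2)
    have hP0 := L.P_ne r1 (by linarith [L.pos])
    obtain ⟨P, hP⟩ : ∃ P, P = PF Ψ κ N (W d a (Complex.exp (t / N)) n) := ⟨_, rfl⟩
    have hFP : FF Ψ κ N (W d a (Complex.exp (t / N)) n) = P⁻¹ := by rw [FF, hP]
    rw [← hP] at hP0
    rw [hFP] at hb r3
    have hQe : Q τ = n * P * (Complex.exp (-(n * t)) * (DD t P⁻¹ n - 1)) := by
      rw [hQ]
      simp only
      rw [← ht, ← hP, hτt, DD]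
      have h2 : Complex.exp (-(n * t)) * Complex.exp (n * t) = 1 := by
        rw [← Complex.exp_add, neg_add_cancel, Complex.exp_zero]
      have h3 : P * P⁻¹ = 1 := mul_inv_cancel₀ hP0
      linear_combination (-(n * P * (1 - (Complex.exp t - 1) * P⁻¹))) * h2 +
        (n * (Complex.exp t - 1)) * h3
    have hPn : (n : ℝ) * ‖P‖ ≤ 4 / m := by
      have h1 := hb.1
      rw [norm_inv] at h1
      have h2 : 0 < ‖P‖ := norm_pos_iff.2 hP0
      rw [le_div_iff₀ hm0]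
      calc n * ‖P‖ * m = 4 * (m * n / 4 * ‖P‖) := by ring
        _ ≤ 4 * (‖P‖⁻¹ * ‖P‖) := by
            apply mul_le_mul_of_nonneg_left _ (by norm_num)
            exact mul_le_mul_of_nonneg_right h1 h2.le
        _ = 4 := by rw [inv_mul_cancel₀ h2.ne', mul_one]
    have hexp : ‖Complex.exp (-(n * t))‖ ≤ E := by
      rw [Complex.norm_exp, hE]
      apply Real.exp_le_exp.2
      calc (-((n : ℂ) * t)).re ≤ ‖-((n : ℂ) * t)‖ := Complex.re_le_norm _
        _ = n * ‖t‖ := by rw [norm_neg, norm_mul, Complex.norm_natCast]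
        _ ≤ R₁ := hnt.le
    rw [hQe, norm_mul, norm_mul, norm_mul, Complex.norm_natCast]
    calc n * ‖P‖ * (‖Complex.exp (-(n * t))‖ * ‖DD t P⁻¹ n - 1‖) ≤
        4 / m * (E * (C₂ * (n : ℝ) ^ (-p))) := by
          apply mul_le_mul hPn _ (by positivity) (by positivity)
          exact mul_le_mul hexp r3 (norm_nonneg _) hE0.le
      _ = A₁ * (n : ℝ) ^ (-p) := by rw [hA₁]; ring
  have hout : ∀ τ : ℂ, ‖τ‖ = R₂ → ‖Q τ‖ ≤ A₂ * n := by
    intro τ hτ
    have h1 := hcon (τ / n) (by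
      rw [norm_div, Complex.norm_natCast, hτ]
      rw [mul_div_cancel₀ _ hnp.ne'])
    have h2 : ‖PF Ψ κ N (W d a (Complex.exp (τ / n / N)) n)‖ ≤ ‖κ‖ * cB ^ N := by
      rw [PF, norm_mul, norm_pow]
      exact mul_le_mul_of_nonneg_left (pow_le_pow_left₀ (norm_nonneg _) (hcB _ h1) N)
        (norm_nonneg _)
    have h3 : ‖1 - Complex.exp (-τ)‖ ≤ 1 + Real.exp R₂ := by
      refine (norm_sub_le _ _).trans ?_
      rw [norm_one, Complex.norm_exp]
      have : (-τ).re ≤ R₂ := by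
        rw [← hτ, ← norm_neg]
        exact Complex.re_le_norm _
      have := Real.exp_le_exp.2 this
      linarith
    have h4 : ‖(n : ℂ) * (Complex.exp (τ / n) - 1)‖ ≤ 2 * R₂ := by
      have h5 : ‖τ / n‖ = R₂ / n := by rw [norm_div, Complex.norm_natCast, hτ]
      have h6 := Complex.norm_exp_sub_one_le (x := τ / n) (by
        rw [h5, div_le_one hnp]; linarith)
      rw [norm_mul, Complex.norm_natCast]
      calc n * ‖Complex.exp (τ / n) - 1‖ ≤ n * (2 * (R₂ / n)) := by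
            rw [← h5]; exact mul_le_mul_of_nonneg_left h6 hnp.le
        _ = 2 * R₂ := by field_simp
    rw [hQ]
    simp only
    refine (norm_sub_le _ _).trans ?_
    have h5 : ‖(n : ℂ) * PF Ψ κ N (W d a (Complex.exp (τ / n / N)) n) *
        (1 - Complex.exp (-τ))‖ ≤ n * (‖κ‖ * cB ^ N) * (1 + Real.exp R₂) := by
      rw [norm_mul, norm_mul, Complex.norm_natCast]
      apply mul_le_mul _ h3 (norm_nonneg _) (by positivity)
      exact mul_le_mul_of_nonneg_left h2 hnp.le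
    have h6 : 2 * R₂ ≤ 2 * R₂ * n := le_mul_of_one_le_right (by positivity) hn1'
    calc _ ≤ n * (‖κ‖ * cB ^ N) * (1 + Real.exp R₂) + 2 * R₂ * n := by linarith
      _ = A₂ * n := by rw [hA₂]; ring
  -- the three circles theorem
  obtain ⟨z, hz⟩ : ∃ z : ℂ, z = Real.log (2 * Real.pi) + Real.pi / 2 * Complex.I := ⟨_, rfl⟩
  have hzre : z.re = Real.log (2 * Real.pi) := by
    rw [hz, Complex.add_re, Complex.ofReal_re]
    have : ((Real.pi : ℂ) / 2 * Complex.I).re = 0 := by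
      rw [show (Real.pi : ℂ) / 2 = ((Real.pi / 2 : ℝ) : ℂ) by push_cast; ring,
        Complex.re_ofReal_mul, Complex.I_re, mul_zero]
    rw [this, add_zero]
  have hexpz : Complex.exp z = 2 * Real.pi * Complex.I := by
    rw [hz, Complex.exp_add, ← Complex.ofReal_exp, Real.exp_log (by positivity),
      Complex.exp_pi_div_two_mul_I]
    push_cast
    ring
  have hthree := three_circles hQd hR₁0 (by linarith) hin hout (z := z)
    (by rw [hzre, hlog1]; linarith) (by rw [hzre, hlog2]; linarith)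
  have hse : (z.re - Real.log R₁) / (Real.log R₂ - Real.log R₁) = s := by
    rw [hzre, hlog1, hlog2, hs]
    congr 1 <;> ring
  rw [hse, hexpz] at hthree
  have hval : 3 ≤ ‖Q (2 * Real.pi * Complex.I)‖ := by
    have h1 : Complex.exp (-(2 * Real.pi * Complex.I)) = 1 := by
      rw [Complex.exp_neg, Complex.exp_two_pi_mul_I, inv_one]
    have h2 : Q (2 * Real.pi * Complex.I) =
        -(n * (Complex.exp (2 * Real.pi * Complex.I / n) - 1)) := by
      rw [hQ]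
      simp only
      rw [h1]
      ring
    have h3 : ‖2 * Real.pi * Complex.I / (n : ℂ)‖ = 2 * Real.pi / n := by
      rw [norm_div, Complex.norm_natCast, norm_mul, norm_mul, Complex.norm_I, Complex.norm_ofNat,
        Complex.norm_real, Real.norm_of_nonneg hpi.le, mul_one]
    have h4 := exp_sub_one_ge (t := 2 * Real.pi * Complex.I / (n : ℂ)) (by
      rw [h3, div_le_iff₀ hnp]; linarith)
    rw [h3] at h4
    rw [h2, norm_neg, norm_mul, Complex.norm_natCast]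
    calc (3 : ℝ) ≤ Real.pi := hpi3.le
      _ = n * (2 * Real.pi / n / 2) := by field_simp
      _ ≤ n * ‖Complex.exp (2 * Real.pi * Complex.I / n) - 1‖ :=
          mul_le_mul_of_nonneg_left h4 hnp.le
  have hfin : (A₁ * (n : ℝ) ^ (-p)) ^ (1 - s) * (A₂ * n) ^ s =
      A₁ ^ (1 - s) * A₂ ^ s * (n : ℝ) ^ (-e) := by
    rw [Real.mul_rpow hA₁0.le (by positivity), Real.mul_rpow hA₂0.le hnp.le,
      ← Real.rpow_mul hnp.le]
    have : (n : ℝ) ^ (-e) = (n : ℝ) ^ (-p * (1 - s)) * (n : ℝ) ^ s := by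
      rw [← Real.rpow_add hnp]
      congr 1
      rw [he]; ring
    rw [this]
    ring
  rw [hfin] at hthree
  linarith

end

end Pool.Agent.H13RP
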