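import Pool.Agent.H13RP.Grn

set_option autoImplicit false

/-! # Harmonic measure at the rational boundary points of the main component -/

namespace Pool.Agent.H13RP

open Complex Metric Set Filter Topology Bornology Pool.Agent.H712R2
  Pool.Agent.H713R2 N62a1eb23 Real MeasureTheory Pool.Agent.H13MU
open Pool.Agent.H13MD (mu)

theorem num_a {κ : ℝ} (h0 : 0 < κ) (h1 : κ ≤ 1 / 16) :
    1 - 3 * κ ≤ (1 - κ) ^ 2 / (1 + κ) := by
  rw [le_div_iff₀ (by linarith)]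
  nlinarith

theorem num_b {κ : ℝ} (h0 : 0 < κ) (h1 : κ ≤ 1 / 16) :
    (1 + κ) ^ 2 / (1 - κ) ≤ 1 + 5 * κ := by
  rw [div_le_iff₀ (by linarith)]
  nlinarith

theorem num_c {κ : ℝ} (h0 : 0 < κ) (h1 : κ ≤ 1 / 16) :
    (1 + κ) ^ 2 / (1 - κ) + 1 / 4 ≤ 2 * (1 - κ) ^ 2 := by
  have h2 := num_b h0 h1
  nlinarith

theorem pow_cmp {p : ℕ} (hp : 1 ≤ p) {y k x : ℝ} (hx : 0 ≤ x) (hk : 1 ≤ k)
    (h : y ^ p ≤ k * x ^ p) : y ≤ k * x := by
  have h1 : k * x ^ p ≤ (k * x) ^ p := by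
    rw [mul_pow]
    exact mul_le_mul_of_nonneg_right (le_self_pow₀ hk (by omega)) (by positivity)
  exact le_of_pow_le_pow_left₀ (by omega) (by positivity) (h.trans h1)

theorem pow_cmp2 {p : ℕ} (hp : 1 ≤ p) (hp2 : p ≤ 2) {y k x : ℝ} (hx : 0 ≤ x)
    (hk : 1 ≤ k) (h : y ^ p ≤ k / 4 * x ^ p) : y ≤ k / 2 * x := by
  have h1 : k / 4 * x ^ p ≤ (k / 2 * x) ^ p := by
    rw [mul_pow]
    apply mul_le_mul_of_nonneg_right _ (by positivity)
    interval_cases p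
    · rw [pow_one]; linarith
    · nlinarith
  exact le_of_pow_le_pow_left₀ (by omega) (by positivity) (h.trans h1)

theorem pow_cmp3 {p : ℕ} (hp : 1 ≤ p) {y k x : ℝ} (hy : 0 ≤ y) (hx : 0 ≤ x) (hk0 : 0 ≤ k)
    (hk : k ≤ 1) (h : y ≤ k * x) : y ^ p ≤ k * x ^ p := by
  calc y ^ p ≤ (k * x) ^ p := pow_le_pow_left₀ hy h p
    _ = k ^ p * x ^ p := mul_pow _ _ _
    _ ≤ k * x ^ p := mul_le_mul_of_nonneg_right (pow_le_of_le_one hk0 hk (by omega)) (by positivity)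

theorem nl0 {κ : ℝ} (h : 0 < κ) : 2 * π * (1 - κ) < 2 * π := by
  have := Real.pi_pos
  nlinarith

theorem nl0' {κ : ℝ} (h : 0 < κ) : 2 * π < 2 * π * (1 + κ) := by
  have := Real.pi_pos
  nlinarith

theorem nl1 {κ ρ ρ₁ b : ℝ} (hκ : κ ≤ 1 / 16) (hρ : 0 < ρ) (h : 2 * ρ ≤ ρ₁) (hb : b ≤ (1 + κ) * ρ) :
    b ≤ ρ₁ := by nlinarith

theorem nl2 {k x X : ℝ} (hk : k ≤ 2) (hx : 0 < x) (h : x ≤ X / 2) : k * x ≤ X := by nlinarith

theorem nl3 {k x X : ℝ} (hk : k ≤ 2) (hx : 0 < x) (h : x ≤ X / 2) : k / 2 * x ≤ X := by nlinarith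

theorem nl4 {k x X : ℝ} (hk : k ≤ 1) (hx : 0 < x) (h : x ≤ X) : k * x ≤ X := by nlinarith

theorem nl5 {κ ρ b : ℝ} (hκ : 0 < κ) (hρ : 0 < ρ) (hb : b ≤ (1 - κ) * ρ) : b < ρ := by nlinarith

theorem nl6 {κ ρ b : ℝ} (hκ : 0 < κ) (hρ : 0 < ρ) (hb : b ≤ (1 - κ) * ρ) :
    (ρ + b) * κ ≤ 2 * (ρ - b) := by
  have h1 := nl5 hκ hρ hb
  have h2 : b * κ ≤ ρ * κ := mul_le_mul_of_nonneg_right h1.le hκ.le
  linarith

theorem nl7 {T η : ℝ} (hT : 0 < T) (hη : η < 1) : T * (η / 4) ≤ T * (1 / 4) := by nlinarith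

theorem nl8 {κ ρ : ℝ} (hκ : 0 < κ) (hρ : 0 < ρ) : ρ < (1 + κ) * ρ := by nlinarith

section

variable {d : ℕ} (hd : 2 ≤ d) {ψ : ℂ → ℂ} (hψ : IsExteriorMap (multibrotSet d) ψ)
include hd hψ

variable {a : ℂ} {q : ℕ} (hq : 0 < q) (h : IsPrimitiveRoot ((d : ℂ) * a ^ (d - 1)) q)
include hq h

theorem core {A : ℝ} {p : ℕ} (hP : IsPar d a A p) {η : ℝ} (hη : 0 < η) (hη1 : η < 1) :
    ∃ X₀ : ℝ, 0 < X₀ ∧ ∀ x : ℝ, 0 < x → x < X₀ → ∃ r₀ : ℝ, 1 < r₀ ∧ ∀ r : ℝ, 1 < r → r < r₀ →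
      Real.exp (-((1 + η) * (2 * π * Real.log d / (q * x)))) ≤
        mu.real {θ : ℝ | ‖ψ (circleMap 0 r θ) - Cc d a 0‖ < A * x ^ p} / (2 * π) ∧
      mu.real {θ : ℝ | ‖ψ (circleMap 0 r θ) - Cc d a 0‖ < A * x ^ p} / (2 * π) ≤
        Real.exp (-((1 - η) * (2 * π * Real.log d / (q * x)))) := by
  have hpi := Real.pi_pos
  have hq0 : (0 : ℝ) < q := by exact_mod_cast hq
  have hd2 : (2 : ℝ) ≤ d := by exact_mod_cast hd
  have hlogd : 0 < Real.log d := Real.log_pos (by linarith)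
  have hlog2 : 0 < Real.log 2 := Real.log_pos (by norm_num)
  obtain ⟨κ, hκ⟩ : ∃ κ, κ = η / 16 := ⟨_, rfl⟩
  have hκ0 : 0 < κ := by rw [hκ]; positivity
  have hκ1 : κ ≤ 1 / 16 := by rw [hκ]; linarith
  have hκm : 0 < 1 - κ := by linarith
  obtain ⟨X₁, C₁, hX₁, hC₁, hsmall⟩ := green_small hd hψ hq h (R₁ := 2 * π * (1 - κ))
    (by positivity) (nl0 hκ0)
  obtain ⟨X₂, hX₂, hbig⟩ := green_big hd hψ hq h (R₂ := 2 * π * (1 + κ)) (nl0' hκ0)
  have hc₀ := par_mem hd hq h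
  obtain ⟨hA, hp1, hp2, hP'⟩ := id hP
  obtain ⟨τ₁, hτ₁, hpar⟩ := hP' κ hκ0
  obtain ⟨ρ₁, hρ₁, hsurj⟩ := par_surj hP hτ₁
  -- the constants
  have hlk : 0 < Real.log (1 + κ) := Real.log_pos (by linarith)
  obtain ⟨M, hM⟩ : ∃ M, M = 1 + C₁ / Real.log (1 + κ) + 8 / κ + 8 * C₁ / (κ * Real.log 2) :=
    ⟨_, rfl⟩
  have m1 : 0 < C₁ / Real.log (1 + κ) := by positivity
  have m2 : 0 < 8 / κ := by positivity
  have m3 : 0 < 8 * C₁ / (κ * Real.log 2) := by positivity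
  have hM1 : 1 < M := by linarith
  obtain ⟨T₀, hT₀⟩ : ∃ T₀, T₀ = 1 + 4 / η * Real.log M := ⟨_, rfl⟩
  have hlM : 0 < Real.log M := Real.log_pos hM1
  have hT₀0 : 0 < T₀ := by rw [hT₀]; positivity
  obtain ⟨X₀, hX₀⟩ : ∃ X₀, X₀ = min (min (X₁ / 2) X₂) (min (min τ₁ 1)
    (min (ρ₁ / (2 * A)) (2 * π * Real.log d / (q * T₀)))) := ⟨_, rfl⟩
  have hX₀0 : 0 < X₀ := by rw [hX₀]; positivity
  refine ⟨X₀, hX₀0, fun x hx0 hx => ?_⟩
  have hxa : x ≤ X₁ / 2 := by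
    refine hx.le.trans ?_
    rw [hX₀]; exact (min_le_left _ _).trans (min_le_left _ _)
  have hxb : x ≤ X₂ := by
    refine hx.le.trans ?_
    rw [hX₀]; exact (min_le_left _ _).trans (min_le_right _ _)
  have hxc : x ≤ τ₁ := by
    refine hx.le.trans ?_
    rw [hX₀]
    exact (min_le_right _ _).trans ((min_le_left _ _).trans (min_le_left _ _))
  have hxd : x ≤ 1 := by
    refine hx.le.trans ?_
    rw [hX₀]
    exact (min_le_right _ _).trans ((min_le_left _ _).trans (min_le_right _ _))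
  have hxe : x ≤ ρ₁ / (2 * A) := by
    refine hx.le.trans ?_
    rw [hX₀]
    exact (min_le_right _ _).trans ((min_le_right _ _).trans (min_le_left _ _))
  have hxf : x ≤ 2 * π * Real.log d / (q * T₀) := by
    refine hx.le.trans ?_
    rw [hX₀]
    exact (min_le_right _ _).trans ((min_le_right _ _).trans (min_le_right _ _))
  obtain ⟨T, hT⟩ : ∃ T, T = 2 * π * Real.log d / (q * x) := ⟨_, rfl⟩
  have hT0 : T₀ ≤ T := by
    rw [hT, le_div_iff₀ (by positivity)]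
    rw [le_div_iff₀ (by positivity)] at hxf
    linarith
  have hTp : 0 < T := hT₀0.trans_le hT0
  have hTM : M ≤ Real.exp (T * (η / 4)) := by
    have h1 : Real.log M ≤ T * (η / 4) := by
      have h2 : 4 / η * Real.log M ≤ T := by linarith
      have h3 := mul_le_mul_of_nonneg_right h2 (show 0 ≤ η / 4 by positivity)
      have h4 : 4 / η * Real.log M * (η / 4) = Real.log M := by field_simp
      linarith
    calc M = Real.exp (Real.log M) := (Real.exp_log (by linarith)).symm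
      _ ≤ _ := Real.exp_le_exp.2 h1
  rw [← hT]
  obtain ⟨ρ, hρ⟩ : ∃ ρ, ρ = A * x ^ p := ⟨_, rfl⟩
  have hρ0 : 0 < ρ := by rw [hρ]; positivity
  have hρle : 2 * ρ ≤ ρ₁ := by
    have h1 : x ^ p ≤ x := pow_le_of_le_one hx0.le hxd (by omega)
    rw [le_div_iff₀ (by positivity)] at hxe
    calc 2 * ρ = 2 * A * x ^ p := by rw [hρ]; ring
      _ ≤ 2 * A * x := mul_le_mul_of_nonneg_left h1 (by positivity)
      _ ≤ ρ₁ := by linarith
  rw [← hρ]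
  -- the Green's function on the disc of radius `(1 + κ) ρ`
  have hgu : ∀ z₀ : ℂ, 1 < ‖z₀‖ → ‖ψ z₀ - Cc d a 0‖ ≤ (1 + κ) * ρ →
      Real.log ‖z₀‖ ≤ C₁ * Real.exp (-(T * ((1 - κ) ^ 2 / (1 + κ)))) := by
    intro z₀ hz₀ hz
    obtain ⟨ε, hε, hεc⟩ := hsurj (ψ z₀) (nl1 hκ1 hρ0 hρle hz)
    have h1 := (hpar ε hε).1
    rw [hεc] at h1
    have h2 : ‖ε‖ ^ p ≤ (1 + κ) / (1 - κ) * x ^ p := by
      have h3 := h1.trans hz
      rw [hρ] at h3
      rw [div_mul_eq_mul_div, le_div_iff₀ hκm]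
      have h4 : A * (‖ε‖ ^ p * (1 - κ)) ≤ A * ((1 + κ) * x ^ p) := by linarith
      exact le_of_mul_le_mul_left h4 hA
    have h3 : ‖ε‖ ≤ (1 + κ) / (1 - κ) * x := pow_cmp hp1 hx0.le (by
      rw [le_div_iff₀ hκm]; linarith) h2
    have h4 : (1 + κ) / (1 - κ) ≤ 2 := by rw [div_le_iff₀ hκm]; linarith
    have h5 := hsmall ((1 + κ) / (1 - κ) * x) (by positivity)
      (nl2 h4 hx0 hxa) ε h3 z₀ hz₀ hεc.symm
    refine h5.trans (le_of_eq ?_)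
    congr 3
    rw [hT]
    field_simp
  -- the Green's function on the disc of radius `ρ / 4`
  have hgl : ∀ z₀ : ℂ, 1 < ‖z₀‖ → ‖ψ z₀ - Cc d a 0‖ ≤ ρ / 4 →
      Real.log ‖z₀‖ ≤ C₁ * Real.exp (-(T * (2 * (1 - κ) ^ 2))) := by
    intro z₀ hz₀ hz
    obtain ⟨ε, hε, hεc⟩ := hsurj (ψ z₀) (by linarith)
    have h1 := (hpar ε hε).1
    rw [hεc] at h1
    have h2 : ‖ε‖ ^ p ≤ 1 / (1 - κ) / 4 * x ^ p := by
      have h3 := h1.trans hz
      rw [hρ] at h3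
      rw [div_div, div_mul_eq_mul_div, le_div_iff₀ (by positivity)]
      have h4 : A * (‖ε‖ ^ p * ((1 - κ) * 4)) ≤ A * (1 * x ^ p) := by linarith
      exact le_of_mul_le_mul_left h4 hA
    have h3 : ‖ε‖ ≤ 1 / (1 - κ) / 2 * x := pow_cmp2 hp1 hp2 hx0.le (by
      rw [le_div_iff₀ hκm]; linarith) h2
    have h4 : 1 / (1 - κ) ≤ 2 := by rw [div_le_iff₀ hκm]; linarith
    have h5 := hsmall (1 / (1 - κ) / 2 * x) (by positivity)
      (nl3 h4 hx0 hxa) ε h3 z₀ hz₀ hεc.symm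
    refine h5.trans (le_of_eq ?_)
    congr 3
    rw [hT]
    field_simp
  -- a point where the Green's function is large
  obtain ⟨ε₁, hε₁, z₁, hz₁, hz₁c, hz₁l⟩ := hbig ((1 - κ) / (1 + κ) * x) (by positivity) (by
    have h4 : (1 - κ) / (1 + κ) ≤ 1 := by rw [div_le_iff₀ (by linarith)]; linarith
    exact nl4 h4 hx0 hxb)
  have hk3 : (1 - κ) / (1 + κ) ≤ 1 := by rw [div_le_iff₀ (by linarith)]; linarith
  have hz₁l' : Real.log 2 * Real.exp (-(T * ((1 + κ) ^ 2 / (1 - κ)))) ≤ Real.log ‖z₁‖ := by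
    refine le_trans (le_of_eq ?_) hz₁l
    congr 3
    rw [hT]
    field_simp
  have hb : ‖ψ z₁ - Cc d a 0‖ ≤ (1 - κ) * ρ := by
    rw [hz₁c]
    have h1 := (hpar ε₁ (hε₁.trans (nl4 hk3 hx0 hxc))).2
    have h2 : ‖ε₁‖ ^ p ≤ (1 - κ) / (1 + κ) * x ^ p :=
      pow_cmp3 hp1 (norm_nonneg _) hx0.le (by positivity) hk3 hε₁
    refine h1.trans ?_
    calc (1 + κ) * (A * ‖ε₁‖ ^ p) ≤ (1 + κ) * (A * ((1 - κ) / (1 + κ) * x ^ p)) := by gcongr
      _ = (1 - κ) * ρ := by rw [hρ]; field_simp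
  obtain ⟨Y, hY⟩ : ∃ Y, Y = Real.log 2 * Real.exp (-(T * ((1 + κ) ^ 2 / (1 - κ)))) := ⟨_, rfl⟩
  rw [← hY] at hz₁l'
  have hY0 : 0 < Y := by rw [hY]; positivity
  refine ⟨Real.exp (Y / 4), Real.one_lt_exp_iff.2 (by positivity), fun r hr hr₀ => ⟨?_, ?_⟩⟩
  · -- lower bound
    have hlr : Real.log r < Y / 4 := by
      rw [Real.log_lt_iff_lt_exp (by linarith)]; exact hr₀
    have hrz : r < ‖z₁‖ := by
      have h1 : Real.log r < Real.log ‖z₁‖ := by linarith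
      exact (Real.log_lt_log_iff (by linarith) (by linarith)).1 h1
    obtain ⟨m, hm⟩ : ∃ m, m = mu.real {θ : ℝ | ‖ψ (circleMap 0 r θ) - Cc d a 0‖ < ρ} := ⟨_, rfl⟩
    have hm0 : 0 ≤ m := by rw [hm]; exact measureReal_nonneg
    obtain ⟨b, hbe⟩ : ∃ b, b = ‖ψ z₁ - Cc d a 0‖ := ⟨_, rfl⟩
    have hb0 : 0 ≤ b := by rw [hbe]; exact norm_nonneg _
    rw [← hbe] at hb
    have hbρ : b < ρ := nl5 hκ0 hρ0 hb
    have h1 := measure_lower hd hψ hc₀ hr hrz (σ := ρ) (σ₁ := ρ / 4) (by rw [← hbe]; exact hbρ)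
      (by positivity) (by linarith) (L := C₁ * Real.exp (-(T * (2 * (1 - κ) ^ 2))))
      (by positivity) hgl
    rw [← hbe, ← hm] at h1
    have h2 : (ρ + b) / (ρ - b) ≤ 2 / κ := by
      rw [div_le_div_iff₀ (by linarith) hκ0]
      exact nl6 hκ0 hρ0 hb
    have h3 : ρ / (ρ / 4) = 4 := by field_simp
    have h4 : Real.log 4 = 2 * Real.log 2 := by
      rw [show (4 : ℝ) = 2 ^ 2 by norm_num, Real.log_pow]; norm_num
    rw [h3, h4] at h1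
    obtain ⟨L₁, hL₁⟩ : ∃ L₁, L₁ = C₁ * Real.exp (-(T * (2 * (1 - κ) ^ 2))) := ⟨_, rfl⟩
    rw [← hL₁] at h1
    have hL₁0 : 0 < L₁ := by rw [hL₁]; positivity
    have h5 : (ρ + b) / (ρ - b) * (m * (2 * Real.log 2) + 2 * π * L₁) ≤
        2 / κ * (m * (2 * Real.log 2) + 2 * π * L₁) :=
      mul_le_mul_of_nonneg_right h2 (by positivity)
    have h6 : 3 / 4 * Y * (2 * π) ≤ 2 / κ * (m * (2 * Real.log 2) + 2 * π * L₁) := by
      refine le_trans ?_ (h1.trans h5)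
      apply mul_le_mul_of_nonneg_right _ (by positivity)
      linarith
    -- the error term
    have h7 : 2 / κ * L₁ ≤ Y / 4 := by
      have h8 : 8 * C₁ / (κ * Real.log 2) ≤ Real.exp (T * (1 / 4)) := by
        have h9 : 8 * C₁ / (κ * Real.log 2) ≤ M := by linarith
        exact (h9.trans hTM).trans (Real.exp_le_exp.2 (nl7 hTp hη1))
      have h9 : Real.exp (T * (1 / 4)) * Real.exp (-(T * (2 * (1 - κ) ^ 2))) ≤
          Real.exp (-(T * ((1 + κ) ^ 2 / (1 - κ)))) := by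
        rw [← Real.exp_add]
        apply Real.exp_le_exp.2
        have h10 := mul_le_mul_of_nonneg_left (num_c hκ0 hκ1) hTp.le
        linarith
      rw [hL₁, hY]
      rw [div_le_iff₀ (by positivity)] at h8
      have h11 : 2 / κ * (C₁ * Real.exp (-(T * (2 * (1 - κ) ^ 2)))) =
          8 * C₁ * Real.exp (-(T * (2 * (1 - κ) ^ 2))) / (4 * κ) := by field_simp; ring
      rw [h11, div_le_iff₀ (by positivity)]
      calc 8 * C₁ * Real.exp (-(T * (2 * (1 - κ) ^ 2))) ≤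
          Real.exp (T * (1 / 4)) * (κ * Real.log 2) * Real.exp (-(T * (2 * (1 - κ) ^ 2))) :=
            mul_le_mul_of_nonneg_right h8 (Real.exp_pos _).le
        _ = κ * Real.log 2 * (Real.exp (T * (1 / 4)) * Real.exp (-(T * (2 * (1 - κ) ^ 2)))) := by
            ring
        _ ≤ κ * Real.log 2 * Real.exp (-(T * ((1 + κ) ^ 2 / (1 - κ)))) :=
            mul_le_mul_of_nonneg_left h9 (by positivity)
        _ = _ := by ring
    have h8 : κ * Y / (8 * Real.log 2) ≤ m / (2 * π) := by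
      rw [div_le_div_iff₀ (by positivity) (by positivity)]
      have h9 : 2 / κ * (m * (2 * Real.log 2) + 2 * π * L₁) =
          2 / κ * (m * (2 * Real.log 2)) + 2 / κ * L₁ * (2 * π) := by ring
      have h10 : 2 / κ * L₁ * (2 * π) ≤ Y / 4 * (2 * π) :=
        mul_le_mul_of_nonneg_right h7 (by positivity)
      have h11 : Y / 2 * (2 * π) ≤ 2 / κ * (m * (2 * Real.log 2)) := by linarith
      have h12 := mul_le_mul_of_nonneg_left h11 (show 0 ≤ 2 * κ by positivity)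
      have h13 : 2 * κ * (2 / κ * (m * (2 * Real.log 2))) = m * (8 * Real.log 2) := by
        field_simp; ring
      linarith
    rw [← hm]
    refine le_trans ?_ h8
    have h9 : κ * Y / (8 * Real.log 2) =
        κ / 8 * Real.exp (-(T * ((1 + κ) ^ 2 / (1 - κ)))) := by
      rw [hY]; field_simp
    rw [h9]
    have h10 : 8 / κ ≤ Real.exp (T * (η / 4)) := by linarith
    have h11 : Real.exp (-((1 + η) * T)) * Real.exp (T * (η / 4)) ≤
        Real.exp (-(T * ((1 + κ) ^ 2 / (1 - κ)))) := by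
      rw [← Real.exp_add]
      apply Real.exp_le_exp.2
      have h12 := mul_le_mul_of_nonneg_left (num_b hκ0 hκ1) hTp.le
      have h13 : 0 ≤ T * (η * (3 / 4) - 5 * κ) := by
        apply mul_nonneg hTp.le
        rw [hκ]; linarith
      linarith
    rw [div_le_iff₀ hκ0] at h10
    calc Real.exp (-((1 + η) * T)) = Real.exp (-((1 + η) * T)) * 8 / 8 := by ring
      _ ≤ Real.exp (-((1 + η) * T)) * (Real.exp (T * (η / 4)) * κ) / 8 := by gcongr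
      _ = κ / 8 * (Real.exp (-((1 + η) * T)) * Real.exp (T * (η / 4))) := by ring
      _ ≤ κ / 8 * Real.exp (-(T * ((1 + κ) ^ 2 / (1 - κ)))) :=
          mul_le_mul_of_nonneg_left h11 (by positivity)
  · -- upper bound
    have h1 := measure_upper hd hψ hc₀ hr (ρ := ρ) (σ := (1 + κ) * ρ)
      (L := C₁ * Real.exp (-(T * ((1 - κ) ^ 2 / (1 + κ))))) (by positivity) hρ0 (nl8 hκ0 hρ0) hgu
    have h2 : (1 + κ) * ρ / ρ = 1 + κ := by field_simp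
    rw [h2] at h1
    obtain ⟨m, hm⟩ : ∃ m, m = mu.real {θ : ℝ | ‖ψ (circleMap 0 r θ) - Cc d a 0‖ < ρ} := ⟨_, rfl⟩
    rw [← hm] at h1 ⊢
    rw [div_le_iff₀ (by positivity)]
    have h3 : m ≤ 2 * π * (C₁ * Real.exp (-(T * ((1 - κ) ^ 2 / (1 + κ))))) / Real.log (1 + κ) := by
      rw [le_div_iff₀ hlk]; exact h1
    refine h3.trans ?_
    have h4 : C₁ / Real.log (1 + κ) ≤ Real.exp (T * (η / 4)) := by linarith
    have h5 : Real.exp (T * (η / 4)) * Real.exp (-(T * ((1 - κ) ^ 2 / (1 + κ)))) ≤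
        Real.exp (-((1 - η) * T)) := by
      rw [← Real.exp_add]
      apply Real.exp_le_exp.2
      have h6 := mul_le_mul_of_nonneg_left (num_a hκ0 hκ1) hTp.le
      have h7 : 0 ≤ T * (η * (3 / 4) - 3 * κ) := by
        apply mul_nonneg hTp.le
        rw [hκ]; linarith
      linarith
    calc 2 * π * (C₁ * Real.exp (-(T * ((1 - κ) ^ 2 / (1 + κ))))) / Real.log (1 + κ)
        = 2 * π * (C₁ / Real.log (1 + κ) * Real.exp (-(T * ((1 - κ) ^ 2 / (1 + κ))))) := by ring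
      _ ≤ 2 * π * (Real.exp (T * (η / 4)) * Real.exp (-(T * ((1 - κ) ^ 2 / (1 + κ))))) := by
          gcongr
      _ ≤ 2 * π * Real.exp (-((1 - η) * T)) := mul_le_mul_of_nonneg_left h5 (by positivity)
      _ = _ := by ring

theorem set_eq {r : ℝ} (hr : 1 < r) (c₀ : ℂ) (ρ : ℝ) :
    (volume {θ ∈ Ioc 0 (2 * π) | ‖ψ (r * Complex.exp (θ * I)) - c₀‖ < ρ}).toReal =
      mu.real {θ : ℝ | ‖ψ (circleMap 0 r θ) - c₀‖ < ρ} := by
  unfold Pool.Agent.H13MD.mu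
  rw [measureReal_restrict_apply (set_meas hψ hr c₀ ρ)]
  unfold Measure.real
  congr 2
  ext θ
  simp only [circleMap, zero_add, Set.mem_setOf_eq, Set.mem_inter_iff]
  tauto

/-- **rational boundary points different from the cusps** -/
theorem main_one (hq2 : 2 ≤ q) {η : ℝ} (hη : 0 < η) (hη1 : η < 1) :
    ∃ ρ₀ : ℝ, 0 < ρ₀ ∧ ∀ ρ ∈ Ioo 0 ρ₀, ∃ r₀ : ℝ, 1 < r₀ ∧ ∀ r ∈ Ioo 1 r₀,
      Real.exp (-((1 + η) * (2 * π * Real.log d * ‖a‖ * ‖1 - d * a ^ (d - 1)‖ /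
          (q * (d - 1) * ρ)))) ≤
        (volume {θ ∈ Ioc 0 (2 * π) |
          ‖ψ (r * Complex.exp (θ * I)) - (a - a ^ d)‖ < ρ}).toReal / (2 * π) ∧
      (volume {θ ∈ Ioc 0 (2 * π) |
          ‖ψ (r * Complex.exp (θ * I)) - (a - a ^ d)‖ < ρ}).toReal / (2 * π) ≤
        Real.exp (-((1 - η) * (2 * π * Real.log d * ‖a‖ * ‖1 - d * a ^ (d - 1)‖ /
          (q * (d - 1) * ρ)))) := by
  obtain ⟨-, ha⟩ := norm_le_one_of_mult hd hq h
  have hl : (d : ℂ) * a ^ (d - 1) ≠ 1 := by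
    intro h1
    rw [h1] at h
    have := h.eq_orderOf
    rw [orderOf_one] at this
    omega
  have hd2 : (2 : ℝ) ≤ d := by exact_mod_cast hd
  have hq0 : (0 : ℝ) < q := by exact_mod_cast hq
  obtain ⟨A, hA⟩ : ∃ A, A = ‖a‖ * ‖1 - d * a ^ (d - 1)‖ / (d - 1) := ⟨_, rfl⟩
  have hP := par_one hd ha hl
  rw [← hA] at hP
  have hA0 := hP.1
  obtain ⟨X₀, hX₀, hX⟩ := core hd hψ hq h hP hη hη1
  refine ⟨A * X₀, by positivity, fun ρ hρ => ?_⟩
  have hρ0 : 0 < ρ := hρ.1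
  obtain ⟨r₀, hr₀, hr⟩ := hX (ρ / A) (by positivity) (by
    rw [div_lt_iff₀ hA0]; linarith [hρ.2])
  refine ⟨r₀, hr₀, fun r hr1 => ?_⟩
  have h1 := hr r hr1.1 hr1.2
  have h2 : A * (ρ / A) ^ 1 = ρ := by rw [pow_one]; field_simp
  have h3 : 2 * π * Real.log d / (q * (ρ / A)) =
      2 * π * Real.log d * ‖a‖ * ‖1 - d * a ^ (d - 1)‖ / (q * (d - 1) * ρ) := by
    have hd1 : (d : ℝ) - 1 ≠ 0 := by linarith
    rw [hA]
    field_simp
  rw [h2, h3, Cc_zero] at h1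
  rw [set_eq hd hψ hq h hr1.1]
  exact h1

end

section

variable {d : ℕ} (hd : 2 ≤ d) {ψ : ℂ → ℂ} (hψ : IsExteriorMap (multibrotSet d) ψ)
include hd hψ

/-- **the cusps** -/
theorem main_two {a : ℂ} (hl : (d : ℂ) * a ^ (d - 1) = 1) {η : ℝ} (hη : 0 < η) (hη1 : η < 1) :
    ∃ ρ₀ : ℝ, 0 < ρ₀ ∧ ∀ ρ ∈ Ioo 0 ρ₀, ∃ r₀ : ℝ, 1 < r₀ ∧ ∀ r ∈ Ioo 1 r₀,
      Real.exp (-((1 + η) * (π * Real.log d * √(2 * ‖a‖ / ((d - 1) * ρ))))) ≤
        (volume {θ ∈ Ioc 0 (2 * π) |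
          ‖ψ (r * Complex.exp (θ * I)) - (a - a ^ d)‖ < ρ}).toReal / (2 * π) ∧
      (volume {θ ∈ Ioc 0 (2 * π) |
          ‖ψ (r * Complex.exp (θ * I)) - (a - a ^ d)‖ < ρ}).toReal / (2 * π) ≤
        Real.exp (-((1 - η) * (π * Real.log d * √(2 * ‖a‖ / ((d - 1) * ρ))))) := by
  have h : IsPrimitiveRoot ((d : ℂ) * a ^ (d - 1)) 1 := by rw [hl]; exact IsPrimitiveRoot.one
  obtain ⟨-, ha⟩ := norm_le_one_of_mult hd one_pos h
  have ha' : 0 < ‖a‖ := norm_pos_iff.2 ha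
  have hd2 : (2 : ℝ) ≤ d := by exact_mod_cast hd
  have hd1 : (0 : ℝ) < (d : ℝ) - 1 := by linarith
  obtain ⟨A, hA⟩ : ∃ A, A = ‖a‖ / (2 * (d - 1)) := ⟨_, rfl⟩
  have hP := par_two hd ha hl
  rw [← hA] at hP
  have hA0 := hP.1
  obtain ⟨X₀, hX₀, hX⟩ := core hd hψ one_pos h hP hη hη1
  refine ⟨A * X₀ ^ 2, by positivity, fun ρ hρ => ?_⟩
  have hρ0 : 0 < ρ := hρ.1
  have hs : (√(ρ / A)) ^ 2 = ρ / A := Real.sq_sqrt (by positivity)
  have hs0 : 0 < √(ρ / A) := Real.sqrt_pos.2 (by positivity)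
  obtain ⟨r₀, hr₀, hr⟩ := hX (√(ρ / A)) hs0 (by
    rw [Real.sqrt_lt' hX₀, div_lt_iff₀ hA0]; linarith [hρ.2])
  refine ⟨r₀, hr₀, fun r hr1 => ?_⟩
  have h1 := hr r hr1.1 hr1.2
  have h2 : A * (√(ρ / A)) ^ 2 = ρ := by rw [hs]; field_simp
  have h3 : 2 * π * Real.log d / ((1 : ℕ) * √(ρ / A)) =
      π * Real.log d * √(2 * ‖a‖ / ((d - 1) * ρ)) := by
    have h4 : √(2 * ‖a‖ / ((d - 1) * ρ)) = 2 / √(ρ / A) := by
      rw [Real.sqrt_eq_iff_mul_self_eq (by positivity) (by positivity)]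
      rw [div_mul_div_comm, ← pow_two, ← pow_two, hs, hA]
      field_simp
    rw [h4]
    push_cast
    field_simp
  rw [h2, h3, Cc_zero] at h1
  rw [set_eq hd hψ one_pos h hr1.1]
  exact h1

end

/-- all rational points of the boundary of the main component -/
theorem rational_main (d : ℕ) (hd : 2 ≤ d) :
    (∃ ψ : ℂ → ℂ, IsExteriorMap (multibrotSet d) ψ) ∧
    (∀ q : ℕ, 1 ≤ q → ∃ a : ℂ, IsPrimitiveRoot ((d : ℂ) * a ^ (d - 1)) q) ∧
    ∀ ψ : ℂ → ℂ, IsExteriorMap (multibrotSet d) ψ → ∀ (q : ℕ) (a : ℂ), 1 ≤ q →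
      IsPrimitiveRoot ((d : ℂ) * a ^ (d - 1)) q → ∀ T : ℝ → ℝ,
      (T = if q = 1 then fun ρ => π * Real.log d * √(2 * ‖a‖ / ((d - 1) * ρ)) else
        fun ρ => 2 * π * Real.log d * ‖a‖ * ‖1 - d * a ^ (d - 1)‖ / (q * (d - 1) * ρ)) →
      ∀ η ∈ Ioo (0 : ℝ) 1, ∃ ρ₀ : ℝ, 0 < ρ₀ ∧ ∀ ρ ∈ Ioo 0 ρ₀, ∃ r₀ : ℝ, 1 < r₀ ∧
        ∀ r ∈ Ioo 1 r₀,
          Real.exp (-((1 + η) * T ρ)) ≤ (volume {θ ∈ Ioc 0 (2 * π) |
            ‖ψ (r * Complex.exp (θ * I)) - (a - a ^ d)‖ < ρ}).toReal / (2 * π) ∧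
          (volume {θ ∈ Ioc 0 (2 * π) |
            ‖ψ (r * Complex.exp (θ * I)) - (a - a ^ d)‖ < ρ}).toReal / (2 * π) ≤
            Real.exp (-((1 - η) * T ρ)) := by
  obtain ⟨β, hβ⟩ := exists_beta (d := d) hd
  refine ⟨⟨_, exteriorMap_of_beta hβ⟩, ?_, ?_⟩
  · intro q hq
    have hd0 : (d : ℂ) ≠ 0 := Nat.cast_ne_zero.2 (by omega)
    have h1 := Complex.isPrimitiveRoot_exp q (by omega)
    obtain ⟨a, ha⟩ := IsAlgClosed.exists_pow_nat_eq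
      (Complex.exp (2 * π * I / q) / (d : ℂ)) (show 0 < d - 1 by omega)
    refine ⟨a, ?_⟩
    rw [ha, mul_div_cancel₀ _ hd0]
    exact h1
  · intro ψ hψ q a hq h T hT η hη
    rcases eq_or_ne q 1 with hq1 | hq1
    · rw [if_pos hq1] at hT
      subst hq1
      rw [IsPrimitiveRoot.one_right_iff] at h
      rw [hT]
      exact main_two hd hψ h hη.1 hη.2
    · rw [if_neg hq1] at hT
      rw [hT]
      exact main_one hd hψ (by omega) h (by omega) hη.1 hη.2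

theorem norm_one_sub_exp (p q : ℕ) (hp : 1 ≤ p) (hpq : p < q) :
    ‖1 - Complex.exp (2 * π * I * (p / q))‖ = 2 * Real.sin (π * p / q) := by
  have h1 : 2 * (π : ℂ) * I * (p / q) = I * ((2 * (π * p / q) : ℝ) : ℂ) := by push_cast; ring
  have hq0 : (0 : ℝ) < q := by exact_mod_cast (show 0 < q by omega)
  have hp0 : (0 : ℝ) < p := by exact_mod_cast (show 0 < p by omega)
  have hpq' : (p : ℝ) < q := by exact_mod_cast hpq
  have hpi := Real.pi_pos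
  rw [h1, norm_sub_rev, Complex.norm_exp_I_mul_ofReal_sub_one, Real.norm_eq_abs,
    show 2 * (π * p / q) / 2 = π * p / q by ring, abs_of_nonneg]
  apply mul_nonneg (by norm_num)
  apply Real.sin_nonneg_of_nonneg_of_le_pi (by positivity)
  rw [div_le_iff₀ hq0]
  exact mul_le_mul_of_nonneg_left hpq'.le hpi.le

/-- the rational points `≠ 1 / 4` of the boundary of the main cardioid -/
theorem cardioid_main :
    (∃ ψ : ℂ → ℂ, IsExteriorMap mandelbrotSet ψ) ∧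
    ∀ ψ : ℂ → ℂ, IsExteriorMap mandelbrotSet ψ →
      ∀ (p q : ℕ) (lam : ℂ), 1 ≤ p → p < q → p.Coprime q →
      lam = Complex.exp (2 * π * I * (p / q)) →
      ∀ η ∈ Ioo (0 : ℝ) 1, ∃ ρ₀ : ℝ, 0 < ρ₀ ∧ ∀ ρ ∈ Ioo 0 ρ₀, ∃ r₀ : ℝ, 1 < r₀ ∧
        ∀ r ∈ Ioo 1 r₀,
          Real.exp (-((1 + η) * (2 * π * Real.log 2 * Real.sin (π * p / q) / (q * ρ)))) ≤
            (volume {θ ∈ Ioc 0 (2 * π) |
              ‖ψ (r * Complex.exp (θ * I)) - (lam / 2 - lam ^ 2 / 4)‖ < ρ}).toReal / (2 * π) ∧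
          (volume {θ ∈ Ioc 0 (2 * π) |
              ‖ψ (r * Complex.exp (θ * I)) - (lam / 2 - lam ^ 2 / 4)‖ < ρ}).toReal / (2 * π) ≤
            Real.exp (-((1 - η) * (2 * π * Real.log 2 * Real.sin (π * p / q) / (q * ρ)))) := by
  obtain ⟨β, hβ⟩ := exists_beta (d := 2) le_rfl
  refine ⟨⟨_, exteriorMap_of_beta hβ⟩, ?_⟩
  intro ψ hψ p q lam hp hpq hco hlam η hη
  have h1 : IsPrimitiveRoot lam q := by
    rw [hlam]
    exact Complex.isPrimitiveRoot_exp_of_coprime p q (by omega) hco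
  have h2 : ((2 : ℕ) : ℂ) * (lam / 2) ^ (2 - 1) = lam := by
    norm_num
    ring
  have h3 := main_one (d := 2) le_rfl hψ (a := lam / 2) (q := q) (by omega) (by rw [h2]; exact h1)
    (by omega) hη.1 hη.2
  have h4 : ‖lam‖ = 1 := by
    rw [hlam, show 2 * (π : ℂ) * I * (p / q) = ((2 * π * (p / q) : ℝ) : ℂ) * I by push_cast; ring]
    exact Complex.norm_exp_ofReal_mul_I _
  have h5 : ‖1 - lam‖ = 2 * Real.sin (π * p / q) := by
    rw [hlam]; exact norm_one_sub_exp p q hp hpq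
  have h6 : ∀ ρ : ℝ, 2 * π * Real.log (2 : ℕ) * ‖lam / 2‖ * ‖1 - ((2 : ℕ) : ℂ) * (lam / 2) ^ (2 - 1)‖ /
      (q * ((2 : ℕ) - 1) * ρ) = 2 * π * Real.log 2 * Real.sin (π * p / q) / (q * ρ) := by
    intro ρ
    rw [h2, norm_div, h4, h5, Complex.norm_ofNat]
    push_cast
    ring_nf
  have h7 : lam / 2 - (lam / 2) ^ 2 = lam / 2 - lam ^ 2 / 4 := by ring
  simp only [h6, h7] at h3
  exact h3

end Pool.Agent.H13RP
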