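import Pool.Agent.H13RP.Poi
import Pool.Agent.H13MU.Hms

set_option autoImplicit false

/-! # Harmonic measure of small discs at an arbitrary point of a Multibrot set -/

namespace Pool.Agent.H13RP

open Complex Metric Set Filter Topology Bornology Pool.Agent.H712R2
  Pool.Agent.H713R2 N62a1eb23 Real MeasureTheory Pool.Agent.H13MU
open Pool.Agent.H13MD (mu mu_univ avg_eq int_const_mu fubini_log int_outer int_cont int_prod)

variable {d : ℕ} (hd : 2 ≤ d) {ψ : ℂ → ℂ} (hψ : IsExteriorMap (multibrotSet d) ψ)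
include hd hψ

variable {c₀ : ℂ} (hc₀ : c₀ ∈ multibrotSet d)
include hc₀

theorem sub_ne {r : ℝ} (hr : 1 < r) (θ : ℝ) : ψ (circleMap 0 r θ) - c₀ ≠ 0 := by
  intro h
  have h1 := psi_notMem hψ (z := circleMap 0 r θ) (by
    rw [norm_circleMap_zero, abs_of_pos (by linarith)]; exact hr)
  rw [sub_eq_zero.1 h] at h1
  exact h1 hc₀

/-- the mean of the positive part -/
theorem mean_eq {r : ℝ} (hr : 1 < r) {σ : ℝ} (hσ : 0 < σ) :
    2 * π * ∫ θ, max (Real.log σ - Real.log ‖ψ (circleMap 0 r θ) - c₀‖) 0 ∂mu =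
      ∫ φ, (∫ θ, Real.log ‖ψ (circleMap 0 r θ) - (c₀ + circleMap 0 σ φ)‖ ∂mu) ∂mu -
        (2 * π) ^ 2 * Real.log r := by
  have hc := psi_circle_cont hψ hr
  have ha : Continuous fun θ : ℝ => ψ (circleMap 0 r θ) - c₀ := hc.sub continuous_const
  have hne : ∀ θ : ℝ, ψ (circleMap 0 r θ) - c₀ ≠ 0 := fun θ => sub_ne hd hψ hc₀ hr θ
  have h1 := fubini_log ha hσ
  have h2 : ∀ φ θ : ℝ, ψ (circleMap 0 r θ) - c₀ - circleMap 0 σ φ =
      ψ (circleMap 0 r θ) - (c₀ + circleMap 0 σ φ) := by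
    intro φ θ; ring
  simp only [h2] at h1
  rw [← h1]
  have h3 : ∀ θ : ℝ, max (Real.log σ - Real.log ‖ψ (circleMap 0 r θ) - c₀‖) 0 =
      (Real.log σ + Real.posLog (σ⁻¹ * ‖ψ (circleMap 0 r θ) - c₀‖)) -
        Real.log ‖ψ (circleMap 0 r θ) - c₀‖ := by
    intro θ
    have hn : 0 < ‖ψ (circleMap 0 r θ) - c₀‖ := norm_pos_iff.2 (hne θ)
    rw [Real.posLog, Real.log_mul (by positivity) hn.ne', Real.log_inv]
    rcases le_total (Real.log σ) (Real.log ‖ψ (circleMap 0 r θ) - c₀‖) with h4 | h4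
    · rw [max_eq_right (by linarith), max_eq_right (by linarith)]
      ring
    · rw [max_eq_left (by linarith), max_eq_left (by linarith)]
      ring
  simp only [h3]
  have hI1 : Continuous fun θ : ℝ => Real.log ‖ψ (circleMap 0 r θ) - c₀‖ :=
    ha.norm.log (fun θ => norm_ne_zero_iff.2 (hne θ))
  have hI2 : Continuous fun θ : ℝ =>
      Real.log σ + Real.posLog (σ⁻¹ * ‖ψ (circleMap 0 r θ) - c₀‖) := by
    have := Real.continuous_posLog
    have h5 := ha.norm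
    exact continuous_const.add (this.comp (continuous_const.mul h5))
  rw [integral_sub (int_cont _ hI2) (int_cont _ hI1)]
  have h5 := avg_eq (fun z => Real.log ‖ψ z - c₀‖) r
  rw [jensen_mem hd hψ hc₀ hr] at h5
  rw [h5]
  ring

theorem W_cont {r : ℝ} (hr : 1 < r) (σ : ℝ) :
    Continuous fun θ : ℝ => max (Real.log σ - Real.log ‖ψ (circleMap 0 r θ) - c₀‖) 0 := by
  have ha : Continuous fun θ : ℝ => ψ (circleMap 0 r θ) - c₀ :=
    (psi_circle_cont hψ hr).sub continuous_const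
  exact (continuous_const.sub (ha.norm.log fun θ =>
    norm_ne_zero_iff.2 (sub_ne hd hψ hc₀ hr θ))).max continuous_const

theorem W_upper {r L σ : ℝ} (hr : 1 < r) (hL : 0 ≤ L) (hσ : 0 < σ)
    (hg : ∀ z₀ : ℂ, 1 < ‖z₀‖ → ‖ψ z₀ - c₀‖ ≤ σ → Real.log ‖z₀‖ ≤ L) :
    ∫ θ, max (Real.log σ - Real.log ‖ψ (circleMap 0 r θ) - c₀‖) 0 ∂mu ≤ 2 * π * L := by
  have h1 := mean_eq hd hψ hc₀ hr hσ
  have hlr : 0 < Real.log r := Real.log_pos hr
  have h2 : ∫ φ, (∫ θ, Real.log ‖ψ (circleMap 0 r θ) - (c₀ + circleMap 0 σ φ)‖ ∂mu) ∂mu ≤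
      ∫ _, 2 * π * (Real.log r + L) ∂mu := by
    apply integral_mono_of_nonneg
    · filter_upwards with φ
      rcases inner_eq hd hψ hr (c₀ + circleMap 0 σ φ) with ⟨-, h⟩ | ⟨z₀, -, -, h⟩
      · rw [h]
        simp only [Pi.zero_apply]
        positivity
      · rw [h]
        simp only [Pi.zero_apply]
        have := le_max_left (Real.log r) (Real.log ‖z₀‖)
        have h3 : 0 ≤ max (Real.log r) (Real.log ‖z₀‖) := by linarith
        positivity
    · exact integrable_const _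
    · filter_upwards with φ
      rcases inner_eq hd hψ hr (c₀ + circleMap 0 σ φ) with ⟨-, h⟩ | ⟨z₀, hz₀, hz, h⟩
      · rw [h]
        exact mul_le_mul_of_nonneg_left (by linarith) (by positivity)
      · rw [h]
        apply mul_le_mul_of_nonneg_left _ (by positivity)
        have h3 := hg z₀ hz₀ (by
          rw [hz, add_sub_cancel_left, norm_circleMap_zero, abs_of_pos hσ])
        exact max_le (by linarith) (by linarith)
  rw [int_const_mu] at h2
  have hpi := Real.pi_pos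
  have h3 : 2 * π * ∫ θ, max (Real.log σ - Real.log ‖ψ (circleMap 0 r θ) - c₀‖) 0 ∂mu ≤
      2 * π * (2 * π * L) := by
    rw [h1]
    linarith [h2]
  exact le_of_mul_le_mul_left h3 (by positivity)

omit hd hc₀ in
theorem set_meas {r : ℝ} (hr : 1 < r) (c₀ : ℂ) (ρ : ℝ) :
    MeasurableSet {θ : ℝ | ‖ψ (circleMap 0 r θ) - c₀‖ < ρ} := by
  have ha : Continuous fun θ : ℝ => ‖ψ (circleMap 0 r θ) - c₀‖ :=
    ((psi_circle_cont hψ hr).sub continuous_const).norm
  exact (isOpen_lt ha continuous_const).measurableSet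

/-- **upper bound** -/
theorem measure_upper {r L ρ σ : ℝ} (hr : 1 < r) (hL : 0 ≤ L) (hρ : 0 < ρ) (hρσ : ρ < σ)
    (hg : ∀ z₀ : ℂ, 1 < ‖z₀‖ → ‖ψ z₀ - c₀‖ ≤ σ → Real.log ‖z₀‖ ≤ L) :
    mu.real {θ : ℝ | ‖ψ (circleMap 0 r θ) - c₀‖ < ρ} * Real.log (σ / ρ) ≤ 2 * π * L := by
  have hσ : 0 < σ := hρ.trans hρσ
  refine le_trans ?_ (W_upper hd hψ hc₀ hr hL hσ hg)
  have h1 : ∫ θ, ({θ : ℝ | ‖ψ (circleMap 0 r θ) - c₀‖ < ρ}).indicator
      (fun _ => Real.log (σ / ρ)) θ ∂mu =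
      mu.real {θ : ℝ | ‖ψ (circleMap 0 r θ) - c₀‖ < ρ} * Real.log (σ / ρ) := by
    rw [integral_indicator_const _ (set_meas hψ hr c₀ ρ), smul_eq_mul]
  rw [← h1]
  apply integral_mono
  · exact (integrable_const _).indicator (set_meas hψ hr c₀ ρ)
  · exact int_cont _ (W_cont hd hψ hc₀ hr σ)
  · intro θ
    simp only [Set.indicator_apply, Set.mem_setOf_eq]
    split_ifs with h
    · refine le_trans ?_ (le_max_left _ _)
      rw [Real.log_div hσ.ne' hρ.ne']
      have := Real.log_le_log (norm_pos_iff.2 (sub_ne hd hψ hc₀ hr θ)) h.le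
      linarith
    · exact le_max_right _ _

/-- **Harnack's inequality** -/
theorem harnack {r σ : ℝ} {z₁ : ℂ} (hr : 1 < r) (hz₁ : r < ‖z₁‖)
    (hσ : ‖ψ z₁ - c₀‖ < σ) :
    (Real.log ‖z₁‖ - Real.log r) * (2 * π) ≤ (σ + ‖ψ z₁ - c₀‖) / (σ - ‖ψ z₁ - c₀‖) *
      ∫ θ, max (Real.log σ - Real.log ‖ψ (circleMap 0 r θ) - c₀‖) 0 ∂mu := by
  obtain ⟨w, hw⟩ : ∃ w, w = ψ z₁ - c₀ := ⟨_, rfl⟩
  rw [← hw] at hσ ⊢
  have hσ0 : 0 < σ := (norm_nonneg _).trans_lt hσ
  have hwb : w ∈ ball (0 : ℂ) σ := by rwa [mem_ball_zero_iff]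
  have hpi := Real.pi_pos
  have hz₁1 : 1 < ‖z₁‖ := hr.trans hz₁
  have hlog := Real.log_le_log (by linarith) hz₁.le
  have hc := psi_circle_cont hψ hr
  have ha : Continuous fun θ : ℝ => ψ (circleMap 0 r θ) - c₀ := hc.sub continuous_const
  obtain ⟨A, hA⟩ : ∃ A : ℝ → ℂ, A = fun θ => ψ (circleMap 0 r θ) - c₀ := ⟨_, rfl⟩
  rw [← hA] at ha
  obtain ⟨Q, hQ⟩ : ∃ Q, Q = (σ + ‖w‖) / (σ - ‖w‖) := ⟨_, rfl⟩
  have hKc := KK_cont hwb
  have hKb : ∀ φ : ℝ, 0 ≤ KK w (circleMap 0 σ φ) ∧ KK w (circleMap 0 σ φ) ≤ Q := by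
    intro φ
    rw [hQ]
    exact KK_bounds hwb (by rw [mem_sphere_zero_iff_norm, norm_circleMap_zero, abs_of_pos hσ0])
  have hKint : ∫ φ, KK w (circleMap 0 σ φ) ∂mu = 2 * π := by
    rw [avg_eq (KK w) σ, KK_one hwb, mul_one]
  -- Fubini
  have hI := int_prod ha hσ0
  have hI2 : Integrable (fun p : ℝ × ℝ => KK w (circleMap 0 σ p.2) *
      Real.log ‖A p.1 - circleMap 0 σ p.2‖) (mu.prod mu) := by
    refine hI.bdd_mul (c := Q) ?_ ?_
    · exact (hKc.comp continuous_snd).aestronglyMeasurable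
    · filter_upwards with p
      rw [Real.norm_of_nonneg (hKb p.2).1]
      exact (hKb p.2).2
  have hsw := integral_integral_swap
    (f := fun θ φ => KK w (circleMap 0 σ φ) * Real.log ‖A θ - circleMap 0 σ φ‖) hI2
  -- the inner integral with respect to `φ`
  have hin : ∀ θ, 2 * π * Real.log ‖A θ - w‖ ≤
      ∫ φ, KK w (circleMap 0 σ φ) * Real.log ‖A θ - circleMap 0 σ φ‖ ∂mu := by
    intro θ
    have hne : w ≠ A θ := by
      intro h
      rw [hw, hA] at h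
      have h2 : ψ z₁ = ψ (circleMap 0 r θ) := by linear_combination h
      have hcn : ‖circleMap 0 r θ‖ = r := by
        rw [norm_circleMap_zero, abs_of_pos (by linarith)]
      have h3 := hψ.inj (show 1 < ‖z₁‖ from hz₁1) (show 1 < ‖circleMap 0 r θ‖ by rw [hcn]; exact hr) h2
      rw [h3, hcn] at hz₁
      exact lt_irrefl _ hz₁
    have h1 := poisson_log hwb hne
    have h2 := avg_eq (KK w * (Real.log ‖· - A θ‖)) σ
    have h3 : ∫ φ, KK w (circleMap 0 σ φ) * Real.log ‖A θ - circleMap 0 σ φ‖ ∂mu =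
        2 * π * circleAverage (KK w * (Real.log ‖· - A θ‖)) 0 σ := by
      rw [← h2]
      apply integral_congr_ae
      filter_upwards with φ
      rw [norm_sub_rev]
      rfl
    rw [h3, norm_sub_rev]
    exact mul_le_mul_of_nonneg_left h1 (by positivity)
  have hleft : 2 * π * (2 * π * Real.log ‖z₁‖) ≤
      ∫ θ, (∫ φ, KK w (circleMap 0 σ φ) * Real.log ‖A θ - circleMap 0 σ φ‖ ∂mu) ∂mu := by
    have h1 : ∫ θ, 2 * π * Real.log ‖A θ - w‖ ∂mu = 2 * π * (2 * π * Real.log ‖z₁‖) := by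
      rw [integral_const_mul]
      congr 1
      have h2 : ∀ θ, A θ - w = ψ (circleMap 0 r θ) - ψ z₁ := by
        intro θ
        rw [hA, hw]; ring
      simp only [h2]
      rw [avg_eq (fun z => Real.log ‖ψ z - ψ z₁‖) r, jensen_not hd hψ hz₁1 hr, max_eq_right hlog]
    rw [← h1]
    apply integral_mono _ _ hin
    · apply Integrable.const_mul
      apply int_cont
      refine Continuous.log (ha.sub continuous_const).norm (fun θ => ?_)
      rw [norm_ne_zero_iff, sub_ne_zero]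
      intro h
      rw [hw, hA] at h
      have h2 : ψ (circleMap 0 r θ) = ψ z₁ := by
        have h' : ψ (circleMap 0 r θ) - c₀ = ψ z₁ - c₀ := h
        linear_combination h'
      have hcn : ‖circleMap 0 r θ‖ = r := by
        rw [norm_circleMap_zero, abs_of_pos (by linarith)]
      have h3 := hψ.inj (show 1 < ‖circleMap 0 r θ‖ by rw [hcn]; exact hr) (show 1 < ‖z₁‖ from hz₁1) h2
      rw [← h3, hcn] at hz₁
      exact lt_irrefl _ hz₁
    · exact hI2.integral_prod_left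
  rw [hsw] at hleft
  -- the other order
  have hIo := int_outer ha hσ0
  have h4 : ∀ φ, ∫ θ, KK w (circleMap 0 σ φ) * Real.log ‖A θ - circleMap 0 σ φ‖ ∂mu ≤
      Q * (∫ θ, Real.log ‖A θ - circleMap 0 σ φ‖ ∂mu - 2 * π * Real.log r) +
        2 * π * Real.log r * KK w (circleMap 0 σ φ) := by
    intro φ
    rw [integral_const_mul]
    have h5 : 0 ≤ ∫ θ, Real.log ‖A θ - circleMap 0 σ φ‖ ∂mu - 2 * π * Real.log r := by
      have h6 : ∀ θ, A θ - circleMap 0 σ φ = ψ (circleMap 0 r θ) - (c₀ + circleMap 0 σ φ) := by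
        intro θ; rw [hA]; ring
      simp only [h6]
      rcases inner_eq hd hψ hr (c₀ + circleMap 0 σ φ) with ⟨-, h⟩ | ⟨z₀, -, -, h⟩
      · rw [h, sub_self]
      · rw [h]
        have := mul_le_mul_of_nonneg_left (le_max_left (Real.log r) (Real.log ‖z₀‖))
          (show 0 ≤ 2 * π by positivity)
        linarith
    have h7 := mul_le_mul_of_nonneg_right (hKb φ).2 h5
    have h8 : KK w (circleMap 0 σ φ) * ∫ θ, Real.log ‖A θ - circleMap 0 σ φ‖ ∂mu =
        KK w (circleMap 0 σ φ) *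
          (∫ θ, Real.log ‖A θ - circleMap 0 σ φ‖ ∂mu - 2 * π * Real.log r) +
        2 * π * Real.log r * KK w (circleMap 0 σ φ) := by ring
    rw [h8]
    linarith
  have h5 : ∫ φ, (∫ θ, KK w (circleMap 0 σ φ) * Real.log ‖A θ - circleMap 0 σ φ‖ ∂mu) ∂mu ≤
      ∫ φ, (Q * (∫ θ, Real.log ‖A θ - circleMap 0 σ φ‖ ∂mu - 2 * π * Real.log r) +
        2 * π * Real.log r * KK w (circleMap 0 σ φ)) ∂mu := by
    apply integral_mono _ _ h4
    · exact hI2.integral_prod_right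
    · exact ((hIo.sub (integrable_const _)).const_mul _).add ((int_cont _ hKc).const_mul _)
  have h6 : ∫ φ, (Q * (∫ θ, Real.log ‖A θ - circleMap 0 σ φ‖ ∂mu - 2 * π * Real.log r) +
        2 * π * Real.log r * KK w (circleMap 0 σ φ)) ∂mu =
      Q * (∫ φ, (∫ θ, Real.log ‖A θ - circleMap 0 σ φ‖ ∂mu) ∂mu -
        2 * π * (2 * π * Real.log r)) + 2 * π * Real.log r * (2 * π) := by
    have hJ : Integrable (fun φ => ∫ θ, Real.log ‖A θ - circleMap 0 σ φ‖ ∂mu -
        2 * π * Real.log r) mu := hIo.sub (integrable_const _)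
    rw [integral_add (hJ.const_mul _) ((int_cont _ hKc).const_mul _),
      integral_const_mul, integral_const_mul, hKint, integral_sub hIo (integrable_const _),
      int_const_mu]
  have h7 := mean_eq hd hψ hc₀ hr hσ0
  have h8 : ∫ φ, (∫ θ, Real.log ‖A θ - circleMap 0 σ φ‖ ∂mu) ∂mu =
      ∫ φ, (∫ θ, Real.log ‖ψ (circleMap 0 r θ) - (c₀ + circleMap 0 σ φ)‖ ∂mu) ∂mu := by
    congr 1
    funext φ
    congr 1
    funext θ
    rw [hA]
    congr 2
    ring
  rw [h8] at h6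
  rw [← hQ]
  have h9 : 2 * π * ((Real.log ‖z₁‖ - Real.log r) * (2 * π)) ≤
      2 * π * (Q * ∫ θ, max (Real.log σ - Real.log ‖ψ (circleMap 0 r θ) - c₀‖) 0 ∂mu) := by
    have e1 : 2 * π * (Q * ∫ θ, max (Real.log σ - Real.log ‖ψ (circleMap 0 r θ) - c₀‖) 0 ∂mu) =
        Q * (2 * π * ∫ θ, max (Real.log σ - Real.log ‖ψ (circleMap 0 r θ) - c₀‖) 0 ∂mu) := by
      ring
    rw [e1, h7]
    have e2 := hleft.trans (h5.trans h6.le)
    have e3 : (2 * π) ^ 2 * Real.log r = 2 * π * (2 * π * Real.log r) := by ring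
    rw [e3]
    linarith
  exact le_of_mul_le_mul_left h9 (by positivity)

/-- comparison of the integrals for two radii -/
theorem W_compare {r σ σ₁ : ℝ} (hr : 1 < r) (hσ₁ : 0 < σ₁) (hσ : σ₁ < σ) :
    ∫ θ, max (Real.log σ - Real.log ‖ψ (circleMap 0 r θ) - c₀‖) 0 ∂mu ≤
      mu.real {θ : ℝ | ‖ψ (circleMap 0 r θ) - c₀‖ < σ} * Real.log (σ / σ₁) +
      ∫ θ, max (Real.log σ₁ - Real.log ‖ψ (circleMap 0 r θ) - c₀‖) 0 ∂mu := by
  have hσ0 : 0 < σ := hσ₁.trans hσ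
  have h7 : ∫ θ, max (Real.log σ - Real.log ‖ψ (circleMap 0 r θ) - c₀‖) 0 ∂mu ≤
      ∫ θ, (({θ : ℝ | ‖ψ (circleMap 0 r θ) - c₀‖ < σ}).indicator
        (fun _ => Real.log (σ / σ₁)) θ +
        max (Real.log σ₁ - Real.log ‖ψ (circleMap 0 r θ) - c₀‖) 0) ∂mu := by
    apply integral_mono
    · exact int_cont _ (W_cont hd hψ hc₀ hr σ)
    · exact ((integrable_const _).indicator (set_meas hψ hr c₀ σ)).add
        (int_cont _ (W_cont hd hψ hc₀ hr σ₁))
    · intro θ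
      simp only [Set.indicator_apply, Set.mem_setOf_eq]
      rw [Real.log_div hσ0.ne' hσ₁.ne']
      have hll := Real.log_lt_log hσ₁ hσ
      obtain ⟨L, hL⟩ : ∃ L, L = Real.log ‖ψ (circleMap 0 r θ) - c₀‖ := ⟨_, rfl⟩
      rw [← hL]
      split_ifs with h
      · rcases le_total 0 (Real.log σ - L) with h8 | h8
        · rw [max_eq_left h8]
          have := le_max_left (Real.log σ₁ - L) 0
          linarith
        · rw [max_eq_right h8]
          have := le_max_right (Real.log σ₁ - L) 0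
          linarith
      · push Not at h
        have h9 := Real.log_le_log hσ0 h
        rw [← hL] at h9
        rw [max_eq_right (by linarith), zero_add]
        exact le_max_right _ _
  refine h7.trans ?_
  rw [integral_add ((integrable_const _).indicator (set_meas hψ hr c₀ σ))
    (int_cont _ (W_cont hd hψ hc₀ hr σ₁)),
    integral_indicator_const _ (set_meas hψ hr c₀ σ), smul_eq_mul]

/-- **lower bound** -/
theorem measure_lower {r σ σ₁ L : ℝ} {z₁ : ℂ} (hr : 1 < r) (hz₁ : r < ‖z₁‖)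
    (hσz : ‖ψ z₁ - c₀‖ < σ) (hσ₁ : 0 < σ₁) (hσ : σ₁ < σ) (hL : 0 ≤ L)
    (hg : ∀ z₀ : ℂ, 1 < ‖z₀‖ → ‖ψ z₀ - c₀‖ ≤ σ₁ → Real.log ‖z₀‖ ≤ L) :
    (Real.log ‖z₁‖ - Real.log r) * (2 * π) ≤ (σ + ‖ψ z₁ - c₀‖) / (σ - ‖ψ z₁ - c₀‖) *
      (mu.real {θ : ℝ | ‖ψ (circleMap 0 r θ) - c₀‖ < σ} * Real.log (σ / σ₁) + 2 * π * L) := by
  refine (harnack hd hψ hc₀ hr hz₁ hσz).trans ?_
  apply mul_le_mul_of_nonneg_left
  · have h1 := W_compare hd hψ hc₀ hr hσ₁ hσ
    have h2 := W_upper hd hψ hc₀ hr hL hσ₁ hg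
    linarith
  · apply div_nonneg
    · linarith [norm_nonneg (ψ z₁ - c₀)]
    · linarith

end Pool.Agent.H13RP
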