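import Pool.Agent.H13RP.Par
import Pool.Agent.H13RP.Pot

set_option autoImplicit false

/-! # The Green's function near a parabolic parameter -/

namespace Pool.Agent.H13RP

open Polynomial Metric Filter Topology Pool.Agent.H712R2 Pool.Agent.H713R2 N62a1eb23
  Pool.Agent.H13MU

theorem norm_le_one_of_mult {d : ℕ} (hd : 2 ≤ d) {a : ℂ} {q : ℕ} (hq : 0 < q)
    (h : IsPrimitiveRoot ((d : ℂ) * a ^ (d - 1)) q) : ‖a‖ ≤ 1 ∧ a ≠ 0 := by
  have hd1 : (1 : ℝ) < d := by exact_mod_cast (show 1 < d by omega)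
  have h1 : ‖(d : ℂ) * a ^ (d - 1)‖ = 1 := by
    have h2 := congrArg norm h.pow_eq_one
    rw [norm_pow, norm_one] at h2
    exact (pow_eq_one_iff_of_nonneg (norm_nonneg _) hq.ne').1 h2
  rw [norm_mul, Complex.norm_natCast, norm_pow] at h1
  constructor
  · by_contra hcon
    push Not at hcon
    have h2 : 1 < ‖a‖ ^ (d - 1) := one_lt_pow₀ hcon (by omega)
    nlinarith
  · rintro rfl
    rw [norm_zero, zero_pow (by omega), mul_zero] at h1
    norm_num at h1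

theorem Gp_coeff_zero (d : ℕ) (a : ℂ) : (Gp d a).coeff 0 = 0 := by
  rw [coeff_zero_eq_eval_zero, Gp_eval, zero_add, sub_self]

theorem Gp_coeff_one {d : ℕ} (hd : 2 ≤ d) (a : ℂ) : (Gp d a).coeff 1 = d * a ^ (d - 1) := by
  rw [Gp, coeff_sub, coeff_C, if_neg (by norm_num), sub_zero, coeff_X_add_C_pow, Nat.choose_one_right]
  ring

theorem Gp_natDegree {d : ℕ} (hd : 2 ≤ d) (a : ℂ) : 2 ≤ (Gp d a).natDegree := by
  rw [Gp, natDegree_sub_C, natDegree_pow, natDegree_X_add_C, mul_one]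
  exact hd

/-- all the local data -/
theorem exists_data {d : ℕ} (hd : 2 ≤ d) {a : ℂ} {q : ℕ} (hq : 0 < q)
    (h : IsPrimitiveRoot ((d : ℂ) * a ^ (d - 1)) q) :
    ∃ (Ψ : ℂ[X]) (κ : ℂ) (δ K : ℝ), IsNF (Gp d a) Ψ (d * a ^ (d - 1)) κ q ∧
      IsLoc (Gp d a) Ψ κ q δ K := by
  obtain ⟨ha, -⟩ := norm_le_one_of_mult hd hq h
  obtain ⟨N, Ψ, κ, hqN, hNF⟩ := exists_nf hq h (Gp_coeff_zero d a) (Gp_coeff_one hd a)
    (Gp_natDegree hd a)
  obtain ⟨δ, K, hδ, hL⟩ := exists_loc (Gp_coeff_zero d a) (Gp_coeff_one hd a) hNF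
  have L := hL δ hδ le_rfl
  have hN := petals_eq hd ha rfl L hNF (Gp_coeff_zero d a) (Gp_coeff_one hd a) h hqN
  subst hN
  exact ⟨Ψ, κ, δ, K, hNF, L⟩

/-- the parabolic parameter belongs to the Multibrot set -/
theorem par_mem {d : ℕ} (hd : 2 ≤ d) {a : ℂ} {q : ℕ} (hq : 0 < q)
    (h : IsPrimitiveRoot ((d : ℂ) * a ^ (d - 1)) q) : Cc d a 0 ∈ multibrotSet d := by
  obtain ⟨ha, -⟩ := norm_le_one_of_mult hd hq h
  obtain ⟨Ψ, κ, δ, K, hNF, L⟩ := exists_data hd hq h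
  have h1 := crit_lin hd ha L hNF (Gp_coeff_zero d a) (Gp_coeff_one hd a) (η := 1) one_pos
  intro ht
  have ht' : Tendsto (fun k => P d k (Cc d a 0)) atTop (Bornology.cobounded ℂ) := ht
  rw [← tendsto_norm_atTop_iff_cobounded] at ht'
  obtain ⟨k, ⟨-, hk1, -⟩, hk2⟩ := (h1.and (ht'.eventually_gt_atTop 2)).exists
  rw [P_conj' hd, zero_div, Complex.exp_zero, one_mul] at hk2
  have h2 := norm_add_le a (W d a 1 k)
  linarith

section

variable {d : ℕ} (hd : 2 ≤ d) {ψ : ℂ → ℂ} (hψ : IsExteriorMap (multibrotSet d) ψ)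
include hd hψ

variable {a : ℂ} {q : ℕ} (hq : 0 < q) (h : IsPrimitiveRoot ((d : ℂ) * a ^ (d - 1)) q)
include hq h

theorem green_small {R₁ : ℝ} (hR0 : 0 < R₁) (hR1 : R₁ < 2 * Real.pi) :
    ∃ X₀ C : ℝ, 0 < X₀ ∧ 0 < C ∧ ∀ x : ℝ, 0 < x → x ≤ X₀ → ∀ ε : ℂ, ‖ε‖ ≤ x →
      ∀ z₀ : ℂ, 1 < ‖z₀‖ → ψ z₀ = Cc d a ε →
        Real.log ‖z₀‖ ≤ C * Real.exp (-(Real.log d * (R₁ / (q * x)))) := by
  obtain ⟨ha, -⟩ := norm_le_one_of_mult hd hq h
  obtain ⟨Ψ, κ, δ, K, hNF, L⟩ := exists_data hd hq h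
  obtain ⟨n₀, hn₀, hn₁⟩ := disc_bound hd ha L hNF (Gp_coeff_zero d a) (Gp_coeff_one hd a) hR0 hR1
  have hq0 : (0 : ℝ) < q := by exact_mod_cast hq
  have hqc : (q : ℂ) ≠ 0 := Nat.cast_ne_zero.2 hq.ne'
  have hd2 : (2 : ℝ) ≤ d := by exact_mod_cast hd
  have hlogd : 0 < Real.log d := Real.log_pos (by linarith)
  have hlog7 : 0 < Real.log 7 := Real.log_pos (by norm_num)
  refine ⟨min 1 (R₁ / (q * (n₀ + 2))), 2 * Real.log 7 * d ^ 2, by positivity, by positivity,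
    fun x hx0 hx ε hε z₀ hz₀ hz => ?_⟩
  have hx1 : x ≤ 1 := hx.trans (min_le_left _ _)
  have hx2 : x ≤ R₁ / (q * (n₀ + 2)) := hx.trans (min_le_right _ _)
  obtain ⟨y, hy⟩ : ∃ y, y = R₁ / (q * x) := ⟨_, rfl⟩
  have hy0 : 0 < y := by rw [hy]; positivity
  have hyn : (n₀ : ℝ) + 2 ≤ y := by
    rw [hy, le_div_iff₀ (by positivity)]
    rw [le_div_iff₀ (by positivity)] at hx2
    linarith
  rw [← hy]
  obtain ⟨n, hn⟩ : ∃ n, n = ⌊y⌋₊ := ⟨_, rfl⟩
  have hn1 : (n : ℝ) ≤ y := by rw [hn]; exact Nat.floor_le hy0.le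
  have hn2 : y < n + 1 := by rw [hn]; exact Nat.lt_floor_add_one y
  have hn3 : n₀ + 1 ≤ n := by
    have : (n₀ : ℝ) + 1 < n + 1 := by linarith
    have h1 : n₀ + 1 < n + 1 := by exact_mod_cast this
    omega
  obtain ⟨m, hm⟩ : ∃ m, n = m + 1 := ⟨n - 1, by omega⟩
  have hm1 : 1 ≤ m := by omega
  have hW := hn₁ n (by omega) (q * ε) (by
    rw [norm_mul, Complex.norm_natCast]
    calc (n : ℝ) * (q * ‖ε‖) ≤ y * (q * x) := by gcongr
      _ = R₁ := by rw [hy]; field_simp)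
  rw [mul_div_cancel_left₀ _ hqc] at hW
  have hδ8 := L.le
  have hP : ‖P d n (Cc d a ε)‖ ≤ 4 := by
    rw [P_conj' hd, norm_mul]
    have h1 : ‖Complex.exp (ε / (d - 1))‖ ≤ 2.7182818286 := by
      rw [Complex.norm_exp]
      refine (Real.exp_le_exp.2 (Complex.re_le_norm _)).trans ?_
      have h2 : ‖ε / ((d : ℂ) - 1)‖ ≤ 1 := by
        rw [norm_div, show (d : ℂ) - 1 = ((d - 1 : ℝ) : ℂ) by push_cast; ring, Complex.norm_real,
          Real.norm_of_nonneg (by linarith)]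
        rw [div_le_one (by linarith)]
        linarith
      exact (Real.exp_le_exp.2 h2).trans Real.exp_one_lt_d9.le
    have h2 := norm_add_le a (W d a (Complex.exp ε) n)
    calc ‖Complex.exp (ε / (d - 1))‖ * ‖a + W d a (Complex.exp ε) n‖ ≤ 2.7182818286 * (9 / 8) :=
          mul_le_mul h1 (by linarith) (norm_nonneg _) (by norm_num)
      _ ≤ 4 := by norm_num
  have hnear := P_near hd hψ hz₀ m
  rw [← hm, hz] at hnear
  obtain ⟨X, hX⟩ : ∃ X, X = ‖z₀‖ := ⟨_, rfl⟩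
  rw [← hX] at hnear hz₀ ⊢
  have h1 : X ^ (d ^ m) ≤ 7 * X := by
    have h2 := norm_sub_norm_le (z₀ ^ (d ^ m)) (P d n (Cc d a ε))
    rw [norm_pow, norm_sub_rev, ← hX] at h2
    linarith
  have hlogX : 0 < Real.log X := Real.log_pos hz₀
  have h2 : (d : ℝ) ^ m * Real.log X ≤ Real.log 7 + Real.log X := by
    have h3 := Real.log_le_log (by positivity) h1
    rw [Real.log_pow, Real.log_mul (by norm_num) (by positivity)] at h3
    push_cast at h3
    exact h3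
  have hdm : (2 : ℝ) ≤ (d : ℝ) ^ m := by
    calc (2 : ℝ) ≤ d := hd2
      _ = (d : ℝ) ^ 1 := (pow_one _).symm
      _ ≤ (d : ℝ) ^ m := pow_le_pow_right₀ (by linarith) hm1
  have h3 : (d : ℝ) ^ m * Real.log X ≤ 2 * Real.log 7 := by nlinarith
  have h4 : Real.exp (Real.log d * y) ≤ (d : ℝ) ^ 2 * (d : ℝ) ^ m := by
    have h5 : Real.exp (Real.log d * y) ≤ Real.exp (Real.log d * ((m + 2 : ℕ) : ℝ)) := by
      apply Real.exp_le_exp.2
      apply mul_le_mul_of_nonneg_left _ hlogd.le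
      rw [hm] at hn2
      push_cast at hn2 ⊢
      linarith
    refine h5.trans (le_of_eq ?_)
    rw [mul_comm, Real.exp_nat_mul, Real.exp_log (by linarith)]
    ring
  rw [Real.exp_neg]
  have h5 : Real.log X * Real.exp (Real.log d * y) ≤ 2 * Real.log 7 * d ^ 2 := by
    calc Real.log X * Real.exp (Real.log d * y) ≤ Real.log X * ((d : ℝ) ^ 2 * (d : ℝ) ^ m) :=
          mul_le_mul_of_nonneg_left h4 hlogX.le
      _ = ((d : ℝ) ^ m * Real.log X) * (d : ℝ) ^ 2 := by ring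
      _ ≤ 2 * Real.log 7 * d ^ 2 := mul_le_mul_of_nonneg_right h3 (by positivity)
  rw [← div_eq_mul_inv, le_div_iff₀ (Real.exp_pos _)]
  exact h5

theorem green_big {R₂ : ℝ} (hR2 : 2 * Real.pi < R₂) :
    ∃ X₀ : ℝ, 0 < X₀ ∧ ∀ x : ℝ, 0 < x → x ≤ X₀ → ∃ ε : ℂ, ‖ε‖ ≤ x ∧
      ∃ z₁ : ℂ, 1 < ‖z₁‖ ∧ ψ z₁ = Cc d a ε ∧
        Real.log 2 * Real.exp (-(Real.log d * (R₂ / (q * x)))) ≤ Real.log ‖z₁‖ := by
  obtain ⟨ha, -⟩ := norm_le_one_of_mult hd hq h
  obtain ⟨Ψ, κ, δ, K, hNF, L⟩ := exists_data hd hq h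
  obtain ⟨n₀, hn₀, hn₁⟩ := escape hd ha L hNF (Gp_coeff_zero d a) (Gp_coeff_one hd a) hR2 31
  have hpi := Real.pi_pos
  have hR0 : 0 < R₂ := by linarith
  have hq0 : (0 : ℝ) < q := by exact_mod_cast hq
  have hqc : (q : ℂ) ≠ 0 := Nat.cast_ne_zero.2 hq.ne'
  have hn₀0 : (0 : ℝ) < n₀ := by exact_mod_cast hn₀
  have hd2 : (2 : ℝ) ≤ d := by exact_mod_cast hd
  have hlogd : 0 < Real.log d := Real.log_pos (by linarith)
  have hlog2 : 0 < Real.log 2 := Real.log_pos (by norm_num)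
  refine ⟨min 1 (R₂ / (q * n₀)), by positivity, fun x hx0 hx => ?_⟩
  have hx1 : x ≤ 1 := hx.trans (min_le_left _ _)
  have hx2 : x ≤ R₂ / (q * n₀) := hx.trans (min_le_right _ _)
  obtain ⟨y, hy⟩ : ∃ y, y = R₂ / (q * x) := ⟨_, rfl⟩
  have hy0 : 0 < y := by rw [hy]; positivity
  have hyn : (n₀ : ℝ) ≤ y := by
    rw [hy, le_div_iff₀ (by positivity)]
    rw [le_div_iff₀ (by positivity)] at hx2
    linarith
  rw [← hy]
  obtain ⟨n, hn⟩ : ∃ n, n = ⌈y⌉₊ := ⟨_, rfl⟩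
  have hn1 : y ≤ n := by rw [hn]; exact Nat.le_ceil y
  have hn2 : (n : ℝ) < y + 1 := by rw [hn]; exact Nat.ceil_lt_add_one hy0.le
  have hn3 : n₀ ≤ n := by
    have : (n₀ : ℝ) ≤ n := hyn.trans hn1
    exact_mod_cast this
  have hnp : (0 : ℝ) < n := by linarith
  obtain ⟨m, hm⟩ : ∃ m, n = m + 1 := ⟨n - 1, by omega⟩
  obtain ⟨t, ht1, ht2⟩ := hn₁ n hn3
  have hεn : ‖t / q‖ ≤ x := by
    rw [norm_div, Complex.norm_natCast, div_le_iff₀ hq0]
    have h1 : ‖t‖ ≤ R₂ / n := by rw [le_div_iff₀ hnp]; linarith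
    refine h1.trans ?_
    rw [div_le_iff₀ hnp]
    calc R₂ = x * q * y := by rw [hy]; field_simp
      _ ≤ x * q * n := mul_le_mul_of_nonneg_left hn1 (by positivity)
  have hP : 10 ≤ ‖P d n (Cc d a (t / q))‖ := by
    rw [P_conj' hd, norm_mul]
    have h1 : 1 / 3 ≤ ‖Complex.exp (t / q / (d - 1))‖ := by
      rw [Complex.norm_exp]
      have h2 : ‖t / q / ((d : ℂ) - 1)‖ ≤ 1 := by
        rw [norm_div, show (d : ℂ) - 1 = ((d - 1 : ℝ) : ℂ) by push_cast; ring, Complex.norm_real,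
          Real.norm_of_nonneg (by linarith)]
        rw [div_le_one (by linarith)]
        linarith
      have h3 : -1 ≤ (t / q / ((d : ℂ) - 1)).re := by
        have := (abs_le.1 (Complex.abs_re_le_norm (t / q / ((d : ℂ) - 1)))).1
        linarith
      have h4 : Real.exp (-1) ≤ Real.exp (t / q / ((d : ℂ) - 1)).re := Real.exp_le_exp.2 h3
      refine le_trans ?_ h4
      rw [Real.exp_neg, one_div]
      apply inv_anti₀ (Real.exp_pos 1)
      linarith [Real.exp_one_lt_d9]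
    have h2 : 30 ≤ ‖a + W d a (Complex.exp (t / q)) n‖ := by
      have h3 := norm_sub_norm_le (W d a (Complex.exp (t / q)) n) (-a)
      rw [norm_neg, sub_neg_eq_add, add_comm (W d a (Complex.exp (t / q)) n) a] at h3
      linarith
    calc (10 : ℝ) = 1 / 3 * 30 := by norm_num
      _ ≤ ‖Complex.exp (t / q / (d - 1))‖ * ‖a + W d a (Complex.exp (t / q)) n‖ :=
        mul_le_mul h1 h2 (by norm_num) (norm_nonneg _)
  have hnot : Cc d a (t / q) ∉ multibrotSet d := by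
    rw [mem_multibrot_iff hd]
    intro hcon
    linarith [hcon n]
  have hex : Cc d a (t / q) ∈ ψ '' {z | 1 < ‖z‖} := by
    rw [hψ.image]
    exact hnot
  obtain ⟨z₁, hz₁, hz⟩ := hex
  have hz₁' : 1 < ‖z₁‖ := hz₁
  refine ⟨t / q, hεn, z₁, hz₁', hz, ?_⟩
  have hnear := P_near hd hψ hz₁' m
  rw [← hm, hz] at hnear
  obtain ⟨X, hX⟩ : ∃ X, X = ‖z₁‖ := ⟨_, rfl⟩
  rw [← hX] at hnear hz₁' ⊢
  have hXp : 0 < X := by linarith
  have hlogX : 0 < Real.log X := Real.log_pos hz₁'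
  have hdm : (1 : ℝ) ≤ (d : ℝ) ^ m := one_le_pow₀ (by linarith)
  have h1 : Real.log 2 ≤ (d : ℝ) ^ m * Real.log X := by
    rcases le_total X 2 with hX2 | hX2
    · have h2 : 2 ≤ X ^ (d ^ m) := by
        have h3 := norm_sub_norm_le (P d n (Cc d a (t / q))) (z₁ ^ (d ^ m))
        rw [norm_pow, ← hX] at h3
        linarith
      have h3 := Real.log_le_log (by norm_num) h2
      rw [Real.log_pow] at h3
      push_cast at h3
      exact h3
    · have h2 := Real.log_le_log (by norm_num) hX2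
      calc Real.log 2 ≤ Real.log X := h2
        _ = 1 * Real.log X := (one_mul _).symm
        _ ≤ (d : ℝ) ^ m * Real.log X := mul_le_mul_of_nonneg_right hdm hlogX.le
  have h4 : (d : ℝ) ^ m ≤ Real.exp (Real.log d * y) := by
    have h5 : Real.exp (Real.log d * (m : ℝ)) ≤ Real.exp (Real.log d * y) := by
      apply Real.exp_le_exp.2
      apply mul_le_mul_of_nonneg_left _ hlogd.le
      rw [hm] at hn2
      push_cast at hn2
      linarith
    refine le_trans (le_of_eq ?_) h5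
    rw [mul_comm, Real.exp_nat_mul, Real.exp_log (by linarith)]
  rw [Real.exp_neg, ← div_eq_mul_inv, div_le_iff₀ (Real.exp_pos _)]
  calc Real.log 2 ≤ (d : ℝ) ^ m * Real.log X := h1
    _ ≤ Real.exp (Real.log d * y) * Real.log X := mul_le_mul_of_nonneg_right h4 hlogX.le
    _ = _ := mul_comm _ _

end

end Pool.Agent.H13RP
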