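import Pool.Agent.H13RP.NF

set_option autoImplicit false

/-! # Local estimates at a parabolic fixed point and its perturbations -/

namespace Pool.Agent.H13RP

open Polynomial Metric

theorem poly_bdd (p : ℂ[X]) (R : ℝ) : ∃ C : ℝ, 1 ≤ C ∧ ∀ z : ℂ, ‖z‖ ≤ R → ‖p.eval z‖ ≤ C := by
  obtain ⟨C, hC⟩ := (isCompact_closedBall (0 : ℂ) R).exists_bound_of_continuousOn
    (f := fun z => p.eval z) p.continuous.continuousOn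
  refine ⟨max 1 C, le_max_left _ _, fun z hz => (hC z ?_).trans (le_max_right _ _)⟩
  rwa [mem_closedBall_zero_iff]

theorem poly_lip (p : ℂ[X]) (R : ℝ) : ∃ C : ℝ, 1 ≤ C ∧ ∀ a b : ℂ, ‖a‖ ≤ R → ‖b‖ ≤ R →
    ‖p.eval a - p.eval b‖ ≤ C * ‖a - b‖ := by
  obtain ⟨C, hC1, hC⟩ := poly_bdd (derivative p) R
  refine ⟨C, hC1, fun a b ha hb => ?_⟩
  refine (convex_closedBall (0 : ℂ) R).norm_image_sub_le_of_norm_deriv_le (f := fun z => p.eval z)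
    (fun x _ => p.differentiableAt) (fun x hx => ?_) ?_ ?_
  · rw [Polynomial.deriv]
    exact hC x (by rwa [mem_closedBall_zero_iff] at hx)
  · rwa [mem_closedBall_zero_iff]
  · rwa [mem_closedBall_zero_iff]

/-- the local function `P = κ Ψ ^ N` -/
noncomputable def PF (Ψ : ℂ[X]) (κ : ℂ) (N : ℕ) (w : ℂ) : ℂ := κ * Ψ.eval w ^ N

structure IsLoc (G Ψ : ℂ[X]) (κ : ℂ) (N : ℕ) (δ C : ℝ) : Prop where
  pos : 0 < δ
  le : δ ≤ 1 / 8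
  one : 1 ≤ C
  lower : ∀ w : ℂ, ‖w‖ ≤ 2 * δ → ‖w‖ ^ N / C ≤ ‖PF Ψ κ N w‖
  upper : ∀ w : ℂ, ‖w‖ ≤ 2 * δ → ‖PF Ψ κ N w‖ ≤ C * ‖w‖ ^ N
  glow : ∀ w μ : ℂ, ‖w‖ ≤ δ → ‖μ - 1‖ ≤ δ → ‖w‖ / 2 ≤ ‖μ * G.eval w‖
  gup : ∀ w μ : ℂ, ‖w‖ ≤ δ → ‖μ - 1‖ ≤ δ → ‖μ * G.eval w‖ ≤ 2 * ‖w‖
  step : ∀ w μ : ℂ, w ≠ 0 → ‖w‖ ≤ δ → ‖μ - 1‖ ≤ δ →
    ‖(PF Ψ κ N (μ * G.eval w))⁻¹ - (μ ^ N)⁻¹ * ((PF Ψ κ N w)⁻¹ + 1)‖ ≤
      C * ‖w‖ * (1 + ‖μ - 1‖ * ‖(PF Ψ κ N w)⁻¹‖)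

theorem eval_dvd {p : ℂ[X]} {m : ℕ} (h : X ^ m ∣ p) (R : ℝ) : ∃ C : ℝ, 1 ≤ C ∧
    ∀ z : ℂ, ‖z‖ ≤ R → ‖p.eval z‖ ≤ C * ‖z‖ ^ m := by
  obtain ⟨A, rfl⟩ := h
  obtain ⟨C, hC1, hC⟩ := poly_bdd A R
  refine ⟨C, hC1, fun z hz => ?_⟩
  rw [eval_mul, eval_pow, eval_X, norm_mul, norm_pow, mul_comm]
  exact mul_le_mul_of_nonneg_right (hC z hz) (by positivity)

theorem exists_loc {G Ψ : ℂ[X]} {lam κ : ℂ} {N : ℕ} (hG0 : G.coeff 0 = 0)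
    (hG1 : G.coeff 1 = lam) (h : IsNF G Ψ lam κ N) :
    ∃ δ₀ C : ℝ, 0 < δ₀ ∧ ∀ δ : ℝ, 0 < δ → δ ≤ δ₀ → IsLoc G Ψ κ N δ C := by
  have hlam : ‖lam‖ = 1 := by
    have h1 := congrArg norm h.lam
    rw [norm_pow, norm_one] at h1
    exact (pow_eq_one_iff_of_nonneg (norm_nonneg _) h.pos.ne').1 h1
  obtain ⟨B, hB⟩ := h.psi
  obtain ⟨B₁, hB₁⟩ := one_add_pow B N
  obtain ⟨G₂, hG₂⟩ : ∃ G₂ : ℂ[X], G = X * (C lam + X * G₂) := by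
    obtain ⟨A, hA⟩ := X_dvd_iff.2 hG0
    have hA0 : A.coeff 0 = lam := by rw [← hG1, hA, coeff_X_mul]
    obtain ⟨B, hB⟩ := X_dvd_iff.2 (show (A - C lam).coeff 0 = 0 by simp [hA0])
    exact ⟨B, by rw [hA, ← hB]; ring⟩
  have hPF : ∀ w : ℂ, PF Ψ κ N w = κ * w ^ N * (1 + w * B₁.eval w) := by
    intro w
    have h1 := congrArg (Polynomial.eval w) hB₁
    simp only [eval_pow, eval_add, eval_one, eval_mul, eval_X] at h1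
    rw [PF, hB, eval_mul, eval_X, mul_pow, eval_add, eval_one, eval_mul, eval_X, h1]
    ring
  have hGe : ∀ w : ℂ, G.eval w = w * (lam + w * G₂.eval w) := by
    intro w
    rw [hG₂]; simp
  obtain ⟨c₁, hc₁1, hc₁⟩ := poly_bdd B₁ 1
  obtain ⟨c₂, hc₂1, hc₂⟩ := poly_bdd G₂ 1
  obtain ⟨c₃, hc₃1, hc₃⟩ := poly_lip B₁ 1
  obtain ⟨c₄, hc₄1, hc₄⟩ := eval_dvd h.dvd 1
  have hκ : 0 < ‖κ‖ := norm_pos_iff.2 h.kne
  have hκ1 : 1 ≤ 1 + 2 * ‖κ‖ + 2 / ‖κ‖ := by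
    have : 0 < 2 / ‖κ‖ := by positivity
    linarith
  obtain ⟨K, hK⟩ : ∃ K, K = 1 + 2 * ‖κ‖ + 2 / ‖κ‖ := ⟨_, rfl⟩
  rw [← hK] at hκ1
  have hK1 : 2 * ‖κ‖ ≤ K := by
    have : 0 < 2 / ‖κ‖ := by positivity
    linarith
  have hK2 : 2 / ‖κ‖ ≤ K := by linarith
  -- constants
  obtain ⟨δ₀, hδ₀⟩ : ∃ δ₀, δ₀ = 1 / (8 * (c₁ + c₂)) := ⟨_, rfl⟩
  have hδ₀0 : 0 < δ₀ := by rw [hδ₀]; positivity
  refine ⟨δ₀, K + K ^ 2 * 2 ^ N * (c₄ + (1 + K) * (‖κ‖ * 2 ^ (N + 1) * (2 * (c₁ + c₃))) * K * 2),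
    hδ₀0, fun δ hδ0 hδ => ?_⟩
  have hA0 : 0 ≤ K ^ 2 * 2 ^ N * (c₄ + (1 + K) * (‖κ‖ * 2 ^ (N + 1) * (2 * (c₁ + c₃))) * K * 2) := by
    positivity
  have hKC : K ≤ K + K ^ 2 * 2 ^ N *
      (c₄ + (1 + K) * (‖κ‖ * 2 ^ (N + 1) * (2 * (c₁ + c₃))) * K * 2) := by linarith
  have hδc₁ : δ * c₁ ≤ 1 / 8 := by
    calc δ * c₁ ≤ δ₀ * c₁ := mul_le_mul_of_nonneg_right hδ (by linarith)
      _ ≤ δ₀ * (c₁ + c₂) := mul_le_mul_of_nonneg_left (by linarith) hδ₀0.le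
      _ = 1 / 8 := by rw [hδ₀]; field_simp
  have hδc₂ : δ * c₂ ≤ 1 / 8 := by
    calc δ * c₂ ≤ δ₀ * c₂ := mul_le_mul_of_nonneg_right hδ (by linarith)
      _ ≤ δ₀ * (c₁ + c₂) := mul_le_mul_of_nonneg_left (by linarith) hδ₀0.le
      _ = 1 / 8 := by rw [hδ₀]; field_simp
  have hδ8 : δ ≤ 1 / 8 := by
    calc δ = δ * 1 := (mul_one _).symm
      _ ≤ δ * c₁ := mul_le_mul_of_nonneg_left hc₁1 hδ0.le
      _ ≤ 1 / 8 := hδc₁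
  -- basic bounds
  have hb1 : ∀ w : ℂ, ‖w‖ ≤ 2 * δ → ‖w * B₁.eval w‖ ≤ 1 / 2 := by
    intro w hw
    rw [norm_mul]
    calc ‖w‖ * ‖B₁.eval w‖ ≤ 2 * δ * c₁ :=
          mul_le_mul hw (hc₁ w (by linarith)) (norm_nonneg _) (by linarith)
      _ ≤ 1 / 2 := by linarith
  have hlow : ∀ w : ℂ, ‖w‖ ≤ 2 * δ → ‖w‖ ^ N / K ≤ ‖PF Ψ κ N w‖ := by
    intro w hw
    have h1 := hb1 w hw
    have h2 : 1 / 2 ≤ ‖1 + w * B₁.eval w‖ := by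
      have := norm_sub_norm_le (1 : ℂ) (-(w * B₁.eval w))
      rw [norm_one, norm_neg, sub_neg_eq_add] at this
      linarith
    rw [hPF, norm_mul, norm_mul, norm_pow, div_le_iff₀ (by linarith)]
    have h3 : 1 ≤ ‖κ‖ * (1 / 2) * K := by
      calc (1 : ℝ) = ‖κ‖ * (1 / 2) * (2 / ‖κ‖) := by field_simp
        _ ≤ ‖κ‖ * (1 / 2) * K := mul_le_mul_of_nonneg_left hK2 (by positivity)
    calc ‖w‖ ^ N = ‖w‖ ^ N * 1 := (mul_one _).symm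
      _ ≤ ‖w‖ ^ N * (‖κ‖ * (1 / 2) * K) := mul_le_mul_of_nonneg_left h3 (by positivity)
      _ = ‖κ‖ * ‖w‖ ^ N * (1 / 2) * K := by ring
      _ ≤ ‖κ‖ * ‖w‖ ^ N * ‖1 + w * B₁.eval w‖ * K := by gcongr
  have hup : ∀ w : ℂ, ‖w‖ ≤ 2 * δ → ‖PF Ψ κ N w‖ ≤ K * ‖w‖ ^ N := by
    intro w hw
    have h1 := hb1 w hw
    have h2 : ‖1 + w * B₁.eval w‖ ≤ 2 := by
      have := norm_add_le (1 : ℂ) (w * B₁.eval w)
      rw [norm_one] at this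
      linarith
    rw [hPF, norm_mul, norm_mul, norm_pow]
    calc ‖κ‖ * ‖w‖ ^ N * ‖1 + w * B₁.eval w‖ ≤ ‖κ‖ * ‖w‖ ^ N * 2 := by gcongr
      _ = 2 * ‖κ‖ * ‖w‖ ^ N := by ring
      _ ≤ K * ‖w‖ ^ N := mul_le_mul_of_nonneg_right hK1 (by positivity)
  have hGb : ∀ w : ℂ, ‖w‖ ≤ δ → 7 / 8 * ‖w‖ ≤ ‖G.eval w‖ ∧ ‖G.eval w‖ ≤ 9 / 8 * ‖w‖ := by
    intro w hw
    have h1 : ‖w * G₂.eval w‖ ≤ 1 / 8 := by
      rw [norm_mul]
      calc ‖w‖ * ‖G₂.eval w‖ ≤ δ * c₂ :=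
            mul_le_mul hw (hc₂ w (by linarith)) (norm_nonneg _) hδ0.le
        _ ≤ 1 / 8 := hδc₂
    rw [hGe, norm_mul]
    have h2 := norm_add_le lam (w * G₂.eval w)
    have h3 := norm_sub_norm_le lam (-(w * G₂.eval w))
    rw [norm_neg, sub_neg_eq_add, hlam] at h3
    rw [hlam] at h2
    have h4 := norm_nonneg w
    constructor
    · calc 7 / 8 * ‖w‖ = ‖w‖ * (7 / 8) := by ring
        _ ≤ ‖w‖ * ‖lam + w * G₂.eval w‖ := mul_le_mul_of_nonneg_left (by linarith) h4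
    · calc ‖w‖ * ‖lam + w * G₂.eval w‖ ≤ ‖w‖ * (9 / 8) := mul_le_mul_of_nonneg_left (by linarith) h4
        _ = 9 / 8 * ‖w‖ := by ring
  have hμb : ∀ μ : ℂ, ‖μ - 1‖ ≤ δ → 7 / 8 ≤ ‖μ‖ ∧ ‖μ‖ ≤ 9 / 8 := by
    intro μ hμ
    have h1 := norm_sub_norm_le μ 1
    have h2 := norm_sub_norm_le 1 μ
    rw [norm_sub_rev, norm_one] at h2
    rw [norm_one] at h1
    constructor <;> linarith
  have hglow : ∀ w μ : ℂ, ‖w‖ ≤ δ → ‖μ - 1‖ ≤ δ → ‖w‖ / 2 ≤ ‖μ * G.eval w‖ := by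
    intro w μ hw hμ
    rw [norm_mul]
    calc ‖w‖ / 2 ≤ 7 / 8 * (7 / 8 * ‖w‖) := by linarith [norm_nonneg w]
      _ ≤ ‖μ‖ * ‖G.eval w‖ := mul_le_mul (hμb μ hμ).1 (hGb w hw).1 (by positivity) (norm_nonneg _)
  have hgup : ∀ w μ : ℂ, ‖w‖ ≤ δ → ‖μ - 1‖ ≤ δ → ‖μ * G.eval w‖ ≤ 2 * ‖w‖ := by
    intro w μ hw hμ
    rw [norm_mul]
    calc ‖μ‖ * ‖G.eval w‖ ≤ 9 / 8 * (9 / 8 * ‖w‖) :=
          mul_le_mul (hμb μ hμ).2 (hGb w hw).2 (norm_nonneg _) (by norm_num)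
      _ ≤ 2 * ‖w‖ := by linarith [norm_nonneg w]
  refine ⟨hδ0, hδ8, hκ1.trans hKC, ?_, ?_, hglow, hgup, ?_⟩
  · intro w hw
    refine le_trans ?_ (hlow w hw)
    exact div_le_div_of_nonneg_left (by positivity) (by linarith) hKC
  · intro w hw
    exact (hup w hw).trans (mul_le_mul_of_nonneg_right hKC (by positivity))
  · intro w μ hw0 hw hμ
    have hw1 : ‖w‖ ≤ 2 * δ := by linarith [norm_nonneg w]
    have hwp : 0 < ‖w‖ := norm_pos_iff.2 hw0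
    have hx2 : ‖μ * G.eval w‖ ≤ 2 * δ := (hgup w μ hw hμ).trans (by linarith)
    have hPw : 0 < ‖PF Ψ κ N w‖ := lt_of_lt_of_le (by positivity) (hlow w hw1)
    have hPx1 : (‖w‖ / 2) ^ N / K ≤ ‖PF Ψ κ N (μ * G.eval w)‖ := by
      refine le_trans ?_ (hlow _ hx2)
      have := pow_le_pow_left₀ (by positivity) (hglow w μ hw hμ) N
      exact div_le_div_of_nonneg_right this (by linarith)
    have hPx : 0 < ‖PF Ψ κ N (μ * G.eval w)‖ := lt_of_lt_of_le (by positivity) hPx1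
    have hμ0 : μ ≠ 0 := by
      intro h0
      have := (hμb μ hμ).1
      rw [h0, norm_zero] at this
      norm_num at this
    -- the numerator
    obtain ⟨x, hx⟩ : ∃ x, x = G.eval w := ⟨_, rfl⟩
    have hx1 : ‖x‖ ≤ 9 / 8 * ‖w‖ := by rw [hx]; exact (hGb w hw).2
    have n1 : ‖PF Ψ κ N w - (1 + PF Ψ κ N w) * PF Ψ κ N x‖ ≤ c₄ * ‖w‖ ^ (2 * N + 1) := by
      have := hc₄ w (by linarith)
      simp only [eval_sub, eval_mul, eval_add, eval_one, eval_comp, eval_C, eval_pow, ← hx] at this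
      exact this
    have n2 : (μ ^ N)⁻¹ * PF Ψ κ N (μ * x) - PF Ψ κ N x =
        κ * x ^ (N + 1) * ((μ - 1) * B₁.eval (μ * x) + (B₁.eval (μ * x) - B₁.eval x)) := by
      rw [hPF, hPF, mul_pow]
      field_simp
      ring
    have hx3 : ‖μ * x‖ ≤ 1 := by rw [hx]; linarith
    have hx4 : ‖x‖ ≤ 1 := by linarith
    have n3 : ‖(μ - 1) * B₁.eval (μ * x) + (B₁.eval (μ * x) - B₁.eval x)‖ ≤
        2 * (c₁ + c₃) * ‖μ - 1‖ := by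
      have h1 := norm_add_le ((μ - 1) * B₁.eval (μ * x)) (B₁.eval (μ * x) - B₁.eval x)
      have h2 : ‖(μ - 1) * B₁.eval (μ * x)‖ ≤ ‖μ - 1‖ * c₁ := by
        rw [norm_mul]
        exact mul_le_mul_of_nonneg_left (hc₁ _ hx3) (norm_nonneg _)
      have h3 : ‖B₁.eval (μ * x) - B₁.eval x‖ ≤ c₃ * ‖μ - 1‖ := by
        refine (hc₃ _ _ hx3 hx4).trans ?_
        apply mul_le_mul_of_nonneg_left _ (by linarith)
        rw [show μ * x - x = (μ - 1) * x by ring, norm_mul]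
        exact mul_le_of_le_one_right (norm_nonneg _) hx4
      have h4 : 0 ≤ (c₁ + c₃) * ‖μ - 1‖ := by positivity
      linarith
    have n4 : ‖(μ ^ N)⁻¹ * PF Ψ κ N (μ * x) - PF Ψ κ N x‖ ≤
        ‖κ‖ * (2 ^ (N + 1) * ‖w‖ ^ (N + 1)) * (2 * (c₁ + c₃) * ‖μ - 1‖) := by
      rw [n2, norm_mul, norm_mul, norm_pow]
      have h1 : ‖x‖ ^ (N + 1) ≤ 2 ^ (N + 1) * ‖w‖ ^ (N + 1) := by
        rw [← mul_pow]
        exact pow_le_pow_left₀ (norm_nonneg _) (by linarith) _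
      exact mul_le_mul (mul_le_mul_of_nonneg_left h1 hκ.le) n3 (norm_nonneg _) (by positivity)
    have hPwK : ‖PF Ψ κ N w‖ ≤ K := by
      refine (hup w hw1).trans ?_
      exact mul_le_of_le_one_right (by linarith) (pow_le_one₀ (norm_nonneg _) (by linarith))
    have n5 : (PF Ψ κ N (μ * x))⁻¹ - (μ ^ N)⁻¹ * ((PF Ψ κ N w)⁻¹ + 1) =
        ((PF Ψ κ N w - (1 + PF Ψ κ N w) * PF Ψ κ N x) -
          (1 + PF Ψ κ N w) * ((μ ^ N)⁻¹ * PF Ψ κ N (μ * x) - PF Ψ κ N x)) /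
          (PF Ψ κ N w * PF Ψ κ N (μ * x)) := by
      rw [← hx] at hPx
      have h1 : PF Ψ κ N w ≠ 0 := norm_pos_iff.1 hPw
      have h2 : PF Ψ κ N (μ * x) ≠ 0 := norm_pos_iff.1 hPx
      field_simp
      ring
    rw [← hx] at hPx hPx1 ⊢
    rw [n5, norm_div, norm_mul, div_le_iff₀ (by positivity)]
    have n6 : ‖(PF Ψ κ N w - (1 + PF Ψ κ N w) * PF Ψ κ N x) -
          (1 + PF Ψ κ N w) * ((μ ^ N)⁻¹ * PF Ψ κ N (μ * x) - PF Ψ κ N x)‖ ≤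
        c₄ * ‖w‖ ^ (2 * N + 1) + (1 + K) *
          (‖κ‖ * (2 ^ (N + 1) * ‖w‖ ^ (N + 1)) * (2 * (c₁ + c₃) * ‖μ - 1‖)) := by
      refine (norm_sub_le _ _).trans (add_le_add n1 ?_)
      rw [norm_mul]
      have h1 : ‖1 + PF Ψ κ N w‖ ≤ 1 + K := by
        refine (norm_add_le _ _).trans ?_
        rw [norm_one]; linarith
      exact mul_le_mul h1 n4 (norm_nonneg _) (by linarith)
    refine n6.trans ?_
    -- comparison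
    obtain ⟨p, hp⟩ : ∃ p, p = ‖PF Ψ κ N w‖ := ⟨_, rfl⟩
    obtain ⟨p', hp'⟩ : ∃ p', p' = ‖PF Ψ κ N (μ * x)‖ := ⟨_, rfl⟩
    obtain ⟨W, hW⟩ : ∃ W, W = ‖w‖ ^ N := ⟨_, rfl⟩
    obtain ⟨m, hm⟩ : ∃ m, m = ‖μ - 1‖ := ⟨_, rfl⟩
    have hWp : 0 < W := by rw [hW]; positivity
    have hm0 : 0 ≤ m := by rw [hm]; positivity
    have q1 : W ≤ K * p := by
      have := hlow w hw1
      rw [div_le_iff₀ (by linarith), ← hW, ← hp] at this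
      linarith
    have q2 : W ≤ K * 2 ^ N * p' := by
      have h1 := hPx1
      rw [div_pow, div_div, div_le_iff₀ (by positivity), ← hW, ← hp'] at h1
      linarith
    have q3 : p ≤ K * W := by rw [hp, hW]; exact hup w hw1
    rw [norm_inv, ← hp, ← hp', ← hm]
    have hpp : 0 < p := by rw [hp]; exact hPw
    have hpp' : 0 < p' := by rw [hp']; exact hPx
    have e1 : ‖w‖ ^ (2 * N + 1) = W * W * ‖w‖ := by rw [hW]; ring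
    have e2 : ‖w‖ ^ (N + 1) = W * ‖w‖ := by rw [hW]; ring
    rw [e1, e2]
    have t1 : W * W ≤ K ^ 2 * 2 ^ N * (p * p') := by
      calc W * W ≤ (K * p) * (K * 2 ^ N * p') := mul_le_mul q1 q2 hWp.le (by positivity)
        _ = K ^ 2 * 2 ^ N * (p * p') := by ring
    have t2 : W * m ≤ K ^ 2 * 2 ^ N * (K * 2) * (p * p') * (m * p⁻¹) := by
      have h1 : W * m ≤ (K * 2 ^ N * p') * m := mul_le_mul_of_nonneg_right q2 hm0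
      refine h1.trans ?_
      have h2 : K ^ 2 * 2 ^ N * (K * 2) * (p * p') * (m * p⁻¹) =
          (K * 2 ^ N * p') * m * (2 * K ^ 2) := by
        field_simp
      rw [h2]
      have h3 : 1 ≤ 2 * K ^ 2 := by nlinarith
      exact le_mul_of_one_le_right (by positivity) h3
    obtain ⟨A, hA⟩ : ∃ A, A = (1 + K) * (‖κ‖ * 2 ^ (N + 1) * (2 * (c₁ + c₃))) := ⟨_, rfl⟩
    rw [← hA]
    have hA00 : 0 ≤ A := by rw [hA]; positivity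
    have e3 : (1 + K) * (‖κ‖ * (2 ^ (N + 1) * (W * ‖w‖)) * (2 * (c₁ + c₃) * m)) =
        A * (W * m) * ‖w‖ := by rw [hA]; ring
    rw [e3]
    have hD : 0 ≤ K * ‖w‖ * (1 + m * p⁻¹) * (p * p') := by positivity
    calc c₄ * (W * W * ‖w‖) + A * (W * m) * ‖w‖
        = (c₄ * (W * W) + A * (W * m)) * ‖w‖ := by ring
      _ ≤ (c₄ * (K ^ 2 * 2 ^ N * (p * p')) +
            A * (K ^ 2 * 2 ^ N * (K * 2) * (p * p') * (m * p⁻¹))) * ‖w‖ := by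
          apply mul_le_mul_of_nonneg_right _ (norm_nonneg _)
          exact add_le_add (mul_le_mul_of_nonneg_left t1 (by linarith))
            (mul_le_mul_of_nonneg_left t2 hA00)
      _ ≤ K ^ 2 * 2 ^ N * (c₄ + A * K * 2) * ‖w‖ * (1 + m * p⁻¹) * (p * p') := by
          have h5 : K ^ 2 * 2 ^ N * (c₄ + A * K * 2) * ‖w‖ * (1 + m * p⁻¹) * (p * p') -
              (c₄ * (K ^ 2 * 2 ^ N * (p * p')) +
                A * (K ^ 2 * 2 ^ N * (K * 2) * (p * p') * (m * p⁻¹))) * ‖w‖ =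
              K ^ 2 * 2 ^ N * c₄ * ‖w‖ * (m * p⁻¹) * (p * p') +
                K ^ 2 * 2 ^ N * (A * K * 2) * ‖w‖ * (p * p') := by ring
          have h6 : 0 ≤ K ^ 2 * 2 ^ N * c₄ * ‖w‖ * (m * p⁻¹) * (p * p') +
                K ^ 2 * 2 ^ N * (A * K * 2) * ‖w‖ * (p * p') := by positivity
          linarith
      _ ≤ (K + K ^ 2 * 2 ^ N * (c₄ + A * K * 2)) * ‖w‖ * (1 + m * p⁻¹) * (p * p') := by
          have h7 : (K + K ^ 2 * 2 ^ N * (c₄ + A * K * 2)) * ‖w‖ * (1 + m * p⁻¹) * (p * p') =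
              K * ‖w‖ * (1 + m * p⁻¹) * (p * p') +
                K ^ 2 * 2 ^ N * (c₄ + A * K * 2) * ‖w‖ * (1 + m * p⁻¹) * (p * p') := by ring
          rw [h7]
          linarith

end Pool.Agent.H13RP
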