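import Mathlib

set_option autoImplicit false

/-! # Normal form of a polynomial at a fixed point whose multiplier is a root of unity -/

namespace Pool.Agent.H13RP

open Polynomial

theorem X_dvd_comp {G A : ℂ[X]} (hG0 : G.coeff 0 = 0) {m : ℕ} (h : X ^ m ∣ A) :
    X ^ m ∣ A.comp G := by
  obtain ⟨B, rfl⟩ := h
  rw [mul_comp, pow_comp, X_comp]
  exact Dvd.dvd.mul_right (pow_dvd_pow_of_dvd (X_dvd_iff.2 hG0) m) _

/-- the iterates -/
noncomputable def it (G : ℂ[X]) : ℕ → ℂ[X]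
  | 0 => X
  | n + 1 => (it G n).comp G

theorem it_coeff {G : ℂ[X]} (hG0 : G.coeff 0 = 0) (n : ℕ) : (it G n).coeff 0 = 0 := by
  induction n with
  | zero => simp [it]
  | succ n ih =>
    rw [it, coeff_zero_eq_eval_zero, eval_comp, ← coeff_zero_eq_eval_zero, hG0,
      ← coeff_zero_eq_eval_zero, ih]

theorem it_deg (G : ℂ[X]) (n : ℕ) : (it G n).natDegree = G.natDegree ^ n := by
  induction n with
  | zero => simp [it]
  | succ n ih => rw [it, natDegree_comp, ih, pow_succ]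

theorem it_conj {G Ψ : ℂ[X]} {lam : ℂ} (hG0 : G.coeff 0 = 0) {M : ℕ}
    (h : X ^ M ∣ Ψ.comp G - C lam * Ψ) (n : ℕ) :
    X ^ M ∣ Ψ.comp (it G n) - C (lam ^ n) * Ψ := by
  induction n with
  | zero => simp [it]
  | succ n ih =>
    have h1 : Ψ.comp (it G (n + 1)) - C (lam ^ (n + 1)) * Ψ =
        (Ψ.comp (it G n) - C (lam ^ n) * Ψ).comp G + C (lam ^ n) * (Ψ.comp G - C lam * Ψ) := by
      rw [it, ← comp_assoc, sub_comp, mul_comp, C_comp, pow_succ, C_mul]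
      ring
    rw [h1]
    exact dvd_add (X_dvd_comp hG0 ih) (Dvd.dvd.mul_left h _)

theorem conj_sub {Ψ A : ℂ[X]} (hΨ1 : Ψ.coeff 1 = 1) (hA : A.coeff 0 = 0) {M : ℕ}
    (h : X ^ M ∣ Ψ.comp A - Ψ) : X ^ M ∣ A - X := by
  obtain ⟨k, hk⟩ := Polynomial.binomExpansion (Ψ.map C) X (A - X)
  rw [add_sub_cancel, ← eval₂_eq_eval_map, eval_map, ← comp, ← comp, comp_X, derivative_map,
    eval_map, ← comp, comp_X] at hk
  have h1 : Ψ.comp A - Ψ = (A - X) * (derivative Ψ + k * (A - X)) := by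
    rw [hk]; ring
  rw [h1] at h
  refine Prime.pow_dvd_of_dvd_mul_right prime_X M ?_ h
  intro hd
  rw [X_dvd_iff, coeff_add, mul_coeff_zero, coeff_sub, hA, coeff_X_zero, sub_zero, mul_zero,
    add_zero, coeff_derivative, zero_add, hΨ1] at hd
  norm_num at hd

theorem exists_order {G : ℂ[X]} {lam : ℂ} {q : ℕ} (hq : 0 < q) (hlam : lam ^ q = 1)
    (hG0 : G.coeff 0 = 0) (hdeg : 2 ≤ G.natDegree) :
    ∃ M : ℕ, ¬ ∃ Ψ : ℂ[X], Ψ.coeff 0 = 0 ∧ Ψ.coeff 1 = 1 ∧ X ^ (M + 1) ∣ Ψ.comp G - C lam * Ψ := by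
  by_contra hcon
  push Not at hcon
  obtain ⟨Ψ, h0, h1, h2⟩ := hcon ((it G q).natDegree + 1)
  have h3 := it_conj hG0 h2 q
  rw [hlam, C_1, one_mul] at h3
  have h4 := conj_sub h1 (it_coeff hG0 q) h3
  have h5 : (it G q).natDegree = G.natDegree ^ q := it_deg G q
  have h6 : 2 ≤ (it G q).natDegree := by
    rw [h5]
    calc 2 ≤ G.natDegree := hdeg
      _ = G.natDegree ^ 1 := (pow_one _).symm
      _ ≤ G.natDegree ^ q := Nat.pow_le_pow_right (by omega) hq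
  have h7 : it G q - X = 0 := by
    by_contra hne
    have h8 := Polynomial.natDegree_le_of_dvd h4 hne
    rw [natDegree_X_pow] at h8
    have h9 := natDegree_sub_le (it G q) X
    rw [natDegree_X] at h9
    omega
  rw [sub_eq_zero] at h7
  rw [h7, natDegree_X] at h6
  omega

theorem exists_normal {G : ℂ[X]} {lam : ℂ} {q : ℕ} (hq : 0 < q) (hlam : IsPrimitiveRoot lam q)
    (hG0 : G.coeff 0 = 0) (hG1 : G.coeff 1 = lam) (hdeg : 2 ≤ G.natDegree) :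
    ∃ (N : ℕ) (Ψ : ℂ[X]) (β : ℂ), 0 < N ∧ q ∣ N ∧ Ψ.coeff 0 = 0 ∧ Ψ.coeff 1 = 1 ∧ β ≠ 0 ∧
      X ^ (N + 2) ∣ Ψ.comp G - C lam * Ψ - C β * X ^ (N + 1) := by
  classical
  have hex := exists_order hq hlam.pow_eq_one hG0 hdeg
  obtain ⟨M, hM⟩ : ∃ M, M = Nat.find hex := ⟨_, rfl⟩
  have hspec := Nat.find_spec hex
  rw [← hM] at hspec
  have hlow : ∀ m < M, ∃ Ψ : ℂ[X], Ψ.coeff 0 = 0 ∧ Ψ.coeff 1 = 1 ∧
      X ^ (m + 1) ∣ Ψ.comp G - C lam * Ψ := by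
    intro m hm
    rw [hM] at hm
    exact not_not.1 (Nat.find_min hex hm)
  have hM2 : 2 ≤ M := by
    by_contra hcon
    apply hspec
    refine ⟨X, coeff_X_zero, coeff_X_one, ?_⟩
    refine dvd_trans (pow_dvd_pow X (show M + 1 ≤ 2 by omega)) ?_
    rw [X_comp, X_pow_dvd_iff]
    intro d hd
    interval_cases d
    · simp [hG0]
    · simp [hG1]
  obtain ⟨Ψ, h0, h1, h2⟩ := hlow (M - 1) (by omega)
  obtain ⟨N, rfl⟩ : ∃ N, M = N + 1 := ⟨M - 1, by omega⟩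
  rw [Nat.add_sub_cancel] at h2
  obtain ⟨R, hR⟩ : ∃ R, R = Ψ.comp G - C lam * Ψ := ⟨_, rfl⟩
  rw [← hR] at h2
  have hNdvd : ∀ {A : ℂ[X]}, X ^ (N + 1) ∣ A → X ^ (N + 2) ∣ A - C (A.coeff (N + 1)) * X ^ (N + 1) := by
    intro A hA
    rw [X_pow_dvd_iff] at hA ⊢
    intro d hd
    rw [coeff_sub, coeff_C_mul, coeff_X_pow]
    rcases Nat.lt_succ_iff_lt_or_eq.1 hd with h3 | h3
    · rw [hA d h3, if_neg (by omega)]; ring
    · rw [h3, if_pos rfl]; ring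
  refine ⟨N, Ψ, R.coeff (N + 1), by omega, ?_, h0, h1, ?_, ?_⟩
  · -- divisibility
    by_contra hqN
    have hne : lam ^ (N + 1) - lam ≠ 0 := by
      intro h
      apply hqN
      rw [← hlam.pow_eq_one_iff_dvd]
      have hl0 : lam ≠ 0 := hlam.ne_zero (by omega)
      have h5 : lam * (lam ^ N - 1) = 0 := by rw [← h]; ring
      rcases mul_eq_zero.1 h5 with h6 | h6
      · exact absurd h6 hl0
      · linear_combination h6
    apply hspec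
    obtain ⟨t, ht⟩ : ∃ t, t = -R.coeff (N + 1) / (lam ^ (N + 1) - lam) := ⟨_, rfl⟩
    refine ⟨Ψ + C t * X ^ (N + 1), ?_, ?_, ?_⟩
    · rw [coeff_add, h0, coeff_C_mul, coeff_X_pow, if_neg (by omega)]; ring
    · rw [coeff_add, h1, coeff_C_mul, coeff_X_pow, if_neg (by omega)]; ring
    · have h6 : (Ψ + C t * X ^ (N + 1)).comp G - C lam * (Ψ + C t * X ^ (N + 1)) =
          R + C t * (G ^ (N + 1) - C lam * X ^ (N + 1)) := by
        rw [hR, add_comp, mul_comp, C_comp, pow_comp, X_comp]; ring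
      rw [h6]
      obtain ⟨G₁, hG₁⟩ := X_dvd_iff.2 hG0
      have hG₁0 : G₁.coeff 0 = lam := by
        rw [← hG1, hG₁, coeff_X_mul]
      have h7 : X ^ (N + 1) ∣ G ^ (N + 1) := pow_dvd_pow_of_dvd ⟨G₁, hG₁⟩ _
      have h8 : (G ^ (N + 1)).coeff (N + 1) = lam ^ (N + 1) := by
        rw [hG₁, mul_pow, coeff_X_pow_mul', if_pos le_rfl, Nat.sub_self, coeff_zero_eq_eval_zero,
          eval_pow, ← coeff_zero_eq_eval_zero, hG₁0]
      have h9 := hNdvd h7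
      rw [h8] at h9
      have h10 := hNdvd h2
      have h11 : R + C t * (G ^ (N + 1) - C lam * X ^ (N + 1)) =
          (R - C (R.coeff (N + 1)) * X ^ (N + 1)) +
            C t * (G ^ (N + 1) - C (lam ^ (N + 1)) * X ^ (N + 1)) +
            C (R.coeff (N + 1) + t * (lam ^ (N + 1) - lam)) * X ^ (N + 1) := by
        simp only [C_add, C_mul, C_sub]
        ring
      have h12 : R.coeff (N + 1) + t * (lam ^ (N + 1) - lam) = 0 := by
        rw [ht]; field_simp; ring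
      rw [h11, h12, C_0, zero_mul, add_zero]
      exact dvd_add h10 (Dvd.dvd.mul_left h9 _)
  · intro hβ
    apply hspec
    refine ⟨Ψ, h0, h1, ?_⟩
    rw [← hR]
    have h3 := hNdvd h2
    rwa [hβ, C_0, zero_mul, sub_zero] at h3
  · rw [← hR]
    exact hNdvd h2

/-- The normal form: `P = κ Ψ ^ N` satisfies `1 / P (G w) = 1 / P w + 1 + O(w)`. -/
structure IsNF (G Ψ : ℂ[X]) (lam κ : ℂ) (N : ℕ) : Prop where
  pos : 0 < N
  kne : κ ≠ 0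
  lam : lam ^ N = 1
  psi : ∃ B : ℂ[X], Ψ = X * (1 + X * B)
  dvd : X ^ (2 * N + 1) ∣ C κ * Ψ ^ N - (1 + C κ * Ψ ^ N) * (C κ * Ψ ^ N).comp G

theorem one_add_pow (B : ℂ[X]) (n : ℕ) : ∃ B' : ℂ[X], (1 + X * B) ^ n = 1 + X * B' := by
  induction n with
  | zero => exact ⟨0, by simp⟩
  | succ n ih =>
    obtain ⟨B', h⟩ := ih
    exact ⟨B + B' + X * B * B', by rw [pow_succ, h]; ring⟩

theorem exists_nf {G : ℂ[X]} {lam : ℂ} {q : ℕ} (hq : 0 < q) (hlam : IsPrimitiveRoot lam q)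
    (hG0 : G.coeff 0 = 0) (hG1 : G.coeff 1 = lam) (hdeg : 2 ≤ G.natDegree) :
    ∃ (N : ℕ) (Ψ : ℂ[X]) (κ : ℂ), q ∣ N ∧ IsNF G Ψ lam κ N := by
  obtain ⟨N, Ψ, β, hN, hqN, h0, h1, hβ, hdvd⟩ := exists_normal hq hlam hG0 hG1 hdeg
  have hl0 : lam ≠ 0 := hlam.ne_zero (by omega)
  have hlN : lam ^ N = 1 := (hlam.pow_eq_one_iff_dvd N).2 hqN
  obtain ⟨n, rfl⟩ : ∃ n, N = n + 1 := ⟨N - 1, by omega⟩
  have hκe : -((n + 1 : ℕ) : ℂ) * β * lam ^ n + ((n + 1 : ℕ) : ℂ) * lam ^ n * β = 0 := by ring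
  have hΨ : ∃ B : ℂ[X], Ψ = X * (1 + X * B) := by
    obtain ⟨A, hA⟩ := X_dvd_iff.2 h0
    have hA0 : A.coeff 0 = 1 := by rw [← h1, hA, coeff_X_mul]
    obtain ⟨B, hB⟩ := X_dvd_iff.2 (show (A - 1).coeff 0 = 0 by simp [hA0])
    exact ⟨B, by rw [hA, ← hB]; ring⟩
  refine ⟨n + 1, Ψ, -((n + 1 : ℕ) : ℂ) * β * lam ^ n, hqN, by omega, ?_, hlN, hΨ, ?_⟩
  · refine mul_ne_zero (mul_ne_zero (neg_ne_zero.2 (Nat.cast_ne_zero.2 (by omega))) hβ)
      (pow_ne_zero _ hl0)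
  obtain ⟨κ, hκ⟩ : ∃ κ, κ = -((n + 1 : ℕ) : ℂ) * β * lam ^ n := ⟨_, rfl⟩
  rw [← hκ]
  rw [← hκ] at hκe
  obtain ⟨B, hB⟩ := hΨ
  obtain ⟨A, hA⟩ := hdvd
  have hA' : Ψ.comp G = C lam * X * (1 + X * B) + X ^ (n + 2) * (C β + X * A) := by
    have : Ψ.comp G = C lam * Ψ + C β * X ^ (n + 1 + 1) + X ^ (n + 1 + 2) * A := by
      rw [← hA]; ring
    rw [this, hB]; ring
  obtain ⟨B₁, hB₁⟩ := one_add_pow B (n + 1)
  obtain ⟨B₂, hB₂⟩ := one_add_pow B n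
  obtain ⟨k, hk⟩ := Polynomial.powAddExpansion (C lam * X * (1 + X * B))
    (X ^ (n + 2) * (C β + X * A)) (n + 1)
  have e1 : (C lam * X * (1 + X * B)) ^ (n + 1) = X ^ (n + 1) * (1 + X * B₁) := by
    rw [mul_pow, mul_pow, hB₁, ← C_pow, hlN, C_1, one_mul]
  have e2 : (C lam * X * (1 + X * B)) ^ (n + 1 - 1) = C (lam ^ n) * X ^ n * (1 + X * B₂) := by
    rw [Nat.add_sub_cancel, mul_pow, mul_pow, hB₂, ← C_pow]
  rw [e1, e2, ← hA'] at hk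
  have e3 : Ψ ^ (n + 1) = X ^ (n + 1) * (1 + X * B₁) := by rw [hB, mul_pow, hB₁]
  have e4 : (C κ * Ψ ^ (n + 1)).comp G = C κ * (X ^ (n + 1) * (1 + X * B₁) +
      ((n + 1 : ℕ) : ℂ[X]) * (C (lam ^ n) * X ^ n * (1 + X * B₂)) *
        (X ^ (n + 2) * (C β + X * A)) + k * (X ^ (n + 2) * (C β + X * A)) ^ 2) := by
    rw [mul_comp, C_comp, pow_comp, hk]
  rw [e4, e3]
  have hκC : C κ + ((n + 1 : ℕ) : ℂ[X]) * C (lam ^ n) * C β = 0 := by
    rw [← C_eq_natCast, ← C_mul, ← C_mul, ← C_add, hκe, C_0]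
  refine ⟨-(C κ * (C κ * (2 * B₁ + X * B₁ ^ 2)) + C κ * ((n + 1 : ℕ) : ℂ[X]) * C (lam ^ n) *
      (A + B₂ * (C β + X * A)) + C κ * k * X * (C β + X * A) ^ 2 +
      C κ * X ^ n * (1 + X * B₁) * C κ * (((n + 1 : ℕ) : ℂ[X]) * C (lam ^ n) * (1 + X * B₂) *
        (C β + X * A) + k * X ^ 2 * (C β + X * A) ^ 2)), ?_⟩
  linear_combination (-(C κ * X ^ (2 * n + 2))) * hκC

end Pool.Agent.H13RP
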