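import Pool.Agent.H13RP.Esc
import Pool.Agent.H13MU.Min

set_option autoImplicit false

/-! # The parameter `c = α - α ^ d` near a parabolic parameter -/

namespace Pool.Agent.H13RP

open Polynomial Metric Filter Topology Pool.Agent.H712R2 N62a1eb23

/-- the parameter as a function of `ε`, where `α = a e^{ε / (d - 1)}` -/
noncomputable def Cc (d : ℕ) (a ε : ℂ) : ℂ :=
  a * Complex.exp (ε / (d - 1)) - (a * Complex.exp (ε / (d - 1))) ^ d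

theorem Cc_zero (d : ℕ) (a : ℂ) : Cc d a 0 = a - a ^ d := by simp [Cc]

theorem exp_pow_pred {d : ℕ} (hd : 2 ≤ d) (ε : ℂ) :
    Complex.exp (ε / (d - 1)) ^ d = Complex.exp (ε / (d - 1)) * Complex.exp ε := by
  obtain ⟨k, rfl⟩ : ∃ k, d = k + 1 := ⟨d - 1, by omega⟩
  have hk : (k : ℂ) ≠ 0 := Nat.cast_ne_zero.2 (by omega)
  have h1 : ((k + 1 : ℕ) : ℂ) - 1 = k := by push_cast; ring
  rw [h1, pow_succ, ← Complex.exp_nat_mul, mul_div_cancel₀ _ hk, mul_comm]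

theorem P_conj' {d : ℕ} (hd : 2 ≤ d) (a ε : ℂ) (n : ℕ) :
    P d n (Cc d a ε) = Complex.exp (ε / (d - 1)) * (a + W d a (Complex.exp ε) n) := by
  induction n with
  | zero => rw [P_zero, W]; ring
  | succ n ih =>
    rw [P_succ, ih, W_succ, Gp_eval, Cc, mul_pow, mul_pow, exp_pow_pred hd]
    ring

/-- the size of the parameter change -/
def IsPar (d : ℕ) (a : ℂ) (A : ℝ) (p : ℕ) : Prop :=
  0 < A ∧ 1 ≤ p ∧ p ≤ 2 ∧ ∀ κ : ℝ, 0 < κ → ∃ τ : ℝ, 0 < τ ∧ ∀ ε : ℂ, ‖ε‖ ≤ τ →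
    (1 - κ) * (A * ‖ε‖ ^ p) ≤ ‖Cc d a ε - Cc d a 0‖ ∧
      ‖Cc d a ε - Cc d a 0‖ ≤ (1 + κ) * (A * ‖ε‖ ^ p)

theorem Cc_deriv {d : ℕ} (hd : 2 ≤ d) (a : ℂ) :
    HasDerivAt (Cc d a) (a * (1 - d * a ^ (d - 1)) / (d - 1)) 0 := by
  have h1 : HasDerivAt (fun ε : ℂ => a * Complex.exp (ε / ((d : ℂ) - 1)))
      (a * (Complex.exp (0 / ((d : ℂ) - 1)) * (1 / ((d : ℂ) - 1)))) 0 :=
    (((hasDerivAt_id (0 : ℂ)).div_const _).cexp).const_mul a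
  have h2 := h1.sub (h1.pow d)
  refine h2.congr_deriv ?_
  obtain ⟨k, rfl⟩ : ∃ k, d = k + 1 := ⟨d - 1, by omega⟩
  simp only [zero_div, Complex.exp_zero, mul_one, Nat.add_sub_cancel]
  ring

theorem par_one {d : ℕ} (hd : 2 ≤ d) {a : ℂ} (ha : a ≠ 0) (hl : (d : ℂ) * a ^ (d - 1) ≠ 1) :
    IsPar d a (‖a‖ * ‖1 - d * a ^ (d - 1)‖ / (d - 1)) 1 := by
  have hd1 : (1 : ℝ) < d := by exact_mod_cast (show 1 < d by omega)
  have ha' : 0 < ‖a‖ := norm_pos_iff.2 ha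
  have hl' : 0 < ‖1 - (d : ℂ) * a ^ (d - 1)‖ := norm_pos_iff.2 (sub_ne_zero.2 (Ne.symm hl))
  obtain ⟨A, hA⟩ : ∃ A, A = ‖a‖ * ‖1 - d * a ^ (d - 1)‖ / (d - 1) := ⟨_, rfl⟩
  have hA0 : 0 < A := by rw [hA]; exact div_pos (mul_pos ha' hl') (by linarith)
  have hnorm : ‖a * (1 - d * a ^ (d - 1)) / (d - 1)‖ = A := by
    rw [norm_div, norm_mul, hA]
    congr 1
    rw [show (d : ℂ) - 1 = ((d - 1 : ℝ) : ℂ) by push_cast; ring, Complex.norm_real,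
      Real.norm_of_nonneg (by linarith)]
  rw [← hA]
  refine ⟨hA0, le_rfl, by norm_num, fun κ hκ => ?_⟩
  have h1 := (hasDerivAt_iff_isLittleO.1 (Cc_deriv hd a)).def (c := κ * A) (by positivity)
  obtain ⟨τ, hτ, hτ1⟩ := Metric.eventually_nhds_iff.1 h1
  refine ⟨τ / 2, by positivity, fun ε hε => ?_⟩
  have h2 := hτ1 (y := ε) (by rw [dist_zero_right]; linarith)
  rw [sub_zero, smul_eq_mul] at h2
  have h3 : ‖ε * (a * (1 - d * a ^ (d - 1)) / (d - 1))‖ = A * ‖ε‖ := by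
    rw [norm_mul, hnorm]; ring
  have h4 := norm_sub_norm_le (ε * (a * (1 - d * a ^ (d - 1)) / (d - 1)))
    (Cc d a ε - Cc d a 0)
  have h5 := norm_sub_norm_le (Cc d a ε - Cc d a 0)
    (ε * (a * (1 - d * a ^ (d - 1)) / (d - 1)))
  rw [norm_sub_rev (ε * (a * (1 - d * a ^ (d - 1)) / (d - 1))) (Cc d a ε - Cc d a 0)] at h4
  rw [h3] at h4 h5
  rw [pow_one]
  constructor
  · have : (1 - κ) * (A * ‖ε‖) = A * ‖ε‖ - κ * A * ‖ε‖ := by ring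
    linarith
  · have : (1 + κ) * (A * ‖ε‖) = A * ‖ε‖ + κ * A * ‖ε‖ := by ring
    linarith

theorem exp_three {x : ℂ} (hx : ‖x‖ ≤ 1) : ‖Complex.exp x - 1 - x - x ^ 2 / 2‖ ≤ ‖x‖ ^ 3 := by
  have h1 := Complex.exp_bound hx (n := 3) (by norm_num)
  have h2 : ∑ m ∈ Finset.range 3, x ^ m / (m.factorial : ℂ) = 1 + x + x ^ 2 / 2 := by
    simp [Finset.sum_range_succ, Nat.factorial]
  rw [h2] at h1
  have h3 : Complex.exp x - 1 - x - x ^ 2 / 2 = Complex.exp x - (1 + x + x ^ 2 / 2) := by ring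
  rw [h3]
  refine h1.trans ?_
  have h4 : ((Nat.succ 3 : ℕ) : ℝ) * (((Nat.factorial 3 : ℕ) : ℝ) * ((3 : ℕ) : ℝ))⁻¹ ≤ 1 := by
    norm_num [Nat.factorial]
  calc ‖x‖ ^ 3 * (((Nat.succ 3 : ℕ) : ℝ) * (((Nat.factorial 3 : ℕ) : ℝ) * ((3 : ℕ) : ℝ))⁻¹) ≤
      ‖x‖ ^ 3 * 1 := mul_le_mul_of_nonneg_left h4 (by positivity)
    _ = ‖x‖ ^ 3 := mul_one _

theorem par_two {d : ℕ} (hd : 2 ≤ d) {a : ℂ} (ha : a ≠ 0) (hl : (d : ℂ) * a ^ (d - 1) = 1) :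
    IsPar d a (‖a‖ / (2 * (d - 1))) 2 := by
  have hd1 : (1 : ℝ) < d := by exact_mod_cast (show 1 < d by omega)
  have hd2 : (1 : ℝ) ≤ d - 1 := by
    have : (2 : ℝ) ≤ d := by exact_mod_cast hd
    linarith
  have ha' : 0 < ‖a‖ := norm_pos_iff.2 ha
  have hdc : (d : ℂ) ≠ 0 := Nat.cast_ne_zero.2 (by omega)
  have hd1c : (d : ℂ) - 1 ≠ 0 := by
    rw [sub_ne_zero]
    exact_mod_cast (show d ≠ 1 by omega)
  have had : a ^ d = a / d := by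
    obtain ⟨k, rfl⟩ : ∃ k, d = k + 1 := ⟨d - 1, by omega⟩
    rw [Nat.add_sub_cancel] at hl
    rw [eq_div_iff hdc, pow_succ]
    linear_combination a * hl
  obtain ⟨A, hA⟩ : ∃ A, A = ‖a‖ / (2 * (d - 1)) := ⟨_, rfl⟩
  have hA0 : 0 < A := by rw [hA]; exact div_pos ha' (by linarith)
  rw [← hA]
  refine ⟨hA0, by norm_num, le_rfl, fun κ hκ => ?_⟩
  obtain ⟨M, hM⟩ : ∃ M, M = ‖a‖ * (1 + (d : ℝ) ^ 2) := ⟨_, rfl⟩
  have hM0 : 0 < M := by rw [hM]; positivity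
  refine ⟨min (1 / d) (κ * A / M), by positivity, fun ε hε => ?_⟩
  have hε1 : ‖ε‖ ≤ 1 / d := hε.trans (min_le_left _ _)
  have hε2 : ‖ε‖ ≤ κ * A / M := hε.trans (min_le_right _ _)
  obtain ⟨u, hu⟩ : ∃ u, u = ε / ((d : ℂ) - 1) := ⟨_, rfl⟩
  have hun : ‖u‖ ≤ ‖ε‖ := by
    rw [hu, norm_div]
    apply div_le_self (norm_nonneg _)
    rw [show (d : ℂ) - 1 = ((d - 1 : ℝ) : ℂ) by push_cast; ring, Complex.norm_real,
      Real.norm_of_nonneg (by linarith)]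
    exact hd2
  have hdu : ‖(d : ℂ) * u‖ ≤ 1 := by
    rw [norm_mul, Complex.norm_natCast]
    calc (d : ℝ) * ‖u‖ ≤ d * (1 / d) :=
          mul_le_mul_of_nonneg_left (hun.trans hε1) (by linarith)
      _ = 1 := by field_simp
  have hu1 : ‖u‖ ≤ 1 := by
    have h1 : 1 / (d : ℝ) ≤ 1 := by rw [div_le_one (by linarith)]; exact hd1.le
    linarith
  have e1 := exp_three hu1
  have e2 := exp_three hdu
  obtain ⟨E₁, hE₁⟩ : ∃ E₁, E₁ = Complex.exp u - 1 - u - u ^ 2 / 2 := ⟨_, rfl⟩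
  obtain ⟨E₂, hE₂⟩ : ∃ E₂, E₂ = Complex.exp (d * u) - 1 - d * u - (d * u) ^ 2 / 2 := ⟨_, rfl⟩
  rw [← hE₁] at e1
  rw [← hE₂] at e2
  have hmain : Cc d a ε - Cc d a 0 = -(a * ε ^ 2 / (2 * ((d : ℂ) - 1))) + a * (E₁ - E₂ / d) := by
    rw [Cc_zero, Cc, ← hu, mul_pow, ← Complex.exp_nat_mul, had, hE₁, hE₂]
    have h1 : ε = ((d : ℂ) - 1) * u := by rw [hu]; field_simp
    rw [h1]
    field_simp
    ring
  have herr : ‖a * (E₁ - E₂ / d)‖ ≤ κ * (A * ‖ε‖ ^ 2) := by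
    have h1 : ‖E₁ - E₂ / d‖ ≤ (1 + (d : ℝ) ^ 2) * ‖ε‖ ^ 3 := by
      refine (norm_sub_le _ _).trans ?_
      have h2 : ‖E₂ / d‖ ≤ (d : ℝ) ^ 2 * ‖ε‖ ^ 3 := by
        rw [norm_div, Complex.norm_natCast, div_le_iff₀ (by linarith)]
        refine e2.trans ?_
        rw [norm_mul, Complex.norm_natCast, mul_pow]
        calc (d : ℝ) ^ 3 * ‖u‖ ^ 3 ≤ (d : ℝ) ^ 3 * ‖ε‖ ^ 3 := by gcongr
          _ = (d : ℝ) ^ 2 * ‖ε‖ ^ 3 * d := by ring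
      have h3 : ‖E₁‖ ≤ ‖ε‖ ^ 3 := e1.trans (by gcongr)
      calc ‖E₁‖ + ‖E₂ / d‖ ≤ ‖ε‖ ^ 3 + (d : ℝ) ^ 2 * ‖ε‖ ^ 3 := add_le_add h3 h2
        _ = _ := by ring
    rw [norm_mul]
    calc ‖a‖ * ‖E₁ - E₂ / d‖ ≤ ‖a‖ * ((1 + (d : ℝ) ^ 2) * ‖ε‖ ^ 3) :=
          mul_le_mul_of_nonneg_left h1 ha'.le
      _ = M * ‖ε‖ * ‖ε‖ ^ 2 := by rw [hM]; ring
      _ ≤ (κ * A) * ‖ε‖ ^ 2 := by
          apply mul_le_mul_of_nonneg_right _ (by positivity)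
          rw [le_div_iff₀ hM0] at hε2
          linarith
      _ = κ * (A * ‖ε‖ ^ 2) := by ring
  have hmn : ‖a * ε ^ 2 / (2 * ((d : ℂ) - 1))‖ = A * ‖ε‖ ^ 2 := by
    rw [norm_div, norm_mul, norm_pow, norm_mul, Complex.norm_ofNat,
      show (d : ℂ) - 1 = ((d - 1 : ℝ) : ℂ) by push_cast; ring, Complex.norm_real,
      Real.norm_of_nonneg (by linarith), hA]
    ring
  rw [hmain]
  have h4 := norm_add_le (-(a * ε ^ 2 / (2 * ((d : ℂ) - 1)))) (a * (E₁ - E₂ / d))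
  have h5 := norm_sub_norm_le (-(a * ε ^ 2 / (2 * ((d : ℂ) - 1)))) (-(a * (E₁ - E₂ / d)))
  rw [sub_neg_eq_add, norm_neg (a * (E₁ - E₂ / d))] at h5
  rw [norm_neg, hmn] at h4 h5
  constructor
  · have : (1 - κ) * (A * ‖ε‖ ^ 2) = A * ‖ε‖ ^ 2 - κ * (A * ‖ε‖ ^ 2) := by ring
    linarith
  · have : (1 + κ) * (A * ‖ε‖ ^ 2) = A * ‖ε‖ ^ 2 + κ * (A * ‖ε‖ ^ 2) := by ring
    linarith

/-- every parameter near the parabolic one is of the form `Cc d a ε` -/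
theorem par_surj {d : ℕ} {a : ℂ} {A : ℝ} {p : ℕ} (h : IsPar d a A p) {τ : ℝ}
    (hτ : 0 < τ) : ∃ ρ : ℝ, 0 < ρ ∧ ∀ c : ℂ, ‖c - Cc d a 0‖ ≤ ρ → ∃ ε : ℂ, ‖ε‖ ≤ τ ∧ Cc d a ε = c := by
  obtain ⟨hA, hp1, -, hP⟩ := h
  have han : AnalyticAt ℂ (Cc d a) 0 := by
    have h1 : Differentiable ℂ (Cc d a) := by
      unfold Cc
      fun_prop
    exact (h1.analyticAt 0)
  rcases han.eventually_constant_or_nhds_le_map_nhds with h1 | h1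
  · exfalso
    obtain ⟨τ₁, hτ₁, hτ₂⟩ := hP (1 / 2) (by norm_num)
    obtain ⟨τ₃, hτ₃, hτ₄⟩ := Metric.eventually_nhds_iff.1 h1
    obtain ⟨x, hx⟩ : ∃ x, x = min τ₁ (τ₃ / 2) := ⟨_, rfl⟩
    have hx0 : 0 < x := by rw [hx]; positivity
    have hxn : ‖(x : ℂ)‖ = x := by rw [Complex.norm_real, Real.norm_of_nonneg hx0.le]
    have h2 := hτ₄ (y := (x : ℂ)) (by
      rw [dist_zero_right, hxn, hx]
      exact (min_le_right _ _).trans_lt (by linarith))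
    have h3 := (hτ₂ (x : ℂ) (by rw [hxn, hx]; exact min_le_left _ _)).1
    rw [h2, sub_self, norm_zero, hxn] at h3
    have : 0 < (1 - 1 / 2) * (A * x ^ p) := by positivity
    linarith
  · have h2 : Cc d a '' closedBall 0 τ ∈ 𝓝 (Cc d a 0) := h1 (image_mem_map (closedBall_mem_nhds 0 hτ))
    obtain ⟨ρ, hρ, hρ1⟩ := Metric.nhds_basis_closedBall.mem_iff.1 h2
    refine ⟨ρ, hρ, fun c hc => ?_⟩
    obtain ⟨ε, hε, h3⟩ := hρ1 (by rwa [mem_closedBall, dist_eq_norm])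
    exact ⟨ε, by rwa [mem_closedBall_zero_iff] at hε, h3⟩

end Pool.Agent.H13RP
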