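import Pool.Agent.H13RP.Loc

set_option autoImplicit false

/-! # Petals of a parabolic fixed point -/

namespace Pool.Agent.H13RP

open Polynomial Metric Filter Topology

/-- local inverse of a polynomial tangent to the identity -/
theorem exists_inverse (Ψ : ℂ[X]) (h0 : Ψ.eval 0 = 0) (h1 : (derivative Ψ).eval 0 = 1) :
    ∃ Θ : ℂ → ℂ, (∀ᶠ y in 𝓝 (0 : ℂ), DifferentiableAt ℂ Θ y ∧ Ψ.eval (Θ y) = y) ∧
      Tendsto Θ (𝓝 0) (𝓝 0) ∧ ∀ᶠ w in 𝓝 (0 : ℂ), Θ (Ψ.eval w) = w := by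
  have hc : ContDiffAt ℂ 1 (fun z => Ψ.eval z) 0 := Ψ.differentiable.contDiff.contDiffAt
  have hd : HasDerivAt (fun z => Ψ.eval z) 1 0 := by
    have := Ψ.hasDerivAt 0
    rwa [h1] at this
  have hf : HasFDerivAt (fun z => Ψ.eval z)
      ((ContinuousLinearEquiv.refl ℂ ℂ : ℂ ≃L[ℂ] ℂ) : ℂ →L[ℂ] ℂ) 0 := by
    have e : ((ContinuousLinearEquiv.refl ℂ ℂ : ℂ ≃L[ℂ] ℂ) : ℂ →L[ℂ] ℂ) =
        ContinuousLinearMap.toSpanSingleton ℂ 1 := by
      ext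
      simp
    rw [e]
    exact hd.hasFDerivAt
  have hs := hc.hasStrictFDerivAt' hf (by norm_num)
  refine ⟨hc.localInverse hf (by norm_num), ?_, ?_, ?_⟩
  · have h2 := hc.to_localInverse hf (by norm_num)
    have h3 := h2.eventually (by norm_num)
    have h4 := hs.eventually_right_inverse
    simp only [h0] at h3 h4
    filter_upwards [h3, h4] with y hy1 hy2
    exact ⟨hy1.differentiableAt (by norm_num), hy2⟩
  · have h2 := hs.localInverse_tendsto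
    simp only [h0] at h2
    exact h2
  · exact hs.eventually_left_inverse

/-- the coordinate `1 / P` -/
noncomputable def FF (Ψ : ℂ[X]) (κ : ℂ) (N : ℕ) (w : ℂ) : ℂ := (PF Ψ κ N w)⁻¹

/-- the attracting region -/
def Pet (Ψ : ℂ[X]) (κ : ℂ) (N : ℕ) (δ R : ℝ) : Set ℂ :=
  {w | w ≠ 0 ∧ ‖w‖ ≤ δ ∧ R < (FF Ψ κ N w).re}

section

variable {G Ψ : ℂ[X]} {lam κ : ℂ} {N : ℕ} {δ K : ℝ}

theorem IsLoc.P_ne (L : IsLoc G Ψ κ N δ K) {w : ℂ} (h0 : w ≠ 0) (h : ‖w‖ ≤ 2 * δ) :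
    PF Ψ κ N w ≠ 0 := by
  have h1 := L.lower w h
  have h2 : 0 < ‖w‖ ^ N / K := by
    have := L.one
    have : 0 < ‖w‖ := norm_pos_iff.2 h0
    positivity
  exact norm_pos_iff.1 (h2.trans_le h1)

/-- size of a point in terms of the coordinate -/
theorem IsLoc.size (L : IsLoc G Ψ κ N δ K) {w : ℂ} (h0 : w ≠ 0) (h : ‖w‖ ≤ 2 * δ) :
    ‖w‖ ^ N * ‖FF Ψ κ N w‖ ≤ K := by
  have h1 := L.lower w h
  have h2 := L.P_ne h0 h
  have h3 : 0 < ‖PF Ψ κ N w‖ := norm_pos_iff.2 h2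
  rw [FF, norm_inv, ← div_eq_mul_inv, div_le_iff₀ h3]
  have := L.one
  rw [div_le_iff₀ (by linarith)] at h1
  linarith

theorem IsLoc.size' (L : IsLoc G Ψ κ N δ K) {w : ℂ} (h0 : w ≠ 0) (h : ‖w‖ ≤ 2 * δ) :
    1 ≤ K * (‖w‖ ^ N * ‖FF Ψ κ N w‖) := by
  have h1 := L.upper w h
  have h2 := L.P_ne h0 h
  have h3 : 0 < ‖PF Ψ κ N w‖ := norm_pos_iff.2 h2
  rw [FF, norm_inv, ← div_eq_mul_inv, ← mul_div_assoc, le_div_iff₀ h3]
  linarith

theorem IsLoc.step1 (L : IsLoc G Ψ κ N δ K) {w : ℂ} (h0 : w ≠ 0) (h : ‖w‖ ≤ δ) :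
    ‖FF Ψ κ N (G.eval w) - (FF Ψ κ N w + 1)‖ ≤ K * ‖w‖ := by
  have h1 := L.step w 1 h0 h (by simp [L.pos.le])
  simpa [FF] using h1

/-- the region is invariant -/
theorem IsLoc.pet (L : IsLoc G Ψ κ N δ K) (hN : 0 < N) {ρ : ℝ} (hρ : 0 < ρ) :
    ∃ R₀ : ℝ, 1 ≤ R₀ ∧ ∀ R : ℝ, R₀ ≤ R → ∀ w ∈ Pet Ψ κ N δ R, ‖w‖ ≤ ρ ∧ G.eval w ∈ Pet Ψ κ N δ R ∧
      (FF Ψ κ N w).re + 3 / 4 ≤ (FF Ψ κ N (G.eval w)).re ∧ K * ‖w‖ ≤ 1 / 4 := by
  have hK := L.one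
  have hδ := L.pos
  obtain ⟨ρ', hρ'⟩ : ∃ ρ', ρ' = min ρ (min (δ / 2) (1 / (4 * K))) := ⟨_, rfl⟩
  have hρ'0 : 0 < ρ' := by rw [hρ']; positivity
  have hρ'1 : ρ' ≤ ρ := by rw [hρ']; exact min_le_left _ _
  have hρ'2 : ρ' ≤ δ / 2 := by rw [hρ']; exact (min_le_right _ _).trans (min_le_left _ _)
  have hρ'3 : ρ' ≤ 1 / (4 * K) := by rw [hρ']; exact (min_le_right _ _).trans (min_le_right _ _)
  refine ⟨max 1 (K / ρ' ^ N), le_max_left _ _, fun R hR w hw => ?_⟩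
  obtain ⟨hw0, hwδ, hwR⟩ := hw
  have hR1 : 1 ≤ R := (le_max_left _ _).trans hR
  have hR2 : K / ρ' ^ N ≤ R := (le_max_right _ _).trans hR
  have h1 := L.size hw0 (by linarith [norm_nonneg w])
  have h2 : R ≤ ‖FF Ψ κ N w‖ := hwR.le.trans (Complex.re_le_norm _)
  have h3 : ‖w‖ ≤ ρ' := by
    by_contra hcon
    push Not at hcon
    have h4 : ρ' ^ N < ‖w‖ ^ N := pow_lt_pow_left₀ hcon hρ'0.le hN.ne'
    have h5 : K ≤ R * ρ' ^ N := by rwa [div_le_iff₀ (by positivity)] at hR2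
    have h6 : R * ρ' ^ N < ‖FF Ψ κ N w‖ * ‖w‖ ^ N := by
      calc R * ρ' ^ N < R * ‖w‖ ^ N := mul_lt_mul_of_pos_left h4 (by linarith)
        _ ≤ ‖FF Ψ κ N w‖ * ‖w‖ ^ N := mul_le_mul_of_nonneg_right h2 (by positivity)
    linarith
  have h4 := L.step1 hw0 hwδ
  have h5 : K * ‖w‖ ≤ 1 / 4 := by
    calc K * ‖w‖ ≤ K * (1 / (4 * K)) := mul_le_mul_of_nonneg_left (h3.trans hρ'3) (by linarith)
      _ = 1 / 4 := by field_simp
  have h6 : (FF Ψ κ N w).re + 3 / 4 ≤ (FF Ψ κ N (G.eval w)).re := by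
    have h7 := Complex.abs_re_le_norm (FF Ψ κ N (G.eval w) - (FF Ψ κ N w + 1))
    have h8 := (abs_le.1 (h7.trans (h4.trans h5))).1
    simp only [Complex.sub_re, Complex.add_re, Complex.one_re] at h8
    linarith
  have hg1 := L.gup w 1 hwδ (by simp [hδ.le])
  have hg2 := L.glow w 1 hwδ (by simp [hδ.le])
  rw [one_mul] at hg1 hg2
  refine ⟨h3.trans hρ'1, ⟨?_, by linarith, by linarith⟩, h6, h5⟩
  have : 0 < ‖w‖ := norm_pos_iff.2 hw0
  exact norm_pos_iff.1 (by linarith)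

/-- the sector of a point -/
noncomputable def sec (Ψ : ℂ[X]) (κ κ' : ℂ) (N : ℕ) (w : ℂ) : ℂ :=
  κ' * Ψ.eval w * Complex.exp (Complex.log (FF Ψ κ N w) / N)

theorem sec_pow (L : IsLoc G Ψ κ N δ K) (hN : 0 < N) {κ' : ℂ} (hκ' : κ' ^ N = κ) {w : ℂ}
    (h0 : w ≠ 0) (h : ‖w‖ ≤ δ) : sec Ψ κ κ' N w ^ N = 1 := by
  have h1 := L.P_ne h0 (by linarith [norm_nonneg w])
  have hN0 : (N : ℂ) ≠ 0 := Nat.cast_ne_zero.2 hN.ne'
  have h2 : Complex.exp (Complex.log (FF Ψ κ N w)) = FF Ψ κ N w :=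
    Complex.exp_log (inv_ne_zero h1)
  rw [sec, mul_pow, mul_pow, hκ', ← Complex.exp_nat_mul, mul_div_cancel₀ _ hN0, h2]
  exact mul_inv_cancel₀ h1

theorem log_sub_le {z z' : ℂ} {R : ℝ} (hR : 0 < R) (hz : R < z.re) (hz' : R < z'.re) :
    ‖Complex.log z' - Complex.log z‖ ≤ R⁻¹ * ‖z' - z‖ := by
  have hconv : Convex ℝ {z : ℂ | R < z.re} := convex_halfSpace_re_gt R
  refine hconv.norm_image_sub_le_of_norm_deriv_le (𝕜 := ℂ) (f := Complex.log) ?_ ?_ hz hz'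
  · intro x hx
    exact Complex.differentiableAt_log (Or.inl (hR.trans hx))
  · intro x hx
    have hx0 : 0 < x.re := hR.trans hx
    rw [(Complex.hasDerivAt_log (Or.inl hx0)).deriv, norm_inv]
    exact inv_anti₀ hR (hx.le.trans (Complex.re_le_norm _))

theorem root_gap {N : ℕ} (hN : 0 < N) : ∃ ε : ℝ, 0 < ε ∧ ∀ x : ℂ, x ^ N = 1 → ‖x - 1‖ < ε → x = 1 := by
  have hfin : {x : ℂ | x ^ N = 1}.Finite := by
    have h1 : {x : ℂ | x ^ N = 1} ⊆ ↑(Polynomial.nthRoots N (1 : ℂ)).toFinset := by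
      intro x hx
      rw [Finset.mem_coe, Multiset.mem_toFinset, Polynomial.mem_nthRoots hN]
      exact hx
    exact (Finset.finite_toSet _).subset h1
  have h2 : IsClosed ({x : ℂ | x ^ N = 1} \ {1}) := (hfin.subset Set.diff_subset).isClosed
  have h3 : (1 : ℂ) ∈ ({x : ℂ | x ^ N = 1} \ {1})ᶜ := by simp
  obtain ⟨ε, hε, h4⟩ := Metric.isOpen_iff.1 h2.isOpen_compl 1 h3
  refine ⟨ε, hε, fun x hx hx1 => ?_⟩
  by_contra hne
  exact h4 (by rwa [mem_ball, dist_eq_norm]) ⟨hx, hne⟩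

theorem sec_step (L : IsLoc G Ψ κ N δ K) (h : IsNF G Ψ lam κ N) (hG0 : G.coeff 0 = 0)
    (hG1 : G.coeff 1 = lam) {κ' : ℂ} (hκ' : κ' ^ N = κ) :
    ∃ R₀ : ℝ, 1 ≤ R₀ ∧ ∀ R : ℝ, R₀ ≤ R → ∀ w ∈ Pet Ψ κ N δ R,
      sec Ψ κ κ' N (G.eval w) = lam * sec Ψ κ κ' N w := by
  have hlam0 : lam ≠ 0 := by
    intro h0
    have := h.lam
    rw [h0, zero_pow h.pos.ne'] at this
    norm_num at this
  obtain ⟨B, hB⟩ := h.psi
  obtain ⟨G₂, hG₂⟩ : ∃ G₂ : ℂ[X], G = X * (C lam + X * G₂) := by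
    obtain ⟨A, hA⟩ := X_dvd_iff.2 hG0
    have hA0 : A.coeff 0 = lam := by rw [← hG1, hA, coeff_X_mul]
    obtain ⟨B, hB⟩ := X_dvd_iff.2 (show (A - C lam).coeff 0 = 0 by simp [hA0])
    exact ⟨B, by rw [hA, ← hB]; ring⟩
  obtain ⟨ε, hε, hgap⟩ := root_gap h.pos
  -- continuity at the origin
  have hcont : Tendsto (fun p : ℂ × ℂ => (lam + p.1 * G₂.eval p.1) *
      (1 + G.eval p.1 * B.eval (G.eval p.1)) / (lam * (1 + p.1 * B.eval p.1)) *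
        Complex.exp p.2) (𝓝 (0, 0)) (𝓝 1) := by
    have hG00 : G.eval 0 = 0 := by rw [← coeff_zero_eq_eval_zero, hG0]
    have hca : ContinuousAt (fun p : ℂ × ℂ => (lam + p.1 * G₂.eval p.1) *
      (1 + G.eval p.1 * B.eval (G.eval p.1)) / (lam * (1 + p.1 * B.eval p.1)) *
        Complex.exp p.2) (0, 0) := by
      have c1 : Continuous fun p : ℂ × ℂ => G.eval p.1 := G.continuous.comp continuous_fst
      have c2 : Continuous fun p : ℂ × ℂ => G₂.eval p.1 := G₂.continuous.comp continuous_fst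
      have c3 : Continuous fun p : ℂ × ℂ => B.eval p.1 := B.continuous.comp continuous_fst
      have c4 : Continuous fun p : ℂ × ℂ => B.eval (G.eval p.1) := B.continuous.comp c1
      apply ContinuousAt.mul
      · apply ContinuousAt.div
        · fun_prop
        · fun_prop
        · simp [hlam0]
      · fun_prop
    have h1 := hca.tendsto
    simpa [hG00, hlam0] using h1
  obtain ⟨ρ, hρ, hρ1⟩ := Metric.eventually_nhds_iff.1
    (hcont.eventually (ball_mem_nhds (1 : ℂ) hε))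
  obtain ⟨R₁, hR₁1, hR₁⟩ := L.pet h.pos (ρ := ρ / 2) (by positivity)
  have hN1 : (1 : ℝ) ≤ N := by exact_mod_cast h.pos
  refine ⟨max R₁ (4 / ρ), hR₁1.trans (le_max_left _ _), fun R hR w hw => ?_⟩
  have hR1 : R₁ ≤ R := (le_max_left _ _).trans hR
  have hR2 : 4 / ρ ≤ R := (le_max_right _ _).trans hR
  obtain ⟨hwρ, hGw, hre, hKw⟩ := hR₁ R hR1 w hw
  have hR0 : 0 < R := by linarith
  have hw0 := hw.1
  have hGw0 := hGw.1
  have hΨe : ∀ w : ℂ, Ψ.eval w = w * (1 + w * B.eval w) := by intro w; rw [hB]; simp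
  have hGe : ∀ w : ℂ, G.eval w = w * (lam + w * G₂.eval w) := by intro w; rw [hG₂]; simp
  -- nonvanishing
  have hP0 := L.P_ne hw0 (by linarith [norm_nonneg w, hw.2.1])
  have hΨ0 : Ψ.eval w ≠ 0 := by
    intro h0
    apply hP0
    rw [PF, h0, zero_pow h.pos.ne', mul_zero]
  have hκ'0 : κ' ≠ 0 := by
    intro h0
    rw [h0, zero_pow h.pos.ne'] at hκ'
    exact h.kne hκ'.symm
  have hs0 : sec Ψ κ κ' N w ≠ 0 := mul_ne_zero (mul_ne_zero hκ'0 hΨ0) (Complex.exp_ne_zero _)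
  have hb0 : 1 + w * B.eval w ≠ 0 := by
    intro h0
    apply hΨ0
    rw [hΨe, h0, mul_zero]
  obtain ⟨x, hx⟩ : ∃ x, x = sec Ψ κ κ' N (G.eval w) / (lam * sec Ψ κ κ' N w) := ⟨_, rfl⟩
  have hxN : x ^ N = 1 := by
    rw [hx, div_pow, mul_pow, sec_pow L h.pos hκ' hw0 hw.2.1, sec_pow L h.pos hκ' hGw0 hGw.2.1,
      h.lam]
    norm_num
  have hx1 : x = (lam + w * G₂.eval w) * (1 + G.eval w * B.eval (G.eval w)) /
      (lam * (1 + w * B.eval w)) *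
      Complex.exp ((Complex.log (FF Ψ κ N (G.eval w)) - Complex.log (FF Ψ κ N w)) / N) := by
    rw [hx, sec, sec, hΨe (G.eval w), hΨe w, sub_div, Complex.exp_sub]
    have hex : Complex.exp (Complex.log (FF Ψ κ N w) / N) ≠ 0 := Complex.exp_ne_zero _
    have e1 : G.eval w * (1 + G.eval w * B.eval (G.eval w)) =
        w * ((lam + w * G₂.eval w) * (1 + G.eval w * B.eval (G.eval w))) := by
      nth_rewrite 1 [hGe w]
      ring
    rw [e1]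
    field_simp
  have hsmall : ‖(Complex.log (FF Ψ κ N (G.eval w)) - Complex.log (FF Ψ κ N w)) / N‖ < ρ := by
    rw [norm_div, Complex.norm_natCast]
    have h1 := log_sub_le hR0 hw.2.2 hGw.2.2
    have h2 : ‖FF Ψ κ N (G.eval w) - FF Ψ κ N w‖ ≤ 2 := by
      have h3 := L.step1 hw0 hw.2.1
      have h5 : FF Ψ κ N (G.eval w) - FF Ψ κ N w =
          (FF Ψ κ N (G.eval w) - (FF Ψ κ N w + 1)) + 1 := by ring
      rw [h5]
      refine (norm_add_le _ _).trans ?_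
      rw [norm_one]
      linarith
    have h3 : R⁻¹ * ‖FF Ψ κ N (G.eval w) - FF Ψ κ N w‖ ≤ ρ / 2 := by
      calc R⁻¹ * ‖FF Ψ κ N (G.eval w) - FF Ψ κ N w‖ ≤ R⁻¹ * 2 :=
            mul_le_mul_of_nonneg_left h2 (by positivity)
        _ ≤ (4 / ρ)⁻¹ * 2 := by
            apply mul_le_mul_of_nonneg_right _ (by norm_num)
            exact inv_anti₀ (by positivity) hR2
        _ = ρ / 2 := by field_simp; norm_num
    calc ‖Complex.log (FF Ψ κ N (G.eval w)) - Complex.log (FF Ψ κ N w)‖ / N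
        ≤ ‖Complex.log (FF Ψ κ N (G.eval w)) - Complex.log (FF Ψ κ N w)‖ :=
          div_le_self (norm_nonneg _) hN1
      _ ≤ ρ / 2 := h1.trans h3
      _ < ρ := by linarith
  have hmem := hρ1 (y := (w, (Complex.log (FF Ψ κ N (G.eval w)) - Complex.log (FF Ψ κ N w)) / N)) (by
    rw [Prod.dist_eq]
    simp only [dist_zero_right]
    exact max_lt (by linarith) hsmall)
  simp only at hmem
  rw [← hx1, dist_eq_norm] at hmem
  have hx2 := hgap x hxN hmem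
  rw [hx, div_eq_one_iff_eq (mul_ne_zero hlam0 hs0)] at hx2
  exact hx2

end

end Pool.Agent.H13RP
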