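import Pool.Agent.H13RP.Pet

set_option autoImplicit false

/-! # Every petal is visited by the critical orbit -/

namespace Pool.Agent.H13RP

open Polynomial Metric Filter Topology

/-- Holomorphic logarithm on a ball, with prescribed value at the centre. -/
theorem exists_log_ball {g : ℂ → ℂ} {c : ℂ} {r : ℝ} (hr : 0 < r)
    (hg : DifferentiableOn ℂ g (ball c r)) (h0 : ∀ z ∈ ball c r, g z ≠ 0)
    (l₀ : ℂ) (hl₀ : Complex.exp l₀ = g c) :
    ∃ ℓ : ℂ → ℂ, DifferentiableOn ℂ ℓ (ball c r) ∧ ℓ c = l₀ ∧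
      ∀ z ∈ ball c r, Complex.exp (ℓ z) = g z := by
  have hd : DifferentiableOn ℂ (fun z => deriv g z / g z) (ball c r) :=
    (hg.deriv isOpen_ball).div hg h0
  obtain ⟨Φ, hΦ⟩ := hd.isExactOn_ball
  have hcm : c ∈ ball c r := mem_ball_self hr
  have hℓ : ∀ z ∈ ball c r, HasDerivAt (fun z => Φ z - Φ c + l₀) (deriv g z / g z) z := by
    intro z hz
    exact ((hΦ z hz).sub_const _).add_const _
  refine ⟨fun z => Φ z - Φ c + l₀, ?_, by simp, ?_⟩
  · intro z hz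
    exact (hℓ z hz).differentiableAt.differentiableWithinAt
  · intro z hz
    have hgd : ∀ z ∈ ball c r, HasDerivAt g (deriv g z) z := by
      intro z hz
      exact (hg.differentiableAt (isOpen_ball.mem_nhds hz)).hasDerivAt
    have hh : ∀ z ∈ ball c r,
        HasDerivAt (fun z => g z * Complex.exp (-(Φ z - Φ c + l₀))) 0 z := by
      intro z hz
      have h1 := (hgd z hz).mul ((hℓ z hz).neg.cexp)
      have h2 : deriv g z * Complex.exp (-(Φ z - Φ c + l₀))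
          + g z * (Complex.exp (-(Φ z - Φ c + l₀)) * -(deriv g z / g z)) = 0 := by
        have := h0 z hz
        field_simp
        ring
      rw [← h2]
      exact h1
    have hconst := isOpen_ball.is_const_of_deriv_eq_zero (convex_ball c r).isPreconnected
      (fun z hz => (hh z hz).differentiableAt.differentiableWithinAt)
      (fun z hz => (hh z hz).deriv) hz hcm
    simp only [sub_self, zero_add] at hconst
    rw [← hl₀, ← Complex.exp_add, add_neg_cancel, Complex.exp_zero] at hconst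
    have h3 : Complex.exp (-(Φ z - Φ c + l₀)) ≠ 0 := Complex.exp_ne_zero _
    rw [Complex.exp_neg] at hconst
    have h4 : Complex.exp (Φ z - Φ c + l₀) ≠ 0 := Complex.exp_ne_zero _
    field_simp at hconst
    exact hconst.symm

section

variable {G Ψ : ℂ[X]} {lam κ : ℂ} {N : ℕ} {δ K : ℝ}

/-- parametrisation of the sectors by half planes -/
theorem exists_X (L : IsLoc G Ψ κ N δ K) (h : IsNF G Ψ lam κ N) {κ' : ℂ} (hκ' : κ' ^ N = κ) :
    ∃ Xf : ℂ → ℂ → ℂ, ∃ R₀ : ℝ, 1 ≤ R₀ ∧ ∀ R : ℝ, R₀ ≤ R →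
      (∀ s₀ : ℂ, s₀ ^ N = 1 → ∀ ζ : ℂ, R < ζ.re → DifferentiableAt ℂ (Xf s₀) ζ ∧
        Xf s₀ ζ ∈ Pet Ψ κ N δ R ∧ FF Ψ κ N (Xf s₀ ζ) = ζ ∧ sec Ψ κ κ' N (Xf s₀ ζ) = s₀) ∧
      ∀ w ∈ Pet Ψ κ N δ R, Xf (sec Ψ κ κ' N w) (FF Ψ κ N w) = w := by
  obtain ⟨B, hB⟩ := h.psi
  have hΨe : ∀ w : ℂ, Ψ.eval w = w * (1 + w * B.eval w) := by intro w; rw [hB]; simp
  have hΨ0 : Ψ.eval 0 = 0 := by rw [hΨe, zero_mul]
  have hΨ1 : (derivative Ψ).eval 0 = 1 := by
    rw [hB]; simp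
  have hκ0 : 0 < ‖κ‖ := norm_pos_iff.2 h.kne
  have hκ'0 : κ' ≠ 0 := by
    intro h0
    rw [h0, zero_pow h.pos.ne'] at hκ'
    exact h.kne hκ'.symm
  have hN0 : (N : ℂ) ≠ 0 := Nat.cast_ne_zero.2 h.pos.ne'
  obtain ⟨Θ, h1, h2, h3⟩ := exists_inverse Ψ hΨ0 hΨ1
  have h4 := h1.and (h2.eventually (closedBall_mem_nhds (0 : ℂ) L.pos))
  obtain ⟨ε, hε, hε1⟩ := Metric.eventually_nhds_iff.1 h4
  obtain ⟨ε', hε', hε'1⟩ := Metric.eventually_nhds_iff.1 h3
  obtain ⟨R₁, hR₁1, hR₁⟩ := L.pet h.pos (ρ := ε' / 2) (by positivity)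
  refine ⟨fun s₀ ζ => Θ (s₀ * κ'⁻¹ * Complex.exp (-Complex.log ζ / N)),
    max R₁ (1 / (‖κ‖ * ε ^ N)), hR₁1.trans (le_max_left _ _), fun R hR => ⟨?_, ?_⟩⟩
  · intro s₀ hs₀ ζ hζ
    have hR1 : R₁ ≤ R := (le_max_left _ _).trans hR
    have hR2 : 1 / (‖κ‖ * ε ^ N) ≤ R := (le_max_right _ _).trans hR
    have hR0 : 0 < R := by linarith
    have hζ0 : 0 < ζ.re := by linarith
    have hζne : ζ ≠ 0 := by
      rintro rfl
      simp at hζ0
    obtain ⟨y, hy⟩ : ∃ y, y = s₀ * κ'⁻¹ * Complex.exp (-Complex.log ζ / N) := ⟨_, rfl⟩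
    have hyN : y ^ N = κ⁻¹ * ζ⁻¹ := by
      rw [hy, mul_pow, mul_pow, hs₀, inv_pow, hκ', ← Complex.exp_nat_mul, mul_div_cancel₀ _ hN0,
        Complex.exp_neg, Complex.exp_log hζne, one_mul]
    have hy0 : y ≠ 0 := by
      intro h0
      rw [h0, zero_pow h.pos.ne'] at hyN
      exact mul_ne_zero (inv_ne_zero h.kne) (inv_ne_zero hζne) hyN.symm
    have hylt : ‖y‖ < ε := by
      by_contra hcon
      push Not at hcon
      have h5 := pow_le_pow_left₀ hε.le hcon N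
      rw [← norm_pow, hyN, norm_mul, norm_inv, norm_inv, ← mul_inv] at h5
      have h6 : R < ‖ζ‖ := hζ.trans_le (Complex.re_le_norm _)
      rw [div_le_iff₀ (by positivity)] at hR2
      have h7 : ε ^ N * (‖κ‖ * ‖ζ‖) ≤ 1 := by
        have h8 : 0 < ‖κ‖ * ‖ζ‖ := by positivity
        calc ε ^ N * (‖κ‖ * ‖ζ‖) ≤ (‖κ‖ * ‖ζ‖)⁻¹ * (‖κ‖ * ‖ζ‖) :=
              mul_le_mul_of_nonneg_right h5 h8.le
          _ = 1 := inv_mul_cancel₀ h8.ne'
      have h9 : R * (‖κ‖ * ε ^ N) < ‖ζ‖ * (‖κ‖ * ε ^ N) := mul_lt_mul_of_pos_right h6 (by positivity)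
      linarith
    obtain ⟨⟨hd, hΨy⟩, hΘ⟩ := hε1 (y := y) (by rw [dist_zero_right]; exact hylt)
    have hΘ0 : Θ y ≠ 0 := by
      intro h0
      rw [h0, hΨ0] at hΨy
      exact hy0 hΨy.symm
    have hΘδ : ‖Θ y‖ ≤ δ := by rwa [dist_zero_right] at hΘ
    have hFF : FF Ψ κ N (Θ y) = ζ := by
      rw [FF, PF, hΨy, hyN, ← mul_assoc, mul_inv_cancel₀ h.kne, one_mul, inv_inv]
    simp only [← hy]
    refine ⟨?_, ⟨hΘ0, hΘδ, by rw [hFF]; exact hζ⟩, hFF, ?_⟩
    · have h5 : DifferentiableAt ℂ (fun ζ => s₀ * κ'⁻¹ * Complex.exp (-Complex.log ζ / N)) ζ := by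
        have h6 : DifferentiableAt ℂ Complex.log ζ := Complex.differentiableAt_log (Or.inl hζ0)
        fun_prop
      refine DifferentiableAt.comp (g := Θ) ζ ?_ h5
      rw [← hy]
      exact hd
    · rw [sec, hFF, hΨy, hy]
      have h6 : Complex.exp (-Complex.log ζ / N) * Complex.exp (Complex.log ζ / N) = 1 := by
        rw [← Complex.exp_add, neg_div, neg_add_cancel, Complex.exp_zero]
      calc κ' * (s₀ * κ'⁻¹ * Complex.exp (-Complex.log ζ / N)) * Complex.exp (Complex.log ζ / N)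
          = κ' * κ'⁻¹ * s₀ * (Complex.exp (-Complex.log ζ / N) * Complex.exp (Complex.log ζ / N)) := by
            ring
        _ = s₀ := by rw [h6, mul_inv_cancel₀ hκ'0]; ring
  · intro w hw
    have hR1 : R₁ ≤ R := (le_max_left _ _).trans hR
    obtain ⟨hwρ, -, -, -⟩ := hR₁ R hR1 w hw
    have h5 : sec Ψ κ κ' N w * κ'⁻¹ * Complex.exp (-Complex.log (FF Ψ κ N w) / N) = Ψ.eval w := by
      rw [sec]
      have h6 : Complex.exp (Complex.log (FF Ψ κ N w) / N) *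
          Complex.exp (-Complex.log (FF Ψ κ N w) / N) = 1 := by
        rw [← Complex.exp_add, neg_div, add_neg_cancel, Complex.exp_zero]
      calc κ' * Ψ.eval w * Complex.exp (Complex.log (FF Ψ κ N w) / N) * κ'⁻¹ *
            Complex.exp (-Complex.log (FF Ψ κ N w) / N)
          = κ' * κ'⁻¹ * Ψ.eval w * (Complex.exp (Complex.log (FF Ψ κ N w) / N) *
            Complex.exp (-Complex.log (FF Ψ κ N w) / N)) := by ring
        _ = Ψ.eval w := by rw [h6, mul_inv_cancel₀ hκ'0]; ring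
    show Θ _ = w
    rw [h5]
    exact hε'1 (by rw [dist_zero_right]; linarith)

end

/-- the map `z ↦ z ^ d + c` in a coordinate centred at the fixed point `a` -/
noncomputable def Gp (d : ℕ) (a : ℂ) : ℂ[X] := (X + C a) ^ d - C (a ^ d)

theorem Gp_eval (d : ℕ) (a w : ℂ) : (Gp d a).eval w = (w + a) ^ d - a ^ d := by
  simp [Gp]

theorem Gp_escape {d : ℕ} (hd : 2 ≤ d) {a : ℂ} (ha : ‖a‖ ≤ 1) {w : ℂ} (hw : 2 < ‖w + a‖) (n : ℕ) :
    2 < ‖(fun w => (Gp d a).eval w)^[n] w + a‖ := by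
  induction n with
  | zero => exact hw
  | succ n ih =>
    rw [Function.iterate_succ_apply']
    obtain ⟨v, hv⟩ : ∃ v, v = (fun w => (Gp d a).eval w)^[n] w := ⟨_, rfl⟩
    rw [← hv] at ih ⊢
    simp only [Gp_eval]
    have h1 : 4 < ‖(v + a) ^ d‖ := by
      rw [norm_pow]
      calc (4 : ℝ) = 2 ^ 2 := by norm_num
        _ < ‖v + a‖ ^ 2 := pow_lt_pow_left₀ ih (by norm_num) (by norm_num)
        _ ≤ ‖v + a‖ ^ d := pow_le_pow_right₀ (by linarith) hd
    have h2 : ‖a ^ d‖ ≤ 1 := by rw [norm_pow]; exact pow_le_one₀ (norm_nonneg _) ha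
    have h3 : (v + a) ^ d = ((v + a) ^ d - a ^ d + a) + (a ^ d - a) := by ring
    have h4 := norm_add_le ((v + a) ^ d - a ^ d + a) (a ^ d - a)
    rw [← h3] at h4
    have h5 := norm_sub_le (a ^ d) a
    linarith

/-- inverse branches along a backward orbit -/
theorem exists_branch {d : ℕ} (hd : 2 ≤ d) {a : ℂ} {Xf : ℂ → ℂ} {ζ₀ : ℂ} {r : ℝ} (hr : 0 < r)
    (hX : DifferentiableOn ℂ Xf (ball ζ₀ r)) {w : ℕ → ℂ} {n : ℕ}
    (hw : ∀ k, w (k + 1) = (Gp d a).eval (w k)) (hXw : Xf ζ₀ = w n)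
    (hv : ∀ ζ ∈ ball ζ₀ r, ∀ k : ℕ, Xf ζ ≠ (fun w => (Gp d a).eval w)^[k + 1] (-a)) :
    ∀ k : ℕ, k ≤ n → ∃ Y : ℂ → ℂ, DifferentiableOn ℂ Y (ball ζ₀ r) ∧ Y ζ₀ = w (n - k) ∧
      ∀ ζ ∈ ball ζ₀ r, (fun w => (Gp d a).eval w)^[k] (Y ζ) = Xf ζ := by
  intro k
  induction k with
  | zero =>
    intro _
    exact ⟨Xf, hX, by simpa using hXw, fun ζ _ => rfl⟩
  | succ k ih =>
    intro hk
    obtain ⟨Y, hY, hYc, hYi⟩ := ih (by omega)
    have hd0 : (d : ℂ) ≠ 0 := Nat.cast_ne_zero.2 (by omega)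
    have hne : ∀ ζ ∈ ball ζ₀ r, Y ζ + a ^ d ≠ 0 := by
      intro ζ hζ h0
      apply hv ζ hζ k
      rw [← hYi ζ hζ, Function.iterate_succ_apply]
      congr 1
      show Y ζ = (Gp d a).eval (-a)
      rw [Gp_eval, neg_add_cancel, zero_pow (by omega)]
      linear_combination h0
    have hval : Y ζ₀ + a ^ d = (w (n - (k + 1)) + a) ^ d := by
      have h1 : n - k = n - (k + 1) + 1 := by omega
      rw [hYc, h1, hw, Gp_eval]; ring
    have hwa : w (n - (k + 1)) + a ≠ 0 := by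
      intro h0
      apply hne ζ₀ (mem_ball_self hr)
      rw [hval, h0, zero_pow (by omega)]
    obtain ⟨ℓ, hℓd, hℓc, hℓ⟩ := exists_log_ball hr (hY.add_const _) hne
      (d * Complex.log (w (n - (k + 1)) + a)) (by
        rw [Complex.exp_nat_mul, Complex.exp_log hwa]
        exact hval.symm)
    refine ⟨fun ζ => Complex.exp (ℓ ζ / d) - a, ?_, ?_, ?_⟩
    · exact ((hℓd.div_const _).cexp).sub_const _
    · simp only
      rw [hℓc, mul_div_cancel_left₀ _ hd0, Complex.exp_log hwa]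
      ring
    · intro ζ hζ
      rw [Function.iterate_succ_apply]
      have h1 : (Gp d a).eval (Complex.exp (ℓ ζ / d) - a) = Y ζ := by
        rw [Gp_eval, sub_add_cancel, ← Complex.exp_nat_mul, mul_div_cancel₀ _ hd0, hℓ ζ hζ]
        ring
      rw [h1]
      exact hYi ζ hζ

end Pool.Agent.H13RP
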