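import Pool.Agent.H13RP.Pet2

set_option autoImplicit false

/-! # Every petal is visited by the critical orbit: the derivative estimate -/

namespace Pool.Agent.H13RP

open Polynomial Metric Filter Topology

theorem cauchy_bd {f : ℂ → ℂ} {c : ℂ} {r M : ℝ} (hr : 0 < r) (hf : DifferentiableOn ℂ f (ball c r))
    (hM : ∀ z ∈ ball c r, ‖f z‖ ≤ M) : ‖deriv f c‖ ≤ 2 * M / r := by
  have hsub : closedBall c (r / 2) ⊆ ball c r := closedBall_subset_ball (by linarith)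
  have h1 := Complex.norm_deriv_le_of_forall_mem_sphere_norm_le (c := c) (R := r / 2) (C := M)
    (f := f) (by linarith) (hf.diffContOnCl_ball hsub)
    (fun z hz => hM z (hsub (sphere_subset_closedBall hz)))
  have h2 : M / (r / 2) = 2 * M / r := by field_simp
  rwa [h2] at h1

section

variable {G Ψ : ℂ[X]} {lam κ : ℂ} {N : ℕ} {δ K : ℝ}

theorem IsLoc.FF_diff (L : IsLoc G Ψ κ N δ K) {w : ℂ} (h0 : w ≠ 0) (h : ‖w‖ ≤ 2 * δ) :
    DifferentiableAt ℂ (FF Ψ κ N) w := by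
  have h1 : DifferentiableAt ℂ (PF Ψ κ N) w := by
    unfold PF
    exact (Ψ.differentiableAt.pow N).const_mul κ
  exact h1.inv (L.P_ne h0 h)

/-- the derivative of the error -/
theorem IsLoc.eta (L : IsLoc G Ψ κ N δ K) {w : ℂ} (h0 : w ≠ 0) (h : ‖w‖ ≤ δ / 2) :
    ‖deriv (FF Ψ κ N) (G.eval w) * (derivative G).eval w - deriv (FF Ψ κ N) w‖ ≤ 6 * K := by
  have hδ := L.pos
  have hw : 0 < ‖w‖ := norm_pos_iff.2 h0
  have hK := L.one
  have hball : ∀ z ∈ ball w (‖w‖ / 2), z ≠ 0 ∧ ‖z‖ ≤ δ ∧ ‖z‖ ≤ 3 / 2 * ‖w‖ := by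
    intro z hz
    rw [mem_ball, dist_eq_norm] at hz
    have h1 := norm_sub_norm_le w z
    rw [norm_sub_rev] at h1
    have h2 := norm_sub_norm_le z w
    refine ⟨norm_pos_iff.1 (by linarith), by linarith, by linarith⟩
  have hGz : ∀ z : ℂ, z ≠ 0 → ‖z‖ ≤ δ → G.eval z ≠ 0 ∧ ‖G.eval z‖ ≤ 2 * δ := by
    intro z hz0 hz
    have hg1 := L.gup z 1 hz (by simp [hδ.le])
    have hg2 := L.glow z 1 hz (by simp [hδ.le])
    rw [one_mul] at hg1 hg2
    have : 0 < ‖z‖ := norm_pos_iff.2 hz0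
    exact ⟨norm_pos_iff.1 (by linarith), by linarith⟩
  have hd : ∀ z : ℂ, z ≠ 0 → ‖z‖ ≤ δ → HasDerivAt (fun z => FF Ψ κ N (G.eval z) - (FF Ψ κ N z + 1))
      (deriv (FF Ψ κ N) (G.eval z) * (derivative G).eval z - deriv (FF Ψ κ N) z) z := by
    intro z hz0 hz
    obtain ⟨h1, h2⟩ := hGz z hz0 hz
    have h3 := (L.FF_diff h1 h2).hasDerivAt
    have h4 := (L.FF_diff hz0 (by linarith [norm_nonneg z])).hasDerivAt
    exact (h3.comp z (G.hasDerivAt z)).sub (h4.add_const 1)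
  have h1 := cauchy_bd (f := fun z => FF Ψ κ N (G.eval z) - (FF Ψ κ N z + 1)) (c := w)
    (r := ‖w‖ / 2) (M := K * (3 / 2 * ‖w‖)) (by positivity) (by
      intro z hz
      obtain ⟨a1, a2, -⟩ := hball z hz
      exact (hd z a1 a2).differentiableAt.differentiableWithinAt) (by
      intro z hz
      obtain ⟨a1, a2, a3⟩ := hball z hz
      exact (L.step1 a1 a2).trans (mul_le_mul_of_nonneg_left a3 (by linarith)))
  rw [(hd w h0 (by linarith)).deriv] at h1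
  have h2 : 2 * (K * (3 / 2 * ‖w‖)) / (‖w‖ / 2) = 6 * K := by field_simp; norm_num
  rwa [h2] at h1

/-- size of the parametrisation -/
theorem IsLoc.size_re (L : IsLoc G Ψ κ N δ K) (hN : 0 < N) {w : ℂ} (h0 : w ≠ 0) (h : ‖w‖ ≤ 2 * δ)
    {t : ℝ} (ht : 0 < t) (hre : t ≤ ‖FF Ψ κ N w‖) : ‖w‖ ≤ K * t ^ (-(1 / (N : ℝ))) := by
  have h1 := L.size h0 h
  have hK := L.one
  have hN0 : (0 : ℝ) < N := by exact_mod_cast hN
  have hN1 : (1 : ℝ) ≤ N := by exact_mod_cast hN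
  have h2 : ‖w‖ ^ N ≤ K / t := by
    rw [le_div_iff₀ ht]
    calc ‖w‖ ^ N * t ≤ ‖w‖ ^ N * ‖FF Ψ κ N w‖ := mul_le_mul_of_nonneg_left hre (by positivity)
      _ ≤ K := h1
  have h3 : ‖w‖ = (‖w‖ ^ N) ^ (1 / (N : ℝ)) := by
    rw [one_div, Real.pow_rpow_inv_natCast (norm_nonneg _) hN.ne']
  rw [h3]
  calc (‖w‖ ^ N) ^ (1 / (N : ℝ)) ≤ (K / t) ^ (1 / (N : ℝ)) :=
        Real.rpow_le_rpow (by positivity) h2 (by positivity)
    _ = K ^ (1 / (N : ℝ)) * t ^ (-(1 / (N : ℝ))) := by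
        rw [Real.div_rpow (by linarith) ht.le, Real.rpow_neg ht.le, div_eq_mul_inv]
    _ ≤ K * t ^ (-(1 / (N : ℝ))) := by
        apply mul_le_mul_of_nonneg_right _ (by positivity)
        calc K ^ (1 / (N : ℝ)) ≤ K ^ (1 : ℝ) :=
              Real.rpow_le_rpow_of_exponent_le hK (by rw [div_le_one hN0]; exact hN1)
          _ = K := Real.rpow_one K

/-- along orbits in the attracting region the derivative of `FF ∘ G ^ n` is bounded -/
theorem deriv_bd (L : IsLoc G Ψ κ N δ K) (h : IsNF G Ψ lam κ N) {κ' : ℂ} (hκ' : κ' ^ N = κ) :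
    ∃ R₀ : ℝ, 1 ≤ R₀ ∧ ∀ R : ℝ, R₀ ≤ R → ∀ (w a : ℕ → ℂ), w 0 ∈ Pet Ψ κ N δ (2 * R) →
      (∀ k, w (k + 1) = G.eval (w k)) → (∀ k, a (k + 1) = (derivative G).eval (w k) * a k) →
      ∃ M : ℝ, 0 < M ∧ ∀ n, ‖deriv (FF Ψ κ N) (w n) * a n‖ ≤ M := by
  obtain ⟨Xf, R₁, hR₁1, hX⟩ := exists_X L h hκ'
  obtain ⟨R₂, hR₂1, hR₂⟩ := L.pet h.pos (ρ := δ / 2) (by linarith [L.pos])
  refine ⟨max R₁ R₂, hR₁1.trans (le_max_left _ _), fun R hR w a hw0 hw ha => ?_⟩
  have hRR1 : R₁ ≤ R := (le_max_left _ _).trans hR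
  have hRR2 : R₂ ≤ R := (le_max_right _ _).trans hR
  have hR1 : 1 ≤ R := hR₁1.trans hRR1
  have hK := L.one
  have hδ := L.pos
  have hN1 : (1 : ℝ) ≤ N := by exact_mod_cast h.pos
  -- the orbit
  have horb : ∀ n, w n ∈ Pet Ψ κ N δ (2 * R) ∧ 2 * R + 3 / 4 * n ≤ (FF Ψ κ N (w n)).re := by
    intro n
    induction n with
    | zero => exact ⟨hw0, by simpa using hw0.2.2.le⟩
    | succ n ih =>
      obtain ⟨-, h2, h3, -⟩ := hR₂ (2 * R) (by linarith) (w n) ih.1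
      rw [hw n]
      refine ⟨h2, ?_⟩
      push_cast
      linarith [ih.2]
  obtain ⟨p, hp⟩ : ∃ p : ℝ, p = 1 + 1 / N := ⟨_, rfl⟩
  have hp1 : 1 < p := by rw [hp]; have : (0 : ℝ) < 1 / N := by positivity
                         linarith
  have hp2 : p ≤ 2 := by
    rw [hp]
    have : 1 / (N : ℝ) ≤ 1 := by rw [div_le_one (by linarith)]; exact hN1
    linarith
  have hXd : ∀ n, ∃ x : ℂ, deriv (FF Ψ κ N) (w n) * x = 1 ∧
      ‖x‖ ≤ 32 * K / ((n : ℝ) + 1) ^ p := by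
    intro n
    obtain ⟨hpet, hre⟩ := horb n
    obtain ⟨ζ, hζ⟩ : ∃ ζ, ζ = FF Ψ κ N (w n) := ⟨_, rfl⟩
    rw [← hζ] at hre
    have hn0 : (0 : ℝ) ≤ n := Nat.cast_nonneg n
    have hζre : 0 < ζ.re := by linarith
    obtain ⟨s₀, hs₀⟩ : ∃ s₀, s₀ = sec Ψ κ κ' N (w n) := ⟨_, rfl⟩
    have hsN : s₀ ^ N = 1 := by rw [hs₀]; exact sec_pow L h.pos hκ' hpet.1 hpet.2.1
    have hXw : Xf s₀ ζ = w n := by
      rw [hs₀, hζ]
      exact (hX R hRR1).2 (w n) ⟨hpet.1, hpet.2.1, by linarith [hpet.2.2]⟩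
    have hin : ∀ z ∈ ball ζ (ζ.re / 2), R < z.re ∧ ζ.re / 2 ≤ z.re := by
      intro z hz
      rw [mem_ball, dist_eq_norm] at hz
      have h1 := (abs_le.1 ((Complex.abs_re_le_norm (z - ζ)).trans hz.le)).1
      rw [Complex.sub_re] at h1
      have h2 := Complex.abs_re_le_norm (z - ζ)
      have h3 : -(ζ.re / 2) < (z - ζ).re := (abs_lt.1 (h2.trans_lt hz)).1
      rw [Complex.sub_re] at h3
      constructor <;> linarith
    have hbd := cauchy_bd (f := Xf s₀) (c := ζ) (r := ζ.re / 2)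
      (M := K * (ζ.re / 2) ^ (-(1 / (N : ℝ)))) (by positivity) (by
        intro z hz
        exact ((hX R hRR1).1 s₀ hsN z (hin z hz).1).1.differentiableWithinAt) (by
        intro z hz
        obtain ⟨-, hzp, hzF, -⟩ := (hX R hRR1).1 s₀ hsN z (hin z hz).1
        apply L.size_re h.pos hzp.1 (by linarith [hzp.2.1, norm_nonneg (Xf s₀ z)]) (by positivity)
        rw [hzF]
        exact (hin z hz).2.trans (Complex.re_le_norm _))
    refine ⟨deriv (Xf s₀) ζ, ?_, ?_⟩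
    · have h1 : DifferentiableAt ℂ (Xf s₀) ζ := ((hX R hRR1).1 s₀ hsN ζ (by linarith)).1
      have h2 : DifferentiableAt ℂ (FF Ψ κ N) (Xf s₀ ζ) := by
        rw [hXw]
        exact L.FF_diff hpet.1 (by linarith [hpet.2.1, norm_nonneg (w n)])
      have h3 := h2.hasDerivAt.comp ζ h1.hasDerivAt
      have h4 : HasDerivAt (FF Ψ κ N ∘ Xf s₀) 1 ζ := by
        refine (hasDerivAt_id ζ).congr_of_eventuallyEq ?_
        filter_upwards [ball_mem_nhds ζ (show 0 < ζ.re / 2 by positivity)] with z hz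
        exact ((hX R hRR1).1 s₀ hsN z (hin z hz).1).2.2.1
      rw [← hXw]
      exact h3.unique h4
    · refine hbd.trans ?_
      have h1 : 2 * (K * (ζ.re / 2) ^ (-(1 / (N : ℝ)))) / (ζ.re / 2) =
          2 * K * (ζ.re / 2) ^ (-p) := by
        have h2 : (ζ.re / 2) ^ (-p) = (ζ.re / 2) ^ (-(1 / (N : ℝ))) * (ζ.re / 2)⁻¹ := by
          rw [hp, show -(1 + 1 / (N : ℝ)) = -(1 / (N : ℝ)) + (-1) by ring,
            Real.rpow_add (by positivity), Real.rpow_neg_one]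
        rw [h2]
        field_simp
      rw [h1]
      have h3 : ((n : ℝ) + 1) / 2 / 2 ≤ ζ.re / 2 := by linarith
      have h4 : (ζ.re / 2) ^ (-p) ≤ (((n : ℝ) + 1) / 4) ^ (-p) := by
        apply Real.rpow_le_rpow_of_nonpos (by positivity) (by linarith) (by linarith)
      have h5 : (((n : ℝ) + 1) / 4) ^ (-p) ≤ 16 / ((n : ℝ) + 1) ^ p := by
        rw [Real.rpow_neg (by positivity), Real.div_rpow (by positivity) (by norm_num), inv_div]
        apply div_le_div_of_nonneg_right _ (by positivity)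
        calc (4 : ℝ) ^ p ≤ 4 ^ (2 : ℝ) := Real.rpow_le_rpow_of_exponent_le (by norm_num) hp2
          _ = 16 := by norm_num
      calc 2 * K * (ζ.re / 2) ^ (-p) ≤ 2 * K * (16 / ((n : ℝ) + 1) ^ p) :=
            mul_le_mul_of_nonneg_left (h4.trans h5) (by linarith)
        _ = 32 * K / ((n : ℝ) + 1) ^ p := by ring
  -- the product
  have hsum : Summable fun n : ℕ => 192 * K ^ 2 / ((n : ℝ) + 1) ^ p := by
    have h1 : Summable fun n : ℕ => 1 / (n : ℝ) ^ p := Real.summable_one_div_nat_rpow.2 hp1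
    have h2 := (summable_nat_add_iff 1).2 h1
    have h3 := h2.mul_left (192 * K ^ 2)
    refine h3.congr fun n => ?_
    push_cast
    ring
  have hstep : ∀ n, ‖deriv (FF Ψ κ N) (w (n + 1)) * a (n + 1)‖ ≤
      ‖deriv (FF Ψ κ N) (w n) * a n‖ * (1 + 192 * K ^ 2 / ((n : ℝ) + 1) ^ p) := by
    intro n
    obtain ⟨x, hx1, hx2⟩ := hXd n
    obtain ⟨hwδ, -, -, -⟩ := hR₂ (2 * R) (by linarith) (w n) (horb n).1
    have h1 := L.eta (horb n).1.1 hwδ
    obtain ⟨e, he⟩ : ∃ e, e = deriv (FF Ψ κ N) (G.eval (w n)) * (derivative G).eval (w n) -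
      deriv (FF Ψ κ N) (w n) := ⟨_, rfl⟩
    rw [← he] at h1
    have h2 : deriv (FF Ψ κ N) (w (n + 1)) * a (n + 1) =
        (deriv (FF Ψ κ N) (w n) * a n) * (1 + e * x) := by
      rw [hw n, ha n]
      have h3 : deriv (FF Ψ κ N) (G.eval (w n)) * ((derivative G).eval (w n) * a n) =
          (e + deriv (FF Ψ κ N) (w n)) * a n := by rw [he]; ring
      rw [h3]
      linear_combination (-(e * a n)) * hx1
    rw [h2, norm_mul]
    apply mul_le_mul_of_nonneg_left _ (norm_nonneg _)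
    refine (norm_add_le _ _).trans ?_
    rw [norm_one, norm_mul]
    have h3 : ‖e‖ * ‖x‖ ≤ 6 * K * (32 * K / ((n : ℝ) + 1) ^ p) :=
      mul_le_mul h1 hx2 (norm_nonneg _) (by linarith)
    have h4 : 6 * K * (32 * K / ((n : ℝ) + 1) ^ p) = 192 * K ^ 2 / ((n : ℝ) + 1) ^ p := by ring
    linarith
  have hprod : ∀ n, ‖deriv (FF Ψ κ N) (w n) * a n‖ ≤ ‖deriv (FF Ψ κ N) (w 0) * a 0‖ *
      Real.exp (∑ k ∈ Finset.range n, 192 * K ^ 2 / ((k : ℝ) + 1) ^ p) := by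
    intro n
    induction n with
    | zero => simp
    | succ n ih =>
      refine (hstep n).trans ?_
      rw [Finset.sum_range_succ, Real.exp_add, ← mul_assoc]
      apply mul_le_mul ih _ (by positivity) (by positivity)
      have := Real.add_one_le_exp (192 * K ^ 2 / ((n : ℝ) + 1) ^ p)
      linarith
  refine ⟨(‖deriv (FF Ψ κ N) (w 0) * a 0‖ + 1) *
    Real.exp (∑' k : ℕ, 192 * K ^ 2 / ((k : ℝ) + 1) ^ p), by positivity, fun n => ?_⟩
  refine (hprod n).trans ?_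
  apply mul_le_mul _ _ (by positivity) (by positivity)
  · linarith
  · apply Real.exp_le_exp.2
    exact hsum.sum_le_tsum _ (fun k _ => by positivity)

end

end Pool.Agent.H13RP
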