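import Pool.Agent.H13RP.Pet3

set_option autoImplicit false

/-! # Every petal is visited by the critical orbit: conclusion -/

namespace Pool.Agent.H13RP

open Polynomial Metric Filter Topology

section

variable {G Ψ : ℂ[X]} {lam κ : ℂ} {N : ℕ} {δ K : ℝ}

/-- derivative of the iterates -/
theorem iter_deriv (G : ℂ[X]) {w a : ℕ → ℂ} (hw : ∀ k, w (k + 1) = G.eval (w k))
    (ha0 : a 0 = 1) (ha : ∀ k, a (k + 1) = (derivative G).eval (w k) * a k) (n : ℕ) :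
    (fun w => G.eval w)^[n] (w 0) = w n ∧ HasDerivAt ((fun w => G.eval w)^[n]) (a n) (w 0) := by
  induction n with
  | zero =>
    refine ⟨rfl, ?_⟩
    rw [ha0]
    exact hasDerivAt_id _
  | succ n ih =>
    obtain ⟨h1, h2⟩ := ih
    have e : (fun w => G.eval w)^[n + 1] = (fun w => G.eval w) ∘ (fun w => G.eval w)^[n] :=
      Function.iterate_succ' _ _
    refine ⟨?_, ?_⟩
    · rw [Function.iterate_succ_apply', h1, hw]
    · rw [e, ha]
      have h3 : HasDerivAt (fun w => G.eval w) ((derivative G).eval (w n))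
          ((fun w => G.eval w)^[n] (w 0)) := by
        rw [h1]; exact G.hasDerivAt _
      exact h3.comp (w 0) h2

/-- orbits in the attracting region -/
theorem IsLoc.orbit (L : IsLoc G Ψ κ N δ K) (hN : 0 < N) : ∃ R₀ : ℝ, 1 ≤ R₀ ∧ ∀ R : ℝ, R₀ ≤ R →
    ∀ w : ℕ → ℂ, w 0 ∈ Pet Ψ κ N δ R → (∀ k, w (k + 1) = G.eval (w k)) → ∀ n,
      w n ∈ Pet Ψ κ N δ R ∧ (FF Ψ κ N (w 0)).re + 3 / 4 * n ≤ (FF Ψ κ N (w n)).re := by
  obtain ⟨R₂, hR₂1, hR₂⟩ := L.pet hN (ρ := δ / 2) (by linarith [L.pos])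
  refine ⟨R₂, hR₂1, fun R hR w hw0 hw n => ?_⟩
  induction n with
  | zero => exact ⟨hw0, by simp⟩
  | succ n ih =>
    obtain ⟨-, h2, h3, -⟩ := hR₂ R hR (w n) ih.1
    rw [hw n]
    refine ⟨h2, ?_⟩
    push_cast
    linarith [ih.2]

/-- each sector is visited by the critical orbit -/
theorem visit {d : ℕ} (hd : 2 ≤ d) {a : ℂ} (ha : ‖a‖ ≤ 1) (hG : G = Gp d a)
    (L : IsLoc G Ψ κ N δ K) (h : IsNF G Ψ lam κ N) (hG0 : G.coeff 0 = 0)
    (hG1 : G.coeff 1 = lam) {κ' : ℂ} (hκ' : κ' ^ N = κ) :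
    ∃ R₀ : ℝ, 1 ≤ R₀ ∧ ∀ R : ℝ, R₀ ≤ R → ∀ s₀ : ℂ, s₀ ^ N = 1 →
      ∃ m n : ℕ, (fun w => G.eval w)^[m + 1] (-a) ∈ Pet Ψ κ N δ R ∧
        sec Ψ κ κ' N ((fun w => G.eval w)^[m + 1] (-a)) = lam ^ n * s₀ := by
  obtain ⟨Xf, R₁, hR₁1, hX⟩ := exists_X L h hκ'
  obtain ⟨R₂, hR₂1, hR₂⟩ := L.orbit h.pos
  obtain ⟨R₃, hR₃1, hR₃⟩ := deriv_bd L h hκ'
  obtain ⟨R₄, hR₄1, hR₄⟩ := sec_step L h hG0 hG1 hκ'
  refine ⟨max (max R₁ R₂) (max R₃ R₄), hR₁1.trans ((le_max_left _ _).trans (le_max_left _ _)),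
    fun R hR s₀ hs₀ => ?_⟩
  have hRR1 : R₁ ≤ R := ((le_max_left _ _).trans (le_max_left _ _)).trans hR
  have hRR2 : R₂ ≤ R := ((le_max_right _ _).trans (le_max_left _ _)).trans hR
  have hRR3 : R₃ ≤ R := ((le_max_left _ _).trans (le_max_right _ _)).trans hR
  have hRR4 : R₄ ≤ R := ((le_max_right _ _).trans (le_max_right _ _)).trans hR
  have hR1 : 1 ≤ R := hR₁1.trans hRR1
  have hδ := L.pos
  have hδ8 := L.le
  by_contra hcon
  push Not at hcon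
  -- the starting point
  obtain ⟨-, hx1, hx2, hx3⟩ := (hX (2 * R) (by linarith)).1 s₀ hs₀ (2 * R + 1 : ℝ)
    (by rw [Complex.ofReal_re]; linarith)
  obtain ⟨w₀, hw₀⟩ : ∃ w₀, w₀ = Xf s₀ (2 * R + 1 : ℝ) := ⟨_, rfl⟩
  rw [← hw₀] at hx1 hx2 hx3
  obtain ⟨w, hw⟩ : ∃ w : ℕ → ℂ, w = fun n => (fun w => G.eval w)^[n] w₀ := ⟨_, rfl⟩
  have hw0 : w 0 = w₀ := by rw [hw]; rfl
  have hws : ∀ k, w (k + 1) = G.eval (w k) := by
    intro k
    rw [hw]
    simp only [Function.iterate_succ_apply']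
  obtain ⟨A, hA⟩ : ∃ A : ℕ → ℂ, A = fun n => ∏ k ∈ Finset.range n, (derivative G).eval (w k) :=
    ⟨_, rfl⟩
  have hA0 : A 0 = 1 := by rw [hA]; simp
  have hAs : ∀ k, A (k + 1) = (derivative G).eval (w k) * A k := by
    intro k
    rw [hA]
    simp only [Finset.prod_range_succ]
    ring
  have horb := hR₂ (2 * R) (by linarith) w (by rw [hw0]; exact hx1) hws
  have hsec : ∀ n, sec Ψ κ κ' N (w n) = lam ^ n * s₀ := by
    intro n
    induction n with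
    | zero => rw [hw0, hx3]; simp
    | succ n ih =>
      rw [hws n, hR₄ (2 * R) (by linarith) (w n) (horb n).1, ih]
      ring
  obtain ⟨M, hM0, hM⟩ := hR₃ R hRR3 w A (by rw [hw0]; exact hx1) hws hAs
  obtain ⟨n, hn⟩ := exists_nat_gt (8 * M)
  have hn0 : (0 : ℝ) ≤ n := Nat.cast_nonneg n
  obtain ⟨ζ, hζ⟩ : ∃ ζ, ζ = FF Ψ κ N (w n) := ⟨_, rfl⟩
  have hζre : 2 * R + 3 / 4 * n ≤ ζ.re := by
    have h1 := (horb n).2
    rw [← hζ] at h1
    rw [hw0, hx2, Complex.ofReal_re] at h1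
    linarith
  have hr : 0 < ζ.re - R := by linarith
  have hin : ∀ z ∈ ball ζ (ζ.re - R), R < z.re := by
    intro z hz
    rw [mem_ball, dist_eq_norm] at hz
    have h3 := (abs_lt.1 ((Complex.abs_re_le_norm (z - ζ)).trans_lt hz)).1
    rw [Complex.sub_re] at h3
    linarith
  have hsn : (lam ^ n * s₀) ^ N = 1 := by
    rw [mul_pow, ← pow_mul, mul_comm n N, pow_mul, h.lam, one_pow, hs₀, one_mul]
  have hXb := fun z hz => (hX R hRR1).1 (lam ^ n * s₀) hsn z (hin z hz)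
  have hXw : Xf (lam ^ n * s₀) ζ = w n := by
    rw [← hsec n, hζ]
    refine (hX R hRR1).2 (w n) ?_
    exact ⟨(horb n).1.1, (horb n).1.2.1, by linarith [(horb n).1.2.2]⟩
  obtain ⟨Y, hY, hYc, hYi⟩ := exists_branch hd (a := a) hr (Xf := Xf (lam ^ n * s₀))
    (fun z hz => (hXb z hz).1.differentiableWithinAt) (w := w) (n := n)
    (by rw [← hG]; exact hws) hXw (by
      intro z hz k hk
      rw [← hG] at hk
      refine hcon k n ?_ ?_
      · rw [← hk]; exact (hXb z hz).2.1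
      · rw [← hk]; exact (hXb z hz).2.2.2) n le_rfl
  rw [← hG] at hYi
  rw [Nat.sub_self, hw0] at hYc
  -- bound of the branch
  have hYb : ∀ z ∈ ball ζ (ζ.re - R), ‖Y z‖ ≤ 3 := by
    intro z hz
    by_contra hcon2
    push Not at hcon2
    have h1 : 2 < ‖Y z + a‖ := by
      have h2 := norm_sub_le (Y z + a) a
      rw [add_sub_cancel_right] at h2
      linarith
    have h2 := Gp_escape hd ha h1 n
    rw [← hG, hYi z hz] at h2
    have h3 := norm_add_le (Xf (lam ^ n * s₀) z) a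
    have h4 := (hXb z hz).2.1.2.1
    linarith
  have hder := cauchy_bd hr hY hYb
  -- the chain rule
  have hYd : HasDerivAt Y (deriv Y ζ) ζ :=
    (hY.differentiableAt (isOpen_ball.mem_nhds (mem_ball_self hr))).hasDerivAt
  obtain ⟨hit, hitd⟩ := iter_deriv G hws hA0 hAs n
  rw [hw0, ← hYc] at hit hitd
  have hFd : HasDerivAt (FF Ψ κ N) (deriv (FF Ψ κ N) (w n)) ((fun w => G.eval w)^[n] (Y ζ)) := by
    rw [hit]
    exact (L.FF_diff (horb n).1.1 (by linarith [(horb n).1.2.1, norm_nonneg (w n)])).hasDerivAt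
  have hchain := hFd.comp ζ (hitd.comp ζ hYd)
  have hid : HasDerivAt (FF Ψ κ N ∘ ((fun w => G.eval w)^[n] ∘ Y)) 1 ζ := by
    refine (hasDerivAt_id ζ).congr_of_eventuallyEq ?_
    filter_upwards [isOpen_ball.mem_nhds (mem_ball_self hr)] with z hz
    show FF Ψ κ N ((fun w => G.eval w)^[n] (Y z)) = z
    rw [hYi z hz]
    exact (hXb z hz).2.2.1
  have huniq := hchain.unique hid
  have h1 : (1 : ℝ) ≤ M * (2 * 3 / (ζ.re - R)) := by
    have h2 : ‖deriv (FF Ψ κ N) (w n) * (A n * deriv Y ζ)‖ = 1 := by rw [huniq, norm_one]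
    rw [← h2, ← mul_assoc, norm_mul]
    exact mul_le_mul (hM n) hder (norm_nonneg _) hM0.le
  rw [← mul_div_assoc, le_div_iff₀ hr] at h1
  linarith

/-- the number of petals is the order of the multiplier -/
theorem petals_eq {d q : ℕ} (hd : 2 ≤ d) {a : ℂ} (ha : ‖a‖ ≤ 1) (hG : G = Gp d a)
    (L : IsLoc G Ψ κ N δ K) (h : IsNF G Ψ lam κ N) (hG0 : G.coeff 0 = 0)
    (hG1 : G.coeff 1 = lam) (hq : IsPrimitiveRoot lam q) (hqN : q ∣ N) : N = q := by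
  obtain ⟨κ', hκ'⟩ := IsAlgClosed.exists_pow_nat_eq κ h.pos
  obtain ⟨R₁, hR₁1, hR₁⟩ := visit hd ha hG L h hG0 hG1 hκ'
  obtain ⟨R₂, hR₂1, hR₂⟩ := L.orbit h.pos
  obtain ⟨R₄, hR₄1, hR₄⟩ := sec_step L h hG0 hG1 hκ'
  obtain ⟨R, hR⟩ : ∃ R, R = max R₁ (max R₂ R₄) := ⟨_, rfl⟩
  have hRR1 : R₁ ≤ R := by rw [hR]; exact le_max_left _ _
  have hRR2 : R₂ ≤ R := by rw [hR]; exact (le_max_left _ _).trans (le_max_right _ _)
  have hRR4 : R₄ ≤ R := by rw [hR]; exact (le_max_right _ _).trans (le_max_right _ _)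
  have hω := Complex.isPrimitiveRoot_exp N h.pos.ne'
  obtain ⟨ω, hω'⟩ : ∃ ω, ω = Complex.exp (2 * Real.pi * Complex.I / N) := ⟨_, rfl⟩
  rw [← hω'] at hω
  have hlam0 : lam ≠ 0 := by
    intro h0
    have := h.lam
    rw [h0, zero_pow h.pos.ne'] at this
    norm_num at this
  have hlq : lam ^ q = 1 := hq.pow_eq_one
  obtain ⟨m₁, n₁, hp₁, hs₁⟩ := hR₁ R hRR1 1 (one_pow N)
  obtain ⟨m₂, n₂, hp₂, hs₂⟩ := hR₁ R hRR1 ω hω.pow_eq_one
  -- propagation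
  have hprop : ∀ v : ℂ, v ∈ Pet Ψ κ N δ R → ∀ j : ℕ,
      (fun w => G.eval w)^[j] v ∈ Pet Ψ κ N δ R ∧
      sec Ψ κ κ' N ((fun w => G.eval w)^[j] v) = lam ^ j * sec Ψ κ κ' N v := by
    intro v hv j
    have horb := hR₂ R hRR2 (fun n => (fun w => G.eval w)^[n] v) hv (fun k => by
      simp only [Function.iterate_succ_apply'])
    refine ⟨(horb j).1, ?_⟩
    induction j with
    | zero => simp
    | succ j ih =>
      rw [Function.iterate_succ_apply', hR₄ R hRR4 _ (horb j).1, ih]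
      ring
  have h1 := (hprop _ hp₁ (m₂ + 1)).2
  have h2 := (hprop _ hp₂ (m₁ + 1)).2
  rw [← Function.iterate_add_apply] at h1 h2
  rw [show m₂ + 1 + (m₁ + 1) = m₁ + 1 + (m₂ + 1) by ring, h2, hs₁, hs₂] at h1
  have hωq : ω ^ q = 1 := by
    have h3 := congrArg (· ^ q) h1
    simp only [mul_pow, one_pow, mul_one, ← pow_mul] at h3
    rw [mul_comm (m₁ + 1) q, mul_comm n₂ q, mul_comm (m₂ + 1) q, mul_comm n₁ q, pow_mul, pow_mul,
      pow_mul, pow_mul, hlq] at h3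
    simpa using h3
  have h4 : N ∣ q := (hω.pow_eq_one_iff_dvd q).1 hωq
  exact Nat.dvd_antisymm h4 hqN

/-- the critical orbit enters the attracting region -/
theorem crit_enters {d : ℕ} (hd : 2 ≤ d) {a : ℂ} (ha : ‖a‖ ≤ 1) (hG : G = Gp d a)
    (L : IsLoc G Ψ κ N δ K) (h : IsNF G Ψ lam κ N) (hG0 : G.coeff 0 = 0)
    (hG1 : G.coeff 1 = lam) : ∃ R₀ : ℝ, 1 ≤ R₀ ∧ ∀ R : ℝ, R₀ ≤ R →
      ∃ m : ℕ, (fun w => G.eval w)^[m] (-a) ∈ Pet Ψ κ N δ R := by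
  obtain ⟨κ', hκ'⟩ := IsAlgClosed.exists_pow_nat_eq κ h.pos
  obtain ⟨R₁, hR₁1, hR₁⟩ := visit hd ha hG L h hG0 hG1 hκ'
  refine ⟨R₁, hR₁1, fun R hR => ?_⟩
  obtain ⟨m, n, h1, -⟩ := hR₁ R hR 1 (one_pow N)
  exact ⟨m + 1, h1⟩

end

end Pool.Agent.H13RP
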