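import Mathlib

set_option autoImplicit false

/-! # The Poisson average of `log ‖z - b‖` -/

namespace Pool.Agent.H13RP

open Complex Metric Set InnerProductSpace

/-- the real part of the Herglotz-Riesz kernel -/
noncomputable def KK (w : ℂ) : ℂ → ℝ := Complex.re ∘ herglotzRieszKernel 0 w

theorem poisson_log_in {σ : ℝ} {w b : ℂ} (hw : w ∈ ball (0 : ℂ) σ) (hb : ‖b‖ < σ)
    (hwb : w ≠ b) :
    Real.log ‖w - b‖ ≤ Real.circleAverage (KK w * (Real.log ‖· - b‖)) 0 σ := by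
  have hw' : ‖w‖ < σ := by rwa [mem_ball_zero_iff] at hw
  have hσ : 0 < σ := (norm_nonneg _).trans_lt hb
  have hσc : (σ : ℂ) ≠ 0 := by exact_mod_cast hσ.ne'
  -- the reflected function
  obtain ⟨f, hf⟩ : ∃ f : ℂ → ℂ, f = fun z => (σ ^ 2 - z * (starRingEnd ℂ) b) / σ := ⟨_, rfl⟩
  have hne : ∀ z ∈ closedBall (0 : ℂ) σ, f z ≠ 0 := by
    intro z hz h0
    rw [mem_closedBall_zero_iff] at hz
    rw [hf] at h0
    rcases div_eq_zero_iff.1 h0 with h1 | h1
    · have h2 : (σ : ℂ) ^ 2 = z * (starRingEnd ℂ) b := sub_eq_zero.1 h1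
      have h3 := congrArg norm h2
      rw [norm_mul, norm_pow, Complex.norm_real, Real.norm_of_nonneg hσ.le, RCLike.norm_conj] at h3
      nlinarith [norm_nonneg b, norm_nonneg z]
    · exact hσc h1
  have hharm : HarmonicOnNhd (Real.log ‖f ·‖) (closedBall (0 : ℂ) σ) := by
    intro z hz
    refine AnalyticAt.harmonicAt_log_norm ?_ (hne z hz)
    rw [hf]
    fun_prop
  have h1 := hharm.circleAverage_re_herglotzRieszKernel_smul hw
  have h2 : Real.circleAverage (KK w * (Real.log ‖· - b‖)) 0 σ =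
      Real.circleAverage ((re ∘ herglotzRieszKernel 0 w) • (Real.log ‖f ·‖)) 0 σ := by
    apply Real.circleAverage_congr_sphere
    intro z hz
    rw [abs_of_pos hσ, mem_sphere_zero_iff_norm] at hz
    have h3 : ‖f z‖ = ‖z - b‖ := by
      rw [hf]
      simp only
      have h4 : (σ : ℂ) ^ 2 - z * (starRingEnd ℂ) b = z * (starRingEnd ℂ) (z - b) := by
        rw [map_sub, mul_sub, Complex.mul_conj, Complex.normSq_eq_norm_sq, hz]
        push_cast
        ring
      rw [h4, norm_div, norm_mul, hz, RCLike.norm_conj, Complex.norm_real,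
        Real.norm_of_nonneg hσ.le]
      field_simp
    simp only [KK, Pi.mul_apply, Pi.smul_apply', smul_eq_mul, h3]
  rw [h2, h1]
  have hpos : 0 < ‖w - b‖ := norm_pos_iff.2 (sub_ne_zero.2 hwb)
  apply Real.log_le_log hpos
  rw [hf]
  simp only
  rw [norm_div, Complex.norm_real, Real.norm_of_nonneg hσ.le, le_div_iff₀ hσ]
  have h5 : (‖w - b‖ * σ) ^ 2 ≤ ‖(σ : ℂ) ^ 2 - w * (starRingEnd ℂ) b‖ ^ 2 := by
    have e1 : ‖(σ : ℂ) ^ 2 - w * (starRingEnd ℂ) b‖ ^ 2 = σ ^ 4 -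
        2 * σ ^ 2 * (w * (starRingEnd ℂ) b).re + ‖w‖ ^ 2 * ‖b‖ ^ 2 := by
      rw [← Complex.normSq_eq_norm_sq, Complex.normSq_sub]
      have e2 : Complex.normSq ((σ : ℂ) ^ 2) = σ ^ 4 := by
        rw [Complex.normSq_eq_norm_sq, norm_pow, Complex.norm_real, Real.norm_of_nonneg hσ.le]; ring
      have e3 : Complex.normSq (w * (starRingEnd ℂ) b) = ‖w‖ ^ 2 * ‖b‖ ^ 2 := by
        rw [Complex.normSq_eq_norm_sq, norm_mul, RCLike.norm_conj]; ring
      have e4 : ((σ : ℂ) ^ 2 * (starRingEnd ℂ) (w * (starRingEnd ℂ) b)).re =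
          σ ^ 2 * (w * (starRingEnd ℂ) b).re := by
        rw [show (σ : ℂ) ^ 2 = ((σ ^ 2 : ℝ) : ℂ) by push_cast; ring, Complex.re_ofReal_mul,
          Complex.conj_re]
      rw [e2, e3, e4]
      ring
    have e5 : ‖w - b‖ ^ 2 = ‖w‖ ^ 2 + ‖b‖ ^ 2 - 2 * (w * (starRingEnd ℂ) b).re := by
      rw [← Complex.normSq_eq_norm_sq, Complex.normSq_sub, Complex.normSq_eq_norm_sq,
        Complex.normSq_eq_norm_sq]
    rw [e1, mul_pow, e5]
    have e6 : 0 ≤ (σ ^ 2 - ‖w‖ ^ 2) * (σ ^ 2 - ‖b‖ ^ 2) := by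
      apply mul_nonneg
      · nlinarith [norm_nonneg w]
      · nlinarith [norm_nonneg b]
    nlinarith
  exact (sq_le_sq₀ (by positivity) (norm_nonneg _)).1 h5

theorem poisson_log {σ : ℝ} {w b : ℂ} (hw : w ∈ ball (0 : ℂ) σ) (hwb : w ≠ b) :
    Real.log ‖w - b‖ ≤ Real.circleAverage (KK w * (Real.log ‖· - b‖)) 0 σ := by
  rcases lt_trichotomy ‖b‖ σ with h | h | h
  · exact poisson_log_in hw h hwb
  · refine le_of_eq ?_
    have h1 := circleAverage_re_herglotzRieszKernel_mul_log (w := w) (ρ := b) (c := 0) (R := σ)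
      (by rw [mem_sphere_zero_iff_norm]; exact h) hw
    exact h1.symm
  · refine le_of_eq ?_
    have hharm : HarmonicOnNhd (Real.log ‖· - b‖) (closedBall (0 : ℂ) σ) := by
      intro z hz
      refine AnalyticAt.harmonicAt_log_norm (by fun_prop) ?_
      rw [mem_closedBall_zero_iff] at hz
      rw [sub_ne_zero]
      rintro rfl
      linarith
    have h1 := hharm.circleAverage_re_herglotzRieszKernel_smul hw
    exact h1.symm

theorem KK_one {σ : ℝ} {w : ℂ} (hw : w ∈ ball (0 : ℂ) σ) :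
    Real.circleAverage (KK w) 0 σ = 1 := by
  have hharm : HarmonicOnNhd (fun _ : ℂ => (1 : ℝ)) (closedBall (0 : ℂ) σ) := by
    intro z _
    exact harmonicAt_const 1
  have h1 := hharm.circleAverage_re_herglotzRieszKernel_smul hw
  rw [← h1]
  congr 1
  funext z
  simp [KK]

theorem KK_bounds {σ : ℝ} {w z : ℂ} (hw : w ∈ ball (0 : ℂ) σ) (hz : z ∈ sphere (0 : ℂ) σ) :
    0 ≤ KK w z ∧ KK w z ≤ (σ + ‖w‖) / (σ - ‖w‖) := by
  have h1 := re_herglotzRieszKernel_le hz hw
  have h2 := le_re_herglotzRieszKernel hz hw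
  rw [sub_zero w] at h1 h2
  have hw' : ‖w‖ < σ := by rwa [mem_ball_zero_iff] at hw
  have h3 : 0 ≤ (σ - ‖w‖) / (σ + ‖w‖) := by
    apply div_nonneg
    · linarith
    · linarith [norm_nonneg w]
  simp only [KK, Function.comp_apply, herglotzRieszKernel_def]
  rw [sub_zero w]
  exact ⟨h3.trans h2, h1⟩

theorem KK_cont {σ : ℝ} {w : ℂ} (hw : w ∈ ball (0 : ℂ) σ) :
    Continuous fun φ : ℝ => KK w (circleMap 0 σ φ) := by
  have hw' : ‖w‖ < σ := by rwa [mem_ball_zero_iff] at hw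
  have hσ : 0 < σ := (norm_nonneg _).trans_lt hw'
  have h1 := continuousOn_herglotzRieszKernel_sphere (w := w) (c := 0) (R := σ) hw
  have h2 : Continuous fun φ : ℝ => herglotzRieszKernel 0 w (circleMap 0 σ φ) := by
    refine h1.comp_continuous (continuous_circleMap 0 σ) (fun φ => ?_)
    rw [mem_sphere_zero_iff_norm, norm_circleMap_zero]
  exact Complex.continuous_re.comp h2

end Pool.Agent.H13RP
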