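import Pool.Agent.H13RP.Pet4

set_option autoImplicit false

/-! # The unperturbed critical orbit; the perturbed recursion -/

namespace Pool.Agent.H13RP

open Polynomial Metric Filter Topology

/-- the orbit of the critical point `-a` under `w ↦ μ G(w)` -/
noncomputable def W (d : ℕ) (a μ : ℂ) : ℕ → ℂ
  | 0 => -a
  | n + 1 => μ * (Gp d a).eval (W d a μ n)

theorem W_succ (d : ℕ) (a μ : ℂ) (n : ℕ) : W d a μ (n + 1) = μ * (Gp d a).eval (W d a μ n) := rfl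

theorem W_one (d : ℕ) (a : ℂ) (n : ℕ) : W d a 1 n = (fun w => (Gp d a).eval w)^[n] (-a) := by
  induction n with
  | zero => rfl
  | succ n ih => rw [W_succ, one_mul, ih, Function.iterate_succ_apply']

theorem W_diff (d : ℕ) (a : ℂ) (n : ℕ) : Differentiable ℂ (fun μ => W d a μ n) := by
  induction n with
  | zero => exact differentiable_const _
  | succ n ih =>
    simp only [W_succ]
    exact differentiable_id.mul ((Gp d a).differentiable.comp ih)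

section

variable {G Ψ : ℂ[X]} {lam κ : ℂ} {N : ℕ} {δ K : ℝ}

/-- the critical orbit in the coordinate `FF` -/
theorem crit_lin {d : ℕ} (hd : 2 ≤ d) {a : ℂ} (ha : ‖a‖ ≤ 1)
    (L : IsLoc (Gp d a) Ψ κ N δ K) (h : IsNF (Gp d a) Ψ lam κ N) (hG0 : (Gp d a).coeff 0 = 0)
    (hG1 : (Gp d a).coeff 1 = lam) {η : ℝ} (hη : 0 < η) :
    ∀ᶠ k : ℕ in atTop, W d a 1 k ≠ 0 ∧ ‖W d a 1 k‖ ≤ η ∧
      ‖FF Ψ κ N (W d a 1 k) - k‖ ≤ η * k := by
  obtain ⟨R₁, hR₁1, hR₁⟩ := crit_enters hd ha rfl L h hG0 hG1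
  obtain ⟨R₂, hR₂1, hR₂⟩ := L.orbit h.pos
  obtain ⟨R, hR⟩ : ∃ R, R = max R₁ R₂ := ⟨_, rfl⟩
  have hRR1 : R₁ ≤ R := by rw [hR]; exact le_max_left _ _
  have hRR2 : R₂ ≤ R := by rw [hR]; exact le_max_right _ _
  obtain ⟨m, hm⟩ := hR₁ R hRR1
  obtain ⟨w, hw⟩ : ∃ w : ℕ → ℂ, w = fun n => W d a 1 (m + n) := ⟨_, rfl⟩
  have hws : ∀ k, w (k + 1) = (Gp d a).eval (w k) := by
    intro k
    rw [hw]
    show W d a 1 (m + k + 1) = _
    rw [W_succ, one_mul]
  have hw0 : w 0 ∈ Pet Ψ κ N δ R := by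
    rw [hw]
    simp only [add_zero, W_one]
    exact hm
  have horb := hR₂ R hRR2 w hw0 hws
  have hK := L.one
  have hδ := L.pos
  have hN0 : (0 : ℝ) < N := by exact_mod_cast h.pos
  -- the orbit tends to zero
  have hre : ∀ n : ℕ, 3 / 4 * ((n : ℝ) + 1) ≤ ‖FF Ψ κ N (w n)‖ := by
    intro n
    have h1 := (horb n).2
    have h2 := hw0.2.2
    have h3 := Complex.re_le_norm (FF Ψ κ N (w n))
    have h4 : 1 ≤ R := hR₁1.trans hRR1
    have h5 : (0 : ℝ) ≤ n := Nat.cast_nonneg n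
    linarith
  have hsz : ∀ n : ℕ, ‖w n‖ ≤ K * (3 / 4 * ((n : ℝ) + 1)) ^ (-(1 / (N : ℝ))) := by
    intro n
    exact L.size_re h.pos (horb n).1.1 (by linarith [(horb n).1.2.1, norm_nonneg (w n)])
      (by positivity) (hre n)
  have hlim0 : Tendsto (fun n : ℕ => K * (3 / 4 * ((n : ℝ) + 1)) ^ (-(1 / (N : ℝ)))) atTop (𝓝 0) := by
    have h1 : Tendsto (fun n : ℕ => 3 / 4 * ((n : ℝ) + 1)) atTop atTop := by
      apply Tendsto.const_mul_atTop (by norm_num)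
      exact tendsto_atTop_add_const_right _ _ tendsto_natCast_atTop_atTop
    have h2 := (tendsto_rpow_neg_atTop (y := 1 / (N : ℝ)) (by positivity)).comp h1
    have h3 := h2.const_mul K
    rw [mul_zero] at h3
    exact h3
  have hw00 : Tendsto (fun n => ‖w n‖) atTop (𝓝 0) :=
    squeeze_zero (fun n => norm_nonneg _) hsz hlim0
  -- increments
  have hinc : Tendsto (fun n => FF Ψ κ N (w (n + 1)) - FF Ψ κ N (w n)) atTop (𝓝 1) := by
    rw [tendsto_iff_norm_sub_tendsto_zero]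
    have h1 : Tendsto (fun n => K * ‖w n‖) atTop (𝓝 0) := by
      have := hw00.const_mul K
      rwa [mul_zero] at this
    refine squeeze_zero (fun n => norm_nonneg _) (fun n => ?_) h1
    have h2 := L.step1 (horb n).1.1 (horb n).1.2.1
    rw [← hws n] at h2
    have h3 : FF Ψ κ N (w (n + 1)) - FF Ψ κ N (w n) - 1 =
        FF Ψ κ N (w (n + 1)) - (FF Ψ κ N (w n) + 1) := by ring
    rw [h3]
    exact h2
  have hces := hinc.cesaro_smul
  have hsum : ∀ n : ℕ, ∑ i ∈ Finset.range n, (FF Ψ κ N (w (i + 1)) - FF Ψ κ N (w i)) =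
      FF Ψ κ N (w n) - FF Ψ κ N (w 0) := fun n => Finset.sum_range_sub (fun i => FF Ψ κ N (w i)) n
  simp only [hsum] at hces
  -- conclusion
  have hcast : Tendsto (fun n : ℕ => (n : ℝ)) atTop atTop := tendsto_natCast_atTop_atTop
  obtain ⟨C, hC⟩ : ∃ C, C = ‖FF Ψ κ N (w 0)‖ + m := ⟨_, rfl⟩
  have e1 : ∀ᶠ n : ℕ in atTop, ‖((n : ℝ)⁻¹ • (FF Ψ κ N (w n) - FF Ψ κ N (w 0))) - 1‖ < η / 2 := by
    have := (tendsto_iff_norm_sub_tendsto_zero.1 hces).eventually (gt_mem_nhds (half_pos hη))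
    exact this
  have e2 : ∀ᶠ n : ℕ in atTop, C / (η / 2) ≤ (n : ℝ) := hcast.eventually_ge_atTop _
  have e3 : ∀ᶠ n : ℕ in atTop, ‖w n‖ < η := hw00.eventually (gt_mem_nhds hη)
  have e4 := (e1.and (e2.and (e3.and (eventually_ge_atTop 1))))
  rw [← map_add_atTop_eq_nat m, eventually_map]
  filter_upwards [e4] with n hn
  obtain ⟨h1, h2, h3, h4⟩ := hn
  have hwn : W d a 1 (n + m) = w n := by rw [hw, add_comm]
  rw [hwn]
  refine ⟨(horb n).1.1, h3.le, ?_⟩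
  have hn0 : (0 : ℝ) < n := by exact_mod_cast h4
  have h5 : ‖(FF Ψ κ N (w n) - FF Ψ κ N (w 0)) - n‖ ≤ η / 2 * n := by
    have h6 : (FF Ψ κ N (w n) - FF Ψ κ N (w 0)) - n =
        (n : ℝ) • (((n : ℝ)⁻¹ • (FF Ψ κ N (w n) - FF Ψ κ N (w 0))) - 1) := by
      rw [smul_sub, smul_smul, mul_inv_cancel₀ hn0.ne', one_smul]
      simp
    rw [h6, norm_smul, Real.norm_of_nonneg hn0.le]
    calc (n : ℝ) * ‖((n : ℝ)⁻¹ • (FF Ψ κ N (w n) - FF Ψ κ N (w 0))) - 1‖ ≤ n * (η / 2) :=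
          mul_le_mul_of_nonneg_left h1.le hn0.le
      _ = η / 2 * n := by ring
  have h6 : FF Ψ κ N (w n) - ((n + m : ℕ) : ℂ) =
      ((FF Ψ κ N (w n) - FF Ψ κ N (w 0)) - n) + (FF Ψ κ N (w 0) - m) := by
    push_cast; ring
  rw [h6]
  refine (norm_add_le _ _).trans ?_
  have h7 : ‖FF Ψ κ N (w 0) - m‖ ≤ C := by
    rw [hC]
    refine (norm_sub_le _ _).trans ?_
    rw [Complex.norm_natCast]
  have h8 : C ≤ η / 2 * n := by
    rw [div_le_iff₀ (by positivity)] at h2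
    linarith
  push_cast
  have hm0 : (0 : ℝ) ≤ m := Nat.cast_nonneg m
  nlinarith

end

end Pool.Agent.H13RP
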