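import Pool.Agent.H13RP.Seq

set_option autoImplicit false

/-! # The perturbed recursion -/

namespace Pool.Agent.H13RP

open Polynomial Metric Filter Topology

theorem rp1 {m k : ℝ} {N : ℕ} (hN : 0 < N) (hm0 : 0 < m) (hm1 : m ≤ 1) (hk : 1 ≤ k) :
    (m * k / 4) ^ (-(1 / (N : ℝ))) ≤ 8 / m * (k + 1) ^ (-(1 / ((N : ℝ) + 1))) := by
  have hN0 : (0 : ℝ) < N := by exact_mod_cast hN
  have hN1 : (1 : ℝ) ≤ N := by exact_mod_cast hN
  have hN2 : 1 / (N : ℝ) ≤ 1 := by rw [div_le_one hN0]; exact hN1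
  have hN3 : 1 / ((N : ℝ) + 1) ≤ 1 := by rw [div_le_one (by linarith)]; linarith
  have hN4 : 1 / ((N : ℝ) + 1) ≤ 1 / N := one_div_le_one_div_of_le hN0 (by linarith)
  have h4 : 1 ≤ 4 / m := by rw [le_div_iff₀ hm0]; linarith
  have e1 : (m * k / 4) ^ (-(1 / (N : ℝ))) = (4 / m) ^ (1 / (N : ℝ)) * k ^ (-(1 / (N : ℝ))) := by
    rw [show m * k / 4 = (4 / m)⁻¹ * k by rw [inv_div]; ring,
      Real.mul_rpow (by positivity) (by linarith), Real.rpow_neg (by positivity),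
      Real.inv_rpow (by positivity), inv_inv]
  have e2 : (4 / m) ^ (1 / (N : ℝ)) ≤ 4 / m := by
    calc (4 / m) ^ (1 / (N : ℝ)) ≤ (4 / m) ^ (1 : ℝ) := Real.rpow_le_rpow_of_exponent_le h4 hN2
      _ = 4 / m := Real.rpow_one _
  have e3 : k ^ (-(1 / (N : ℝ))) ≤ k ^ (-(1 / ((N : ℝ) + 1))) :=
    Real.rpow_le_rpow_of_exponent_le hk (by linarith)
  have e4 : k ^ (-(1 / ((N : ℝ) + 1))) ≤ 2 * (k + 1) ^ (-(1 / ((N : ℝ) + 1))) := by
    calc k ^ (-(1 / ((N : ℝ) + 1))) ≤ ((k + 1) / 2) ^ (-(1 / ((N : ℝ) + 1))) := by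
          apply Real.rpow_le_rpow_of_nonpos (by linarith) (by linarith)
          have : 0 < 1 / ((N : ℝ) + 1) := by positivity
          linarith
      _ = 2 ^ (1 / ((N : ℝ) + 1)) * (k + 1) ^ (-(1 / ((N : ℝ) + 1))) := by
          rw [show (k + 1) / 2 = (2 : ℝ)⁻¹ * (k + 1) by ring,
            Real.mul_rpow (by norm_num) (by linarith), Real.rpow_neg (by norm_num : (0:ℝ) ≤ 2⁻¹),
            Real.inv_rpow (by norm_num), inv_inv]
      _ ≤ 2 * (k + 1) ^ (-(1 / ((N : ℝ) + 1))) := by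
          apply mul_le_mul_of_nonneg_right _ (by positivity)
          calc (2 : ℝ) ^ (1 / ((N : ℝ) + 1)) ≤ 2 ^ (1 : ℝ) :=
                Real.rpow_le_rpow_of_exponent_le (by norm_num) hN3
            _ = 2 := Real.rpow_one _
  rw [e1]
  calc (4 / m) ^ (1 / (N : ℝ)) * k ^ (-(1 / (N : ℝ))) ≤
      4 / m * (2 * (k + 1) ^ (-(1 / ((N : ℝ) + 1)))) :=
        mul_le_mul e2 (e3.trans e4) (by positivity) (by positivity)
    _ = 8 / m * (k + 1) ^ (-(1 / ((N : ℝ) + 1))) := by ring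

theorem rp_step {p : ℝ} (hp0 : 0 < p) (hp1 : p ≤ 1 / 2) (k : ℕ) :
    ((k : ℝ) + 1) ^ (-p) ≤ 2 * (((k : ℝ) + 1) ^ (1 - p) - (k : ℝ) ^ (1 - p)) := by
  have hk : (0 : ℝ) ≤ k := Nat.cast_nonneg k
  have hk1 : (0 : ℝ) < (k : ℝ) + 1 := by linarith
  have h1 := rpow_one_add_le_one_add_mul_self (s := -(1 / ((k : ℝ) + 1)))
    (by
      have : 1 / ((k : ℝ) + 1) ≤ 1 := by rw [div_le_one hk1]; linarith
      linarith) (p := 1 - p) (by linarith) (by linarith)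
  have h2 : 1 + -(1 / ((k : ℝ) + 1)) = k / ((k : ℝ) + 1) := by field_simp; ring
  rw [h2, Real.div_rpow hk hk1.le, div_le_iff₀ (by positivity)] at h1
  have h3 : ((k : ℝ) + 1) ^ (-p) = ((k : ℝ) + 1) ^ (1 - p) * (1 / ((k : ℝ) + 1)) := by
    rw [show -p = (1 - p) + (-1) by ring, Real.rpow_add hk1, Real.rpow_neg_one, one_div]
  have h4 : (1 + (1 - p) * -(1 / ((k : ℝ) + 1))) * ((k : ℝ) + 1) ^ (1 - p) =
      ((k : ℝ) + 1) ^ (1 - p) - (1 - p) * ((k : ℝ) + 1) ^ (-p) := by rw [h3]; ring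
  rw [h4] at h1
  have h5 : 0 < ((k : ℝ) + 1) ^ (-p) := by positivity
  nlinarith

/-- partial sums -/
noncomputable def SS (p : ℝ) (k : ℕ) : ℝ := ∑ j ∈ Finset.range k, ((j : ℝ) + 1) ^ (-p)

theorem SS_succ (p : ℝ) (k : ℕ) : SS p (k + 1) = SS p k + ((k : ℝ) + 1) ^ (-p) :=
  Finset.sum_range_succ _ _

theorem SS_le {p : ℝ} (hp0 : 0 < p) (hp1 : p ≤ 1 / 2) (k : ℕ) : SS p k ≤ 2 * (k : ℝ) ^ (1 - p) := by
  induction k with
  | zero => simp [SS]; positivity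
  | succ k ih =>
    rw [SS_succ]
    have := rp_step hp0 hp1 k
    push_cast
    linarith

theorem SS_nonneg (p : ℝ) (k : ℕ) : 0 ≤ SS p k :=
  Finset.sum_nonneg fun j _ => by positivity

theorem SS_sub {p : ℝ} (hp0 : 0 < p) {k₀ k : ℕ} (hk₀ : 1 ≤ k₀) (h : k₀ ≤ k) :
    SS p k - SS p k₀ ≤ ((k : ℝ) - k₀) * (k₀ : ℝ) ^ (-p) := by
  induction k, h using Nat.le_induction with
  | base => simp
  | succ k hk ih =>
    rw [SS_succ]
    have h1 : ((k : ℝ) + 1) ^ (-p) ≤ (k₀ : ℝ) ^ (-p) := by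
      apply Real.rpow_le_rpow_of_nonpos (by exact_mod_cast hk₀) _ (by linarith)
      have : (k₀ : ℝ) ≤ k := by exact_mod_cast hk
      linarith
    push_cast
    have h2 : ((k : ℝ) + 1 - k₀) * (k₀ : ℝ) ^ (-p) = ((k : ℝ) - k₀) * (k₀ : ℝ) ^ (-p) +
      (k₀ : ℝ) ^ (-p) := by ring
    linarith

/-- the quantity which is nearly invariant -/
noncomputable def DD (t F : ℂ) (k : ℕ) : ℂ :=
  Complex.exp (k * t) * (1 - (Complex.exp t - 1) * F)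

theorem DD_step (t F err : ℂ) (k : ℕ) :
    DD t ((Complex.exp t)⁻¹ * (F + 1) + err) (k + 1) - DD t F k =
      -((Complex.exp t - 1) * Complex.exp ((k + 1 : ℕ) * t) * err) := by
  have h1 : Complex.exp ((k + 1 : ℕ) * t) = Complex.exp (k * t) * Complex.exp t := by
    rw [← Complex.exp_add]; congr 1; push_cast; ring
  have h2 : Complex.exp t * (Complex.exp t)⁻¹ = 1 := mul_inv_cancel₀ (Complex.exp_ne_zero t)
  rw [DD, DD, h1]
  linear_combination (-(Complex.exp (k * t) * (Complex.exp t - 1) * (F + 1))) * h2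

theorem exp_sub_one_ge {t : ℂ} (ht : ‖t‖ ≤ 1 / 2) : ‖t‖ / 2 ≤ ‖Complex.exp t - 1‖ := by
  have h1 := Complex.norm_exp_sub_one_sub_id_le (x := t) (by linarith)
  have h2 : t = (Complex.exp t - 1) - (Complex.exp t - 1 - t) := by ring
  have h3 := norm_sub_le (Complex.exp t - 1) (Complex.exp t - 1 - t)
  rw [← h2] at h3
  nlinarith [norm_nonneg t]

theorem F_bounds {m R₁ : ℝ} (hm0 : 0 < m) (hm1 : m ≤ 1)
    (hm : ∀ x : ℂ, ‖x‖ ≤ R₁ → m * ‖x‖ ≤ ‖1 - Complex.exp (-x)‖) {t F : ℂ} {k : ℕ}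
    (ht0 : t ≠ 0) (ht : ‖t‖ ≤ 1 / 2) (hk : k * ‖t‖ ≤ R₁)
    (hD : ‖DD t F k - 1‖ ≤ m / (2 * Real.exp R₁) * (k * ‖t‖)) :
    m * k / 4 ≤ ‖F‖ ∧ ‖t‖ * ‖F‖ ≤ 2 * (1 + Real.exp R₁ + Real.exp R₁ * R₁) := by
  have hE : 0 < Real.exp R₁ := Real.exp_pos _
  have htp : 0 < ‖t‖ := norm_pos_iff.2 ht0
  have hkt : ‖(k : ℂ) * t‖ = k * ‖t‖ := by rw [norm_mul, Complex.norm_natCast]
  have hk0 : 0 ≤ (k : ℝ) * ‖t‖ := by positivity
  have hR0 : 0 ≤ R₁ := hk0.trans hk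
  have hE1 : 1 ≤ Real.exp R₁ := Real.one_le_exp hR0
  have e1 : (Complex.exp t - 1) * F = (1 - Complex.exp (-(k * t))) -
      Complex.exp (-(k * t)) * (DD t F k - 1) := by
    rw [DD]
    have h2 : Complex.exp (-(k * t)) * Complex.exp (k * t) = 1 := by
      rw [← Complex.exp_add, neg_add_cancel, Complex.exp_zero]
    linear_combination (1 - (Complex.exp t - 1) * F) * h2
  have hexp : ‖Complex.exp (-(k * t))‖ ≤ Real.exp R₁ := by
    rw [Complex.norm_exp]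
    apply Real.exp_le_exp.2
    calc (-((k : ℂ) * t)).re ≤ ‖-((k : ℂ) * t)‖ := Complex.re_le_norm _
      _ = k * ‖t‖ := by rw [norm_neg, hkt]
      _ ≤ R₁ := hk
  have h1 := hm ((k : ℂ) * t) (by rw [hkt]; exact hk)
  rw [hkt] at h1
  have h2 : ‖Complex.exp (-(k * t)) * (DD t F k - 1)‖ ≤ m / 2 * (k * ‖t‖) := by
    rw [norm_mul]
    calc ‖Complex.exp (-(k * t))‖ * ‖DD t F k - 1‖ ≤
        Real.exp R₁ * (m / (2 * Real.exp R₁) * (k * ‖t‖)) :=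
          mul_le_mul hexp hD (norm_nonneg _) hE.le
      _ = m / 2 * (k * ‖t‖) := by field_simp
  have h3 : m / 2 * (k * ‖t‖) ≤ ‖(Complex.exp t - 1) * F‖ := by
    rw [e1]
    have := norm_sub_norm_le (1 - Complex.exp (-(k * t))) (Complex.exp (-(k * t)) * (DD t F k - 1))
    linarith
  have h4 : ‖(Complex.exp t - 1) * F‖ ≤ 2 * ‖t‖ * ‖F‖ := by
    rw [norm_mul]
    exact mul_le_mul_of_nonneg_right (Complex.norm_exp_sub_one_le (by linarith)) (norm_nonneg _)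
  refine ⟨?_, ?_⟩
  · have h5 : (m * k / 4) * (2 * ‖t‖) ≤ ‖F‖ * (2 * ‖t‖) := by
      calc (m * k / 4) * (2 * ‖t‖) = m / 2 * (k * ‖t‖) := by ring
        _ ≤ 2 * ‖t‖ * ‖F‖ := h3.trans h4
        _ = ‖F‖ * (2 * ‖t‖) := by ring
    exact le_of_mul_le_mul_right h5 (by positivity)
  · have h5 := exp_sub_one_ge ht
    have h6 : ‖(Complex.exp t - 1) * F‖ ≤ 1 + Real.exp R₁ + Real.exp R₁ * R₁ := by
      rw [e1]
      refine (norm_sub_le _ _).trans ?_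
      have h7 : ‖1 - Complex.exp (-(k * t))‖ ≤ 1 + Real.exp R₁ := by
        refine (norm_sub_le _ _).trans ?_
        rw [norm_one]; linarith
      have h8 : m / 2 * (k * ‖t‖) ≤ Real.exp R₁ * R₁ := by
        have : m / 2 ≤ Real.exp R₁ := by linarith
        exact mul_le_mul this hk hk0 hE.le
      linarith
    rw [norm_mul] at h6
    have h7 : ‖t‖ / 2 * ‖F‖ ≤ ‖Complex.exp t - 1‖ * ‖F‖ :=
      mul_le_mul_of_nonneg_right h5 (norm_nonneg _)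
    linarith

section

variable {Ψ : ℂ[X]} {lam κ : ℂ} {N : ℕ} {δ K : ℝ}

/-- the perturbed orbit -/
theorem seq_main {d : ℕ} {a : ℂ} (L : IsLoc (Gp d a) Ψ κ N δ K) (hN : 0 < N)
    {m R₁ : ℝ} (hm0 : 0 < m) (hm1 : m ≤ 1)
    (hm : ∀ x : ℂ, ‖x‖ ≤ R₁ → m * ‖x‖ ≤ ‖1 - Complex.exp (-x)‖)
    {η : ℝ} (hη : η = m / (4 * Real.exp R₁)) {C₁ : ℝ}
    (hC₁ : C₁ = 2 * Real.exp R₁ * (K * (K * (8 / m)) *
      (1 + 4 * (1 + Real.exp R₁ + Real.exp R₁ * R₁))))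
    {k₀ : ℕ} (hk₀ : 1 ≤ k₀) (hk₀a : C₁ * (k₀ : ℝ) ^ (-(1 / ((N : ℝ) + 1))) ≤ η)
    (hk₀b : K * (8 / m) * (k₀ : ℝ) ^ (-(1 / ((N : ℝ) + 1))) ≤ δ)
    {t : ℂ} (ht0 : t ≠ 0) (ht : ‖t‖ ≤ 1 / 2) (htδ : ‖Complex.exp (t / N) - 1‖ ≤ δ)
    (hW0 : W d a (Complex.exp (t / N)) k₀ ≠ 0) (hW1 : ‖W d a (Complex.exp (t / N)) k₀‖ ≤ δ)
    (hD0 : ‖DD t (FF Ψ κ N (W d a (Complex.exp (t / N)) k₀)) k₀ - 1‖ ≤ η * k₀ * ‖t‖)
    {k : ℕ} (hk : k₀ ≤ k) (hkR : k * ‖t‖ ≤ R₁) :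
    W d a (Complex.exp (t / N)) k ≠ 0 ∧ ‖W d a (Complex.exp (t / N)) k‖ ≤ δ ∧
      ‖DD t (FF Ψ κ N (W d a (Complex.exp (t / N)) k)) k - 1‖ ≤ η * k₀ * ‖t‖ +
        C₁ * ‖t‖ * (SS (1 / ((N : ℝ) + 1)) k - SS (1 / ((N : ℝ) + 1)) k₀) := by
  have hδ := L.pos
  have hK := L.one
  have hN0 : (0 : ℝ) < N := by exact_mod_cast hN
  have hN1 : (1 : ℝ) ≤ N := by exact_mod_cast hN
  have hNc : (N : ℂ) ≠ 0 := Nat.cast_ne_zero.2 hN.ne'
  obtain ⟨p, hp⟩ : ∃ p, p = 1 / ((N : ℝ) + 1) := ⟨_, rfl⟩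
  have hp0 : 0 < p := by rw [hp]; positivity
  obtain ⟨μ, hμ⟩ : ∃ μ, μ = Complex.exp (t / N) := ⟨_, rfl⟩
  have hμN : μ ^ N = Complex.exp t := by
    rw [hμ, ← Complex.exp_nat_mul, mul_div_cancel₀ _ hNc]
  have htp : 0 < ‖t‖ := norm_pos_iff.2 ht0
  have hE : 0 < Real.exp R₁ := Real.exp_pos _
  rw [← hp] at hk₀a hk₀b ⊢
  rw [← hμ] at htδ hW0 hW1 hD0 ⊢
  have hη0 : 0 < η := by rw [hη]; positivity
  have hk₀1 : (1 : ℝ) ≤ k₀ := by exact_mod_cast hk₀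
  have hkR0 : (k₀ : ℝ) * ‖t‖ ≤ R₁ := by
    refine le_trans ?_ hkR
    exact mul_le_mul_of_nonneg_right (by exact_mod_cast hk) htp.le
  have hR0 : 0 ≤ R₁ := by
    refine le_trans ?_ hkR0
    positivity
  have hC₁0 : 0 < C₁ := by rw [hC₁]; positivity
  -- the a priori bound
  have hap : ∀ j : ℕ, k₀ ≤ j → ∀ x : ℝ, x ≤ η * k₀ * ‖t‖ + C₁ * ‖t‖ * (SS p j - SS p k₀) →
      x ≤ m / (2 * Real.exp R₁) * (j * ‖t‖) := by
    intro j hj x hx
    have h1 := SS_sub hp0 hk₀ hj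
    have hj' : (k₀ : ℝ) ≤ j := by exact_mod_cast hj
    have h2 : C₁ * ‖t‖ * (SS p j - SS p k₀) ≤ η * ‖t‖ * (j - k₀) := by
      calc C₁ * ‖t‖ * (SS p j - SS p k₀) ≤ C₁ * ‖t‖ * (((j : ℝ) - k₀) * (k₀ : ℝ) ^ (-p)) :=
            mul_le_mul_of_nonneg_left h1 (by positivity)
        _ = (C₁ * (k₀ : ℝ) ^ (-p)) * (‖t‖ * (j - k₀)) := by ring
        _ ≤ η * (‖t‖ * (j - k₀)) := by
            apply mul_le_mul_of_nonneg_right hk₀a
            exact mul_nonneg htp.le (by linarith)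
        _ = η * ‖t‖ * (j - k₀) := by ring
    have h3 : m / (2 * Real.exp R₁) = 2 * η := by rw [hη]; field_simp; norm_num
    rw [h3]
    have h4 : 0 ≤ η * (j * ‖t‖) := by positivity
    calc x ≤ η * k₀ * ‖t‖ + η * ‖t‖ * (j - k₀) := by linarith
      _ = η * (j * ‖t‖) := by ring
      _ ≤ 2 * η * (j * ‖t‖) := by linarith
  induction k, hk using Nat.le_induction with
  | base =>
    refine ⟨hW0, hW1, ?_⟩
    rw [sub_self, mul_zero, add_zero]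
    exact hD0
  | succ k hk ih =>
    have hkR' : (k : ℝ) * ‖t‖ ≤ R₁ := by
      refine le_trans ?_ hkR
      apply mul_le_mul_of_nonneg_right _ htp.le
      push_cast; linarith
    obtain ⟨ih0, ih1, ih2⟩ := ih hkR'
    have hk1 : (1 : ℝ) ≤ k := hk₀1.trans (by exact_mod_cast hk)
    have hb := F_bounds hm0 hm1 hm ht0 ht hkR' (hap k hk _ ih2)
    obtain ⟨w, hw⟩ : ∃ w, w = W d a μ k := ⟨_, rfl⟩
    obtain ⟨F, hF⟩ : ∃ F, F = FF Ψ κ N w := ⟨_, rfl⟩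
    rw [← hw] at ih0 ih1 ih2 hb
    rw [← hF] at hb ih2
    have hlow := L.glow w μ ih1 htδ
    have hup := L.gup w μ ih1 htδ
    have hw' : W d a μ (k + 1) = μ * (Gp d a).eval w := by rw [W_succ, hw]
    rw [← hw'] at hlow hup
    have hwp : 0 < ‖w‖ := norm_pos_iff.2 ih0
    have hne : W d a μ (k + 1) ≠ 0 := norm_pos_iff.1 (by linarith)
    have hle2 : ‖W d a μ (k + 1)‖ ≤ 2 * δ := by linarith
    have hstep := L.step w μ ih0 ih1 htδ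
    rw [← hw', hμN] at hstep
    have hwsize : ‖w‖ ≤ K * (8 / m) * ((k : ℝ) + 1) ^ (-p) := by
      have h1 := L.size_re hN ih0 (by linarith) (t := m * k / 4) (by positivity) (by
        rw [← hF]; exact hb.1)
      have h2 := rp1 hN hm0 hm1 hk1
      rw [← hp] at h2
      calc ‖w‖ ≤ K * (m * k / 4) ^ (-(1 / (N : ℝ))) := h1
        _ ≤ K * (8 / m * ((k : ℝ) + 1) ^ (-p)) := mul_le_mul_of_nonneg_left h2 (by linarith)
        _ = K * (8 / m) * ((k : ℝ) + 1) ^ (-p) := by ring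
    have hμ1 : ‖μ - 1‖ ≤ 2 * ‖t‖ := by
      have h1 : ‖t / N‖ ≤ ‖t‖ := by
        rw [norm_div, Complex.norm_natCast]
        exact div_le_self (norm_nonneg _) hN1
      rw [hμ]
      exact (Complex.norm_exp_sub_one_le (by linarith)).trans (by linarith)
    obtain ⟨err, herr⟩ : ∃ err, err = FF Ψ κ N (W d a μ (k + 1)) -
      (Complex.exp t)⁻¹ * (F + 1) := ⟨_, rfl⟩
    have herr1 : ‖err‖ ≤ K * (K * (8 / m)) * (1 + 4 * (1 + Real.exp R₁ + Real.exp R₁ * R₁)) *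
        ((k : ℝ) + 1) ^ (-p) := by
      rw [herr, hF]
      refine hstep.trans ?_
      have h1 : ‖μ - 1‖ * ‖(PF Ψ κ N w)⁻¹‖ ≤ 4 * (1 + Real.exp R₁ + Real.exp R₁ * R₁) := by
        have h2 : (PF Ψ κ N w)⁻¹ = F := by rw [hF]; rfl
        rw [h2]
        calc ‖μ - 1‖ * ‖F‖ ≤ 2 * ‖t‖ * ‖F‖ := mul_le_mul_of_nonneg_right hμ1 (norm_nonneg _)
          _ = 2 * (‖t‖ * ‖F‖) := by ring
          _ ≤ 2 * (2 * (1 + Real.exp R₁ + Real.exp R₁ * R₁)) := by linarith [hb.2]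
          _ = _ := by ring
      calc K * ‖w‖ * (1 + ‖μ - 1‖ * ‖(PF Ψ κ N w)⁻¹‖) ≤
          K * (K * (8 / m) * ((k : ℝ) + 1) ^ (-p)) *
            (1 + 4 * (1 + Real.exp R₁ + Real.exp R₁ * R₁)) := by
            apply mul_le_mul _ (by linarith) (by positivity) (by positivity)
            exact mul_le_mul_of_nonneg_left hwsize (by linarith)
        _ = _ := by ring
    have hFe : FF Ψ κ N (W d a μ (k + 1)) = (Complex.exp t)⁻¹ * (F + 1) + err := by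
      rw [herr]; ring
    have hDstep := DD_step t F err k
    rw [← hFe] at hDstep
    have hexp : ‖Complex.exp ((k + 1 : ℕ) * t)‖ ≤ Real.exp R₁ := by
      rw [Complex.norm_exp]
      apply Real.exp_le_exp.2
      calc (((k + 1 : ℕ) : ℂ) * t).re ≤ ‖((k + 1 : ℕ) : ℂ) * t‖ := Complex.re_le_norm _
        _ = (k + 1 : ℕ) * ‖t‖ := by rw [norm_mul, Complex.norm_natCast]
        _ ≤ R₁ := hkR
    have hDn : ‖DD t (FF Ψ κ N (W d a μ (k + 1))) (k + 1) - DD t F k‖ ≤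
        C₁ * ‖t‖ * ((k : ℝ) + 1) ^ (-p) := by
      rw [hDstep, norm_neg, norm_mul, norm_mul]
      have h1 := Complex.norm_exp_sub_one_le (x := t) (by linarith)
      calc ‖Complex.exp t - 1‖ * ‖Complex.exp ((k + 1 : ℕ) * t)‖ * ‖err‖ ≤
          (2 * ‖t‖) * Real.exp R₁ * (K * (K * (8 / m)) *
            (1 + 4 * (1 + Real.exp R₁ + Real.exp R₁ * R₁)) * ((k : ℝ) + 1) ^ (-p)) := by
            apply mul_le_mul _ herr1 (norm_nonneg _) (by positivity)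
            exact mul_le_mul h1 hexp (norm_nonneg _) (by positivity)
        _ = C₁ * ‖t‖ * ((k : ℝ) + 1) ^ (-p) := by rw [hC₁]; ring
    have hD' : ‖DD t (FF Ψ κ N (W d a μ (k + 1))) (k + 1) - 1‖ ≤ η * k₀ * ‖t‖ +
        C₁ * ‖t‖ * (SS p (k + 1) - SS p k₀) := by
      have h1 : DD t (FF Ψ κ N (W d a μ (k + 1))) (k + 1) - 1 =
          (DD t (FF Ψ κ N (W d a μ (k + 1))) (k + 1) - DD t F k) + (DD t F k - 1) := by ring
      rw [h1]
      refine (norm_add_le _ _).trans ?_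
      rw [SS_succ]
      have h2 : C₁ * ‖t‖ * (SS p k + ((k : ℝ) + 1) ^ (-p) - SS p k₀) =
          C₁ * ‖t‖ * (SS p k - SS p k₀) + C₁ * ‖t‖ * ((k : ℝ) + 1) ^ (-p) := by ring
      rw [h2]
      linarith
    refine ⟨hne, ?_, hD'⟩
    have hb' := F_bounds hm0 hm1 hm ht0 ht hkR (hap (k + 1) (by omega) _ hD')
    have h1 := L.size_re hN hne hle2 (t := m * ((k + 1 : ℕ) : ℝ) / 4) (by positivity) hb'.1
    have h2 := rp1 (k := ((k + 1 : ℕ) : ℝ)) hN hm0 hm1 (by push_cast; linarith)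
    rw [← hp] at h2
    calc ‖W d a μ (k + 1)‖ ≤ K * (m * ((k + 1 : ℕ) : ℝ) / 4) ^ (-(1 / (N : ℝ))) := h1
      _ ≤ K * (8 / m * (((k + 1 : ℕ) : ℝ) + 1) ^ (-p)) := mul_le_mul_of_nonneg_left h2 (by linarith)
      _ ≤ K * (8 / m * (k₀ : ℝ) ^ (-p)) := by
          apply mul_le_mul_of_nonneg_left _ (by linarith)
          apply mul_le_mul_of_nonneg_left _ (by positivity)
          apply Real.rpow_le_rpow_of_nonpos (by linarith) _ (by linarith)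
          push_cast
          have : (k₀ : ℝ) ≤ k := by exact_mod_cast hk
          linarith
      _ = K * (8 / m) * (k₀ : ℝ) ^ (-p) := by ring
      _ ≤ δ := hk₀b

end

end Pool.Agent.H13RP
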