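import Pool.Agent.H13RP.Seq2

set_option autoImplicit false

/-! # The perturbed orbit up to the time `R₁ / |t|` -/

namespace Pool.Agent.H13RP

open Polynomial Metric Filter Topology

theorem exists_m {R₁ : ℝ} (h1 : R₁ < 2 * Real.pi) : ∃ m : ℝ, 0 < m ∧ m ≤ 1 ∧
    ∀ x : ℂ, ‖x‖ ≤ R₁ → m * ‖x‖ ≤ ‖1 - Complex.exp (-x)‖ := by
  obtain ⟨f, hf⟩ : ∃ f : ℂ → ℂ, f = fun x => 1 - Complex.exp (-x) := ⟨_, rfl⟩
  have hfd : ∀ x, HasDerivAt f (Complex.exp (-x)) x := by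
    intro x
    rw [hf]
    exact (((hasDerivAt_neg x).cexp).const_sub 1).congr_deriv (by ring)
  have hd : Differentiable ℂ f := fun x => (hfd x).differentiableAt
  have hf0 : f 0 = 0 := by rw [hf]; simp
  have hcont : Continuous (dslope f 0) := by
    rw [← continuousOn_univ, continuousOn_dslope univ_mem]
    exact ⟨hd.continuous.continuousOn, hd 0⟩
  have hne : ∀ x ∈ closedBall (0 : ℂ) R₁, dslope f 0 x ≠ 0 := by
    intro x hx h0
    rcases eq_or_ne x 0 with rfl | hx0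
    · rw [dslope_same, (hfd 0).deriv, neg_zero, Complex.exp_zero] at h0
      exact one_ne_zero h0
    · rw [dslope_of_ne _ hx0, slope_def_field, sub_zero, hf0, sub_zero, div_eq_zero_iff] at h0
      rcases h0 with h0 | h0
      · rw [hf] at h0
        have h2 : Complex.exp (-x) = 1 := by linear_combination (-1) * h0
        obtain ⟨n, hn⟩ := Complex.exp_eq_one_iff.1 h2
        have h3 : ‖x‖ = |(n : ℝ)| * (2 * Real.pi) := by
          rw [← norm_neg, hn, norm_mul, Complex.norm_intCast, norm_mul, Complex.norm_I, mul_one,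
            norm_mul, Complex.norm_ofNat, Complex.norm_real, Real.norm_of_nonneg Real.pi_pos.le]
        have h4 : n ≠ 0 := by
          rintro rfl
          apply hx0
          rw [← neg_eq_zero, hn]
          simp
        have h5 : 1 ≤ |(n : ℝ)| := by
          have := Int.one_le_abs h4
          exact_mod_cast this
        rw [mem_closedBall_zero_iff, h3] at hx
        have := Real.pi_pos
        nlinarith
      · exact hx0 h0
  obtain ⟨m, hm0, hm⟩ : ∃ m : ℝ, 0 < m ∧ ∀ x ∈ closedBall (0 : ℂ) R₁, m ≤ ‖dslope f 0 x‖ := by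
    rcases (closedBall (0 : ℂ) R₁).eq_empty_or_nonempty with he | hne'
    · refine ⟨1, one_pos, fun x hx => ?_⟩
      rw [he] at hx
      exact absurd hx (Set.notMem_empty x)
    · obtain ⟨x₀, hx₀, hmin⟩ := (isCompact_closedBall (0 : ℂ) R₁).exists_isMinOn hne'
        (f := fun x => ‖dslope f 0 x‖) hcont.norm.continuousOn
      exact ⟨‖dslope f 0 x₀‖, norm_pos_iff.2 (hne x₀ hx₀), fun x hx => hmin hx⟩
  refine ⟨min m 1, lt_min hm0 one_pos, min_le_right _ _, fun x hx => ?_⟩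
  have h2 := hm x (by rwa [mem_closedBall_zero_iff])
  have h3 : f x = x * dslope f 0 x := by
    have := sub_smul_dslope f 0 x
    rw [sub_zero, hf0, sub_zero, smul_eq_mul] at this
    exact this.symm
  have h4 : ‖1 - Complex.exp (-x)‖ = ‖x‖ * ‖dslope f 0 x‖ := by
    rw [← norm_mul, ← h3, hf]
  rw [h4, mul_comm]
  exact mul_le_mul_of_nonneg_left ((min_le_left _ _).trans h2) (norm_nonneg _)

section

variable {Ψ : ℂ[X]} {lam κ : ℂ} {N : ℕ} {δ K : ℝ}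

theorem DD_deriv {f : ℂ → ℂ} (hf : DifferentiableAt ℂ f 0) (k : ℕ) :
    HasDerivAt (fun t => DD t (f t) k) (k - f 0) 0 := by
  have h1 : HasDerivAt (fun t : ℂ => Complex.exp (k * t)) (Complex.exp (k * 0) * (k * 1)) 0 :=
    ((hasDerivAt_id (0 : ℂ)).const_mul (k : ℂ)).cexp
  have h2 : HasDerivAt (fun t : ℂ => Complex.exp t - 1) (Complex.exp 0) 0 :=
    (Complex.hasDerivAt_exp 0).sub_const 1
  have h3 := h1.mul ((h2.mul hf.hasDerivAt).const_sub 1)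
  refine h3.congr_deriv ?_
  simp only [Pi.mul_apply, mul_zero, Complex.exp_zero]
  ring

theorem seq_final {d : ℕ} (hd : 2 ≤ d) {a : ℂ} (ha : ‖a‖ ≤ 1)
    (L : IsLoc (Gp d a) Ψ κ N δ K) (h : IsNF (Gp d a) Ψ lam κ N) (hG0 : (Gp d a).coeff 0 = 0)
    (hG1 : (Gp d a).coeff 1 = lam) {R₁ : ℝ} (hR0 : 0 < R₁) (hR1 : R₁ < 2 * Real.pi) :
    ∃ (C₂ : ℝ) (n₀ : ℕ), 0 < C₂ ∧ 1 ≤ n₀ ∧ ∀ n : ℕ, n₀ ≤ n → ∀ t : ℂ, n * ‖t‖ = R₁ →
      W d a (Complex.exp (t / N)) n ≠ 0 ∧ ‖W d a (Complex.exp (t / N)) n‖ ≤ δ ∧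
      ‖DD t (FF Ψ κ N (W d a (Complex.exp (t / N)) n)) n - 1‖ ≤
        C₂ * (n : ℝ) ^ (-(1 / ((N : ℝ) + 1))) := by
  obtain ⟨m, hm0, hm1, hm⟩ := exists_m hR1
  have hδ := L.pos
  have hK := L.one
  have hN := h.pos
  have hN0 : (0 : ℝ) < N := by exact_mod_cast hN
  have hN1 : (1 : ℝ) ≤ N := by exact_mod_cast hN
  obtain ⟨η, hη⟩ : ∃ η, η = m / (4 * Real.exp R₁) := ⟨_, rfl⟩
  obtain ⟨C₁, hC₁⟩ : ∃ C₁, C₁ = 2 * Real.exp R₁ * (K * (K * (8 / m)) *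
      (1 + 4 * (1 + Real.exp R₁ + Real.exp R₁ * R₁))) := ⟨_, rfl⟩
  have hE : 0 < Real.exp R₁ := Real.exp_pos _
  have hη0 : 0 < η := by rw [hη]; positivity
  have hC₁0 : 0 < C₁ := by rw [hC₁]; positivity
  obtain ⟨p, hp⟩ : ∃ p, p = 1 / ((N : ℝ) + 1) := ⟨_, rfl⟩
  have hp0 : 0 < p := by rw [hp]; positivity
  have hp1 : p ≤ 1 / 2 := by
    rw [hp]
    exact one_div_le_one_div_of_le (by norm_num) (by linarith)
  -- the initial time
  have hpow : Tendsto (fun k : ℕ => (k : ℝ) ^ (-p)) atTop (𝓝 0) :=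
    (tendsto_rpow_neg_atTop hp0).comp tendsto_natCast_atTop_atTop
  have ev1 : ∀ᶠ k : ℕ in atTop, C₁ * (k : ℝ) ^ (-p) ≤ η := by
    have h1 := hpow.const_mul C₁
    rw [mul_zero] at h1
    exact h1.eventually_le_const hη0
  have ev2 : ∀ᶠ k : ℕ in atTop, K * (8 / m) * (k : ℝ) ^ (-p) ≤ δ := by
    have h1 := hpow.const_mul (K * (8 / m))
    rw [mul_zero] at h1
    exact h1.eventually_le_const hδ
  have ev3 := crit_lin hd ha L h hG0 hG1 (η := min (η / 4) (δ / 2)) (by positivity)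
  obtain ⟨k₀, hk1, hk2, hk3, hk4⟩ := (ev1.and (ev2.and (ev3.and (eventually_ge_atTop 1)))).exists
  obtain ⟨hW0, hW1, hF⟩ := hk3
  have hk₀1 : (1 : ℝ) ≤ k₀ := by exact_mod_cast hk4
  have hF' : ‖FF Ψ κ N (W d a 1 k₀) - k₀‖ ≤ η / 4 * k₀ :=
    hF.trans (mul_le_mul_of_nonneg_right (min_le_left _ _) (by linarith))
  have hW1' : ‖W d a 1 k₀‖ ≤ δ / 2 := hW1.trans (min_le_right _ _)
  -- continuity at the initial time
  obtain ⟨g, hg⟩ : ∃ g : ℂ → ℂ, g = fun t => W d a (Complex.exp (t / N)) k₀ := ⟨_, rfl⟩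
  have hgd : Differentiable ℂ g := by
    rw [hg]
    have h1 : Differentiable ℂ fun t : ℂ => Complex.exp (t / N) :=
      (differentiable_id.div_const _).cexp
    exact (W_diff d a k₀).comp h1
  have hg0 : g 0 = W d a 1 k₀ := by rw [hg]; simp
  have hexp : Continuous fun t : ℂ => ‖Complex.exp (t / N) - 1‖ := by fun_prop
  have hexp0 : ‖Complex.exp ((0 : ℂ) / N) - 1‖ = 0 := by simp
  have hFd : DifferentiableAt ℂ (fun t => FF Ψ κ N (g t)) 0 := by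
    have h1 : DifferentiableAt ℂ (FF Ψ κ N) (g 0) := by
      rw [hg0]
      exact L.FF_diff hW0 (by linarith)
    exact h1.comp (0 : ℂ) (hgd 0)
  have hDd := DD_deriv hFd k₀
  rw [hg0] at hDd
  have hD00 : DD 0 (FF Ψ κ N (g 0)) k₀ = 1 := by simp [DD]
  have t1 : ∀ᶠ t : ℂ in 𝓝 0, ‖DD t (FF Ψ κ N (g t)) k₀ - 1‖ ≤ η * k₀ * ‖t‖ := by
    have h1 := hasDerivAt_iff_isLittleO.1 hDd
    have h2 := h1.def (c := η / 4) (by positivity)
    filter_upwards [h2] with t ht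
    rw [hD00, sub_zero, smul_eq_mul] at ht
    have h3 : DD t (FF Ψ κ N (g t)) k₀ - 1 = (DD t (FF Ψ κ N (g t)) k₀ - 1 -
        t * (k₀ - FF Ψ κ N (W d a 1 k₀))) + t * (k₀ - FF Ψ κ N (W d a 1 k₀)) := by ring
    rw [h3]
    refine (norm_add_le _ _).trans ?_
    rw [norm_mul, norm_sub_rev (k₀ : ℂ)]
    have h4 : ‖t‖ * ‖FF Ψ κ N (W d a 1 k₀) - k₀‖ ≤ ‖t‖ * (η / 4 * k₀) :=
      mul_le_mul_of_nonneg_left hF' (norm_nonneg _)
    have h5 : η / 4 * ‖t‖ ≤ η / 4 * k₀ * ‖t‖ := by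
      apply mul_le_mul_of_nonneg_right _ (norm_nonneg _)
      exact le_mul_of_one_le_right (by positivity) hk₀1
    have h6 : 0 ≤ η * k₀ * ‖t‖ := by positivity
    calc _ ≤ η / 4 * k₀ * ‖t‖ + ‖t‖ * (η / 4 * k₀) := add_le_add (ht.trans h5) h4
      _ = η * k₀ * ‖t‖ / 2 := by ring
      _ ≤ η * k₀ * ‖t‖ := by linarith
  have t2 : ∀ᶠ t : ℂ in 𝓝 0, ‖Complex.exp (t / N) - 1‖ ≤ δ := by
    have h1 := hexp.tendsto 0
    rw [hexp0] at h1
    exact h1.eventually_le_const hδ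
  have t3 : ∀ᶠ t : ℂ in 𝓝 0, g t ≠ 0 := by
    have h1 := hgd.continuous.tendsto 0
    rw [hg0] at h1
    exact h1.eventually_ne hW0
  have t4 : ∀ᶠ t : ℂ in 𝓝 0, ‖g t‖ ≤ δ := by
    have h1 := hgd.continuous.norm.tendsto 0
    rw [hg0] at h1
    exact h1.eventually_le_const (by linarith)
  obtain ⟨τ, hτ, hτ1⟩ := Metric.eventually_nhds_iff.1 (t1.and (t2.and (t3.and t4)))
  obtain ⟨n₀, hn₀⟩ := exists_nat_gt (R₁ / τ + 2 * R₁ + k₀)
  have hq1 : 0 < R₁ / τ := by positivity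
  refine ⟨(η * k₀ + 2 * C₁) * R₁, n₀, by positivity, ?_, fun n hn t ht => ?_⟩
  · have : (0 : ℝ) < n₀ := by linarith
    exact_mod_cast this
  have hn' : (n₀ : ℝ) ≤ n := by exact_mod_cast hn
  have hnp : (0 : ℝ) < n := by linarith
  have hn1 : (1 : ℝ) ≤ n := by linarith
  have hteq : ‖t‖ = R₁ / n := by rw [eq_div_iff hnp.ne']; linarith
  have htp : 0 < ‖t‖ := by rw [hteq]; positivity
  have ht0 : t ≠ 0 := norm_pos_iff.1 htp
  have htτ : ‖t‖ < τ := by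
    rw [hteq, div_lt_iff₀ hnp]
    have h1 : R₁ / τ < n := by linarith
    rw [div_lt_iff₀ hτ] at h1
    linarith
  have ht2 : ‖t‖ ≤ 1 / 2 := by
    rw [hteq, div_le_iff₀ hnp]
    linarith
  have hkn : k₀ ≤ n := by
    have : (k₀ : ℝ) ≤ n := by linarith
    exact_mod_cast this
  obtain ⟨s1, s2, s3, s4⟩ := hτ1 (y := t) (by rwa [dist_zero_right])
  simp only [hg] at s1 s3 s4
  obtain ⟨r1, r2, r3⟩ := seq_main L hN hm0 hm1 hm hη hC₁ hk4 (by rw [← hp]; exact hk1)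
    (by rw [← hp]; exact hk2) ht0 ht2 s2 s3 s4 s1 hkn ht.le
  refine ⟨r1, r2, r3.trans ?_⟩
  rw [← hp]
  have h1 : SS p n - SS p k₀ ≤ 2 * (n : ℝ) ^ (1 - p) := by
    have := SS_le hp0 hp1 n
    have := SS_nonneg p k₀
    linarith
  have h2 : (n : ℝ) ^ (1 - p) = n * (n : ℝ) ^ (-p) := by
    rw [show 1 - p = 1 + -p by ring, Real.rpow_add hnp, Real.rpow_one]
  have h3 : ‖t‖ ≤ R₁ * (n : ℝ) ^ (-p) := by
    rw [hteq, div_eq_mul_inv]
    apply mul_le_mul_of_nonneg_left _ hR0.le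
    rw [← Real.rpow_neg_one]
    exact Real.rpow_le_rpow_of_exponent_le hn1 (by linarith)
  calc η * k₀ * ‖t‖ + C₁ * ‖t‖ * (SS p n - SS p k₀)
      ≤ η * k₀ * (R₁ * (n : ℝ) ^ (-p)) + C₁ * ‖t‖ * (2 * (n : ℝ) ^ (1 - p)) := by
        apply add_le_add
        · exact mul_le_mul_of_nonneg_left h3 (by positivity)
        · exact mul_le_mul_of_nonneg_left h1 (by positivity)
    _ = (η * k₀ + 2 * C₁) * R₁ * (n : ℝ) ^ (-p) := by
        rw [h2, ← ht]; ring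

/-- the perturbed orbit stays small on the whole disc -/
theorem disc_bound {d : ℕ} (hd : 2 ≤ d) {a : ℂ} (ha : ‖a‖ ≤ 1)
    (L : IsLoc (Gp d a) Ψ κ N δ K) (h : IsNF (Gp d a) Ψ lam κ N) (hG0 : (Gp d a).coeff 0 = 0)
    (hG1 : (Gp d a).coeff 1 = lam) {R₁ : ℝ} (hR0 : 0 < R₁) (hR1 : R₁ < 2 * Real.pi) :
    ∃ n₀ : ℕ, 1 ≤ n₀ ∧ ∀ n : ℕ, n₀ ≤ n → ∀ t : ℂ, n * ‖t‖ ≤ R₁ →
      ‖W d a (Complex.exp (t / N)) n‖ ≤ δ := by
  obtain ⟨C₂, n₀, -, hn₀, hn₁⟩ := seq_final hd ha L h hG0 hG1 hR0 hR1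
  refine ⟨n₀, hn₀, fun n hn t ht => ?_⟩
  have hnp : (0 : ℝ) < n := by exact_mod_cast (by omega : 0 < n)
  have hr : R₁ / n ≠ 0 := by positivity
  have hd' : Differentiable ℂ fun t : ℂ => W d a (Complex.exp (t / N)) n := by
    have h1 : Differentiable ℂ fun t : ℂ => Complex.exp (t / N) :=
      (differentiable_id.div_const _).cexp
    exact (W_diff d a n).comp h1
  refine Complex.norm_le_of_forall_mem_frontier_norm_le (U := ball (0 : ℂ) (R₁ / n))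
    (f := fun t : ℂ => W d a (Complex.exp (t / N)) n) isBounded_ball hd'.diffContOnCl
    (fun z hz => ?_) (z := t) ?_
  · rw [frontier_ball _ hr, mem_sphere_zero_iff_norm] at hz
    exact (hn₁ n hn z (by rw [hz]; field_simp)).2.1
  · rw [closure_ball _ hr, mem_closedBall_zero_iff, le_div_iff₀ hnp]
    linarith

end

end Pool.Agent.H13RP
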